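import Mathlib

set_option autoImplicit false

/-!
General facts on illumination / covering by translates of the interior, in coordinates.
`IsN K x h`: the vector `h` is an outer normal of `K` at `x`.
-/

namespace Pool.Agent.Hadwiger

open Set Filter Topology

/-- `h` is an outer normal vector of `K` at `x`. -/
def IsN {n : ℕ} (K : Set (Fin n → ℝ)) (x h : Fin n → ℝ) : Prop :=
  ∀ y ∈ K, h ⬝ᵥ y ≤ h ⬝ᵥ x

theorem exists_pos_add_smul_mem {n : ℕ} {K : Set (Fin n → ℝ)} {a : Fin n → ℝ}
    (ha : a ∈ interior K) (w : Fin n → ℝ) : ∃ ε : ℝ, 0 < ε ∧ a + ε • w ∈ interior K := by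
  have h1 : Tendsto (fun ε : ℝ => a + ε • w) (𝓝 0) (𝓝 a) := by
    have : Continuous (fun ε : ℝ => a + ε • w) := by fun_prop
    have h2 := this.tendsto 0
    simpa using h2
  have h2 : ∀ᶠ ε : ℝ in 𝓝 0, a + ε • w ∈ interior K :=
    h1 (isOpen_interior.mem_nhds ha)
  have h3 : ∀ᶠ ε : ℝ in 𝓝[>] 0, a + ε • w ∈ interior K := h2.filter_mono nhdsWithin_le_nhds
  obtain ⟨ε, hε1, hε2⟩ := (h3.and self_mem_nhdsWithin).exists
  exact ⟨ε, hε2, hε1⟩

theorem dot_self_pos {n : ℕ} {h : Fin n → ℝ} (hh : h ≠ 0) : 0 < h ⬝ᵥ h := by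
  have h1 : 0 ≤ h ⬝ᵥ h := by
    unfold dotProduct
    exact Finset.sum_nonneg (fun i _ => mul_self_nonneg _)
  rcases h1.lt_or_eq with h2 | h2
  · exact h2
  · exact absurd (dotProduct_self_eq_zero.mp h2.symm) hh

/-- A set with nonempty interior is not contained in a hyperplane. -/
theorem not_const {n : ℕ} {K : Set (Fin n → ℝ)} (hi : (interior K).Nonempty)
    {h : Fin n → ℝ} (hh : h ≠ 0) (c : ℝ) : ¬ ∀ y ∈ K, h ⬝ᵥ y = c := by
  intro hcon
  obtain ⟨a, ha⟩ := hi
  obtain ⟨ε, hε, h1⟩ := exists_pos_add_smul_mem ha h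
  have h2 := hcon _ (interior_subset h1)
  have h3 := hcon _ (interior_subset ha)
  rw [dotProduct_add, dotProduct_smul, h3, smul_eq_mul] at h2
  have := dot_self_pos hh
  nlinarith [mul_pos hε this]

/-- If `v` makes an obtuse angle with every outer normal of `K` at `x`, then `v` leads from `x`
into the interior of `K`. -/
theorem lit_of_normals {n : ℕ} {K : Set (Fin n → ℝ)} (hc : Convex ℝ K)
    (hi : (interior K).Nonempty) {x : Fin n → ℝ} (v : Fin n → ℝ)
    (hv : ∀ h : Fin n → ℝ, h ≠ 0 → IsN K x h → h ⬝ᵥ v < 0) :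
    ∃ ε : ℝ, 0 < ε ∧ x + ε • v ∈ interior K := by
  by_contra hcon
  push Not at hcon
  have hconv : Convex ℝ ((fun ε : ℝ => x + ε • v) '' Ici 0) := by
    rintro _ ⟨a, ha, rfl⟩ _ ⟨b, hb, rfl⟩ s t hs ht hst
    refine ⟨s * a + t * b, ?_, ?_⟩
    · simp only [mem_Ici] at ha hb ⊢
      positivity
    · simp only
      ext i
      simp only [Pi.add_apply, Pi.smul_apply, smul_eq_mul]
      have : x i = s * x i + t * x i := by rw [← add_mul, hst, one_mul]
      linear_combination this
  have hdisj : Disjoint (interior K) ((fun ε : ℝ => x + ε • v) '' Ici 0) := by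
    rw [Set.disjoint_left]
    rintro _ h1 ⟨ε, hε, rfl⟩
    simp only [mem_Ici] at hε
    rcases hε.lt_or_eq with h2 | h2
    · exact hcon ε h2 h1
    · subst h2
      simp only [zero_smul, add_zero] at h1
      obtain ⟨ε, hε, h3⟩ := exists_pos_add_smul_mem h1 v
      exact hcon ε hε h3
  obtain ⟨f, u, hf1, hf2⟩ := geometric_hahn_banach_open hc.interior isOpen_interior hconv hdisj
  set h : Fin n → ℝ := fun i => f (Pi.single i 1) with hh
  have hfh : ∀ y, f y = h ⬝ᵥ y := by
    intro y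
    have h1 : y = ∑ i, y i • (Pi.single i (1 : ℝ) : Fin n → ℝ) := by
      ext j
      simp [Finset.sum_apply, Pi.single_apply]
    conv_lhs => rw [h1]
    rw [map_sum]
    unfold dotProduct
    apply Finset.sum_congr rfl
    intro i _
    rw [map_smul, smul_eq_mul, mul_comm]
  have hx : u ≤ f x := by
    have := hf2 (x + (0 : ℝ) • v) ⟨0, by simp, rfl⟩
    simpa using this
  have hK : ∀ y ∈ K, f y ≤ u := by
    intro y hy
    have h1 : y ∈ closure (interior K) := by
      rw [hc.closure_interior_eq_closure_of_nonempty_interior hi]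
      exact subset_closure hy
    have h2 : closure (interior K) ⊆ {z | f z ≤ u} :=
      closure_minimal (fun z hz => (hf1 z hz).le) (isClosed_le f.continuous continuous_const)
    exact h2 h1
  have hne : h ≠ 0 := by
    intro h0
    obtain ⟨a, ha⟩ := hi
    have h1 := hf1 a ha
    rw [hfh, h0, zero_dotProduct] at h1
    rw [hfh, h0, zero_dotProduct] at hx
    linarith
  have hN : IsN K x h := by
    intro y hy
    rw [← hfh, ← hfh]
    exact (hK y hy).trans hx
  have hneg := hv h hne hN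
  rw [← hfh] at hneg
  obtain ⟨a, ha⟩ := hi
  -- go far along the ray
  have h1 : ∀ ε : ℝ, 0 ≤ ε → u ≤ f x + ε * f v := by
    intro ε hε
    have := hf2 (x + ε • v) ⟨ε, hε, rfl⟩
    rwa [map_add, map_smul, smul_eq_mul] at this
  have h2 := h1 ((f x - u + 1) / (- f v)) (by
    apply div_nonneg <;> linarith)
  have h3 : (f x - u + 1) / (- f v) * f v = - (f x - u + 1) := by
    have hne' : f v ≠ 0 := hneg.ne
    rw [div_neg, neg_mul, div_mul_cancel₀ _ hne']
  rw [h3] at h2
  linarith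

/-- From illumination by a finite set of directions to a covering by as many translates of the
interior. -/
theorem cover_of_lit {n : ℕ} {K : Set (Fin n → ℝ)} (hc : Convex ℝ K) (hk : IsCompact K)
    (V : Finset (Fin n → ℝ))
    (hV : ∀ x ∈ K, ∃ v ∈ V, ∃ ε : ℝ, 0 < ε ∧ x + ε • v ∈ interior K) :
    ∃ T : Finset (Fin n → ℝ), T.card ≤ V.card ∧
      K ⊆ ⋃ t ∈ T, (fun x => t + x) '' interior K := by
  classical
  let O : ℕ → Set (Fin n → ℝ) := fun k =>
    ⋃ v ∈ V, (fun x : Fin n → ℝ => x + ((1 : ℝ) / (k + 1)) • v) ⁻¹' interior K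
  have hO : ∀ k, IsOpen (O k) := by
    intro k
    apply isOpen_biUnion
    intro v _
    exact isOpen_interior.preimage (by fun_prop)
  have hmono : ∀ x ∈ K, ∀ v : Fin n → ℝ, ∀ ε δ : ℝ, 0 < δ → δ ≤ ε →
      x + ε • v ∈ interior K → x + δ • v ∈ interior K := by
    intro x hx v ε δ hδ hδε h1
    have hε : 0 < ε := lt_of_lt_of_le hδ hδε
    have h2 := hc.add_smul_mem_interior hx h1 (t := δ / ε)
      ⟨by positivity, by rw [div_le_one hε]; exact hδε⟩
    rwa [smul_smul, div_mul_cancel₀ _ hε.ne'] at h2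
  have hcov : K ⊆ ⋃ k, O k := by
    intro x hx
    obtain ⟨v, hv, ε, hε, h1⟩ := hV x hx
    obtain ⟨k, hk⟩ := exists_nat_one_div_lt hε
    simp only [O, mem_iUnion]
    exact ⟨k, v, hv, hmono x hx v ε _ (by positivity) hk.le h1⟩
  obtain ⟨F, hF⟩ := hk.elim_finite_subcover O hO hcov
  obtain ⟨N, hN⟩ : ∃ N : ℕ, ∀ k ∈ F, k ≤ N := ⟨F.sup id, fun k hk => Finset.le_sup (f := id) hk⟩
  refine ⟨V.image (fun v => -(((1 : ℝ) / (N + 1)) • v)), Finset.card_image_le, ?_⟩
  intro x hx
  have h1 := hF hx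
  simp only [O, mem_iUnion] at h1
  obtain ⟨k, hkF, v, hv, h2⟩ := h1
  have h3 : x + ((1 : ℝ) / (N + 1)) • v ∈ interior K := by
    apply hmono x hx v _ _ (by positivity) _ h2
    apply one_div_le_one_div_of_le (by positivity)
    have : (k : ℝ) ≤ N := by exact_mod_cast hN k hkF
    linarith
  simp only [mem_iUnion, Finset.mem_image]
  exact ⟨_, ⟨v, hv, rfl⟩, _, h3, by simp⟩

/-- Transfer of the covering property through a continuous linear equivalence and a translation. -/
theorem cover_transfer {E F : Type*} [AddCommGroup E] [Module ℝ E] [TopologicalSpace E]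
    [AddCommGroup F] [Module ℝ F] [TopologicalSpace F] [IsTopologicalAddGroup F]
    (L : E ≃L[ℝ] F) (c : F) (N : ℕ) (K : Set F)
    (h : ∃ T : Finset E, T.card ≤ N ∧
      (L.toHomeomorph.trans (Homeomorph.addRight c)) ⁻¹' K ⊆
        ⋃ t ∈ T, (fun x => t + x) '' interior
          ((L.toHomeomorph.trans (Homeomorph.addRight c)) ⁻¹' K)) :
    ∃ T : Finset F, T.card ≤ N ∧ K ⊆ ⋃ t ∈ T, (fun x => t + x) '' interior K := by
  classical
  obtain ⟨T, hT, hcov⟩ := h
  refine ⟨T.image L, Finset.card_image_le.trans hT, ?_⟩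
  intro y hy
  set φ := L.toHomeomorph.trans (Homeomorph.addRight c) with hφ
  have hφa : ∀ x, φ x = L x + c := fun x => rfl
  have h1 : φ.symm y ∈ φ ⁻¹' K := by simpa using hy
  have h2 := hcov h1
  simp only [mem_iUnion] at h2
  obtain ⟨t, ht, z, hz, hz2⟩ := h2
  simp only [mem_iUnion, Finset.mem_image]
  refine ⟨L t, ⟨t, ht, rfl⟩, φ z, ?_, ?_⟩
  · rw [← φ.preimage_interior] at hz
    exact hz
  · simp only at hz2 ⊢
    have h3 : φ (t + z) = y := by rw [hz2]; simp
    rw [← h3, hφa, hφa, map_add, add_assoc]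

end Pool.Agent.Hadwiger
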