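import Mathlib
import Pool.Agent.Hadwiger.Basic

set_option autoImplicit false

/-!
Convex bodies in `ℝ^{m+1}` invariant under all permutations of the coordinates:
planar normals and the four label lemmas.
-/

namespace Pool.Agent.Hadwiger

open Set Filter Topology

variable {m : ℕ}

/-- Sum of the coordinates. -/
def sm (x : Fin (m + 1) → ℝ) : ℝ := ∑ i, x i

/-- Deviation of the `i`-th coordinate from the mean. -/
noncomputable def dev (x : Fin (m + 1) → ℝ) (i : Fin (m + 1)) : ℝ := x i - sm x / (m + 1)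

/-- Deviation of the coordinate `0` from the mean. -/
noncomputable def ee (x : Fin (m + 1) → ℝ) : ℝ := x 0 - sm x / (m + 1)

/-- A permutation invariant convex body. -/
structure Sym (K : Set (Fin (m + 1) → ℝ)) : Prop where
  conv : Convex ℝ K
  comp : IsCompact K
  int : (interior K).Nonempty
  perm : ∀ σ : Equiv.Perm (Fin (m + 1)), ∀ x ∈ K, x ∘ σ ∈ K

theorem sm_add (x y : Fin (m + 1) → ℝ) : sm (x + y) = sm x + sm y := by
  simp [sm, Finset.sum_add_distrib]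

theorem sm_smul (c : ℝ) (x : Fin (m + 1) → ℝ) : sm (c • x) = c * sm x := by
  simp [sm, Finset.mul_sum]

theorem sm_neg (x : Fin (m + 1) → ℝ) : sm (-x) = - sm x := by
  simp [sm]

theorem sm_comp (x : Fin (m + 1) → ℝ) (σ : Equiv.Perm (Fin (m + 1))) : sm (x ∘ σ) = sm x := by
  simp only [sm, Function.comp]
  exact Equiv.sum_comp σ x

theorem sm_const (c : ℝ) : sm (fun _ : Fin (m + 1) => c) = (m + 1) * c := by
  simp [sm]

theorem const_dot (c : ℝ) (y : Fin (m + 1) → ℝ) : (fun _ => c) ⬝ᵥ y = c * sm y := by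
  simp [dotProduct, sm, Finset.mul_sum]

theorem dot_const (c : ℝ) (y : Fin (m + 1) → ℝ) : y ⬝ᵥ (fun _ => c) = c * sm y := by
  simp only [dotProduct, sm, Finset.mul_sum]
  apply Finset.sum_congr rfl; intro i _; ring

theorem ee_eq_dev (x : Fin (m + 1) → ℝ) : ee x = dev x 0 := rfl

theorem ee_neg (x : Fin (m + 1) → ℝ) : ee (-x) = - ee x := by
  simp only [ee, sm_neg, Pi.neg_apply]; ring

theorem sum_dev (x : Fin (m + 1) → ℝ) : ∑ i, dev x i = 0 := by
  simp only [dev, Finset.sum_sub_distrib, Finset.sum_const, Finset.card_univ, Fintype.card_fin,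
    nsmul_eq_mul]
  have : (m : ℝ) + 1 ≠ 0 := by positivity
  push_cast
  rw [mul_div_cancel₀ _ this]
  simp [sm]

theorem ee_swap (x : Fin (m + 1) → ℝ) (i : Fin (m + 1)) : ee (x ∘ Equiv.swap 0 i) = dev x i := by
  simp only [ee, dev, sm_comp, Function.comp, Equiv.swap_apply_left]

theorem sm_continuous : Continuous (sm : (Fin (m + 1) → ℝ) → ℝ) := by
  unfold sm; fun_prop

theorem ee_continuous : Continuous (ee : (Fin (m + 1) → ℝ) → ℝ) := by
  unfold ee sm; fun_prop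

/-- If transposing two coordinates of `y` does not increase `h ⬝ᵥ ·`, then `h` is ordered like `y`
on these coordinates. -/
theorem order_of_swap {h y : Fin (m + 1) → ℝ} {i l : Fin (m + 1)}
    (h1 : h ⬝ᵥ (y ∘ Equiv.swap i l) ≤ h ⬝ᵥ y) (hil : y i < y l) : h i ≤ h l := by
  have hne : i ≠ l := by rintro rfl; exact lt_irrefl _ hil
  have h2 : y ∘ (Equiv.swap i l) =
      y + (y l - y i) • (Pi.single i (1 : ℝ) - Pi.single l (1 : ℝ) : Fin (m + 1) → ℝ) := by
    ext j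
    simp only [Function.comp, Pi.add_apply, Pi.smul_apply, Pi.sub_apply, smul_eq_mul,
      Pi.single_apply]
    by_cases hj : j = i
    · subst hj
      rw [Equiv.swap_apply_left, if_pos rfl, if_neg hne]; ring
    · by_cases hj2 : j = l
      · subst hj2
        rw [Equiv.swap_apply_right, if_neg hj, if_pos rfl]; ring
      · rw [Equiv.swap_apply_of_ne_of_ne hj hj2, if_neg hj, if_neg hj2]; ring
  rw [h2, dotProduct_add, dotProduct_smul, dotProduct_sub, dotProduct_single, dotProduct_single,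
    smul_eq_mul, mul_one, mul_one] at h1
  have h3 : (y l - y i) * (h i - h l) ≤ 0 := by linarith
  have h4 : 0 < y l - y i := by linarith
  nlinarith

theorem IsN.order {K : Set (Fin (m + 1) → ℝ)} (hK : Sym K) {x h : Fin (m + 1) → ℝ} (hx : x ∈ K)
    (hn : IsN K x h) {i l : Fin (m + 1)} (hil : x i < x l) : h i ≤ h l :=
  order_of_swap (hn _ (hK.perm _ x hx)) hil

theorem Sym.diag {K : Set (Fin (m + 1) → ℝ)} (hK : Sym K) {y : Fin (m + 1) → ℝ} (hy : y ∈ K) :
    (fun _ : Fin (m + 1) => sm y / (m + 1)) ∈ K := by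
  have h0 : ((m : ℝ) + 1) ≠ 0 := by positivity
  have h1 : (fun _ : Fin (m + 1) => sm y / (m + 1)) =
      ∑ k : Fin (m + 1), ((1 : ℝ) / (m + 1)) • (y ∘ (Equiv.addRight k)) := by
    ext i
    simp only [Finset.sum_apply, Pi.smul_apply, Function.comp, Equiv.coe_addRight, smul_eq_mul]
    rw [← Finset.mul_sum]
    have h2 : ∑ k, y (i + k) = sm y := by
      have := Equiv.sum_comp (Equiv.addLeft i) y
      simpa [sm] using this
    rw [h2]; ring
  rw [h1]
  apply hK.conv.sum_mem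
  · intro i _; positivity
  · simp [h0]
  · intro i _; exact hK.perm _ y hy

theorem sm_diag (y : Fin (m + 1) → ℝ) : sm (fun _ : Fin (m + 1) => sm y / (m + 1)) = sm y := by
  rw [sm_const]
  have h0 : ((m : ℝ) + 1) ≠ 0 := by positivity
  rw [mul_div_cancel₀ _ h0]

theorem ee_diag (y : Fin (m + 1) → ℝ) : ee (fun _ : Fin (m + 1) => sm y / (m + 1)) = 0 := by
  unfold ee; rw [sm_diag]; ring

theorem one_ne_zero' : (fun _ : Fin (m + 1) => (1 : ℝ)) ≠ 0 := by
  intro h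
  have := congrFun h 0
  simp at this

/-- `sm` is not constant on a body. -/
theorem Sym.sm_not_const {K : Set (Fin (m + 1) → ℝ)} (hK : Sym K) (c : ℝ) :
    ¬ ∀ y ∈ K, sm y = c := by
  intro h
  apply not_const hK.int (one_ne_zero' (m := m)) c
  intro y hy
  rw [const_dot, one_mul]; exact h y hy

theorem Sym.neg {K : Set (Fin (m + 1) → ℝ)} (hK : Sym K) : Sym ((fun x => -x) ⁻¹' K) where
  conv := by
    intro x hx y hy a b ha hb hab
    have := hK.conv hx hy ha hb hab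
    simp only [mem_preimage, smul_neg] at this ⊢
    rwa [neg_add]
  comp := by
    have : (fun x : Fin (m + 1) → ℝ => -x) ⁻¹' K = (fun x => -x) '' K := by
      ext x
      constructor
      · intro h; exact ⟨-x, h, by simp⟩
      · rintro ⟨y, hy, rfl⟩; simpa using hy
    rw [this]
    exact hK.comp.image continuous_neg
  int := by
    obtain ⟨a, ha⟩ := hK.int
    refine ⟨-a, ?_⟩
    have h1 : (fun x : Fin (m + 1) → ℝ => -x) ⁻¹' interior K ⊆
        interior ((fun x : Fin (m + 1) → ℝ => -x) ⁻¹' K) :=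
      preimage_interior_subset_interior_preimage continuous_neg
    apply h1
    simpa using ha
  perm := by
    intro σ x hx
    have := hK.perm σ (-x) hx
    exact this

/-! ### Planar normals -/

/-- Planar normals: `η * ee + σ * sm` is maximised over `K` at `x`. -/
def PN (K : Set (Fin (m + 1) → ℝ)) (x : Fin (m + 1) → ℝ) (η σ : ℝ) : Prop :=
  ∀ y ∈ K, η * ee y + σ * sm y ≤ η * ee x + σ * sm x

/-- Every normal at a top point has positive sum. -/
def US (K : Set (Fin (m + 1) → ℝ)) : Prop :=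
  ∀ x ∈ K, (∀ y ∈ K, sm y ≤ sm x) → ∀ h : Fin (m + 1) → ℝ, h ≠ 0 → IsN K x h → 0 < sm h

/-- Every normal at a bottom point has negative sum. -/
def LS (K : Set (Fin (m + 1) → ℝ)) : Prop :=
  ∀ x ∈ K, (∀ y ∈ K, sm x ≤ sm y) → ∀ h : Fin (m + 1) → ℝ, h ≠ 0 → IsN K x h → sm h < 0

def GoodTop (K : Set (Fin (m + 1) → ℝ)) (k : ℕ) (ρ : ℝ) : Prop :=
  ∀ S : Finset (Fin m), S.card = k → ∀ x ∈ K, (∀ l ∉ S, x l.succ = x 0) → (∀ i, x i ≤ x 0) →
    ∀ η₁ σ₁ η₂ σ₂ : ℝ, 0 ≤ η₁ → 0 ≤ η₂ → (η₁ ≠ 0 ∨ σ₁ ≠ 0) → (η₂ ≠ 0 ∨ σ₂ ≠ 0) →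
      PN K x η₁ σ₁ → PN K x η₂ σ₂ → σ₁ ≤ ρ * η₁ → -(ρ * η₂) ≤ σ₂ →
      (US K ∧ ∀ h : Fin (m + 1) → ℝ, h ≠ 0 → IsN K x h → 0 < sm h) ∨
      (LS K ∧ ∀ h : Fin (m + 1) → ℝ, h ≠ 0 → IsN K x h → sm h < 0)

theorem PN.not_both {K : Set (Fin (m + 1) → ℝ)} (hK : Sym K) {x : Fin (m + 1) → ℝ}
    {σ₁ σ₂ : ℝ} (h1 : PN K x 0 σ₁) (h2 : PN K x 0 σ₂) (hσ₁ : σ₁ < 0) (hσ₂ : 0 < σ₂) : False := by
  apply hK.sm_not_const (sm x)
  intro y hy
  have h3 := h1 y hy
  have h4 := h2 y hy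
  simp only [zero_mul, zero_add] at h3 h4
  have h5 : sm x ≤ sm y := by nlinarith
  have h6 : sm y ≤ sm x := by nlinarith
  linarith

theorem goodTop_large {K : Set (Fin (m + 1) → ℝ)} (hK : Sym K) (k : ℕ)
    {xp xq : Fin (m + 1) → ℝ} (hp : xp ∈ K) (hq : xq ∈ K) (hp' : ∀ y ∈ K, sm xp ≤ sm y)
    (hq' : ∀ y ∈ K, sm y ≤ sm xq) {M : ℝ} (hM : ∀ y ∈ K, ee y ≤ M) {B : ℝ} (hB : 0 ≤ B)
    (hB' : 2 * M < B * (sm xq - sm xp)) : GoodTop K k (-B) := by
  intro S _ x hx _ _ η₁ σ₁ η₂ σ₂ hη₁ hη₂ hn₁ hn₂ h1 h2 h3 h4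
  exfalso
  have hM0 : 0 ≤ M := by
    have := hM _ (hK.diag hp)
    rwa [ee_diag] at this
  have e1 := h1 _ (hK.diag hp)
  have e2 := h2 _ (hK.diag hq)
  rw [ee_diag, sm_diag] at e1 e2
  have hex := hM x hx
  have hxp := hp' x hx
  have hxq := hq' x hx
  have g1 : B * (sm x - sm xp) ≤ M := by
    rcases hη₁.lt_or_eq with hη | hη
    · have : η₁ * (B * (sm x - sm xp)) ≤ η₁ * M := by
        have a1 : (-σ₁) * (sm x - sm xp) ≤ η₁ * ee x := by nlinarith
        have a2 : (B * η₁) * (sm x - sm xp) ≤ (-σ₁) * (sm x - sm xp) :=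
          mul_le_mul_of_nonneg_right (by linarith) (by linarith)
        have a3 : η₁ * ee x ≤ η₁ * M := mul_le_mul_of_nonneg_left hex hη₁
        nlinarith
      exact le_of_mul_le_mul_left this hη
    · have hσ : σ₁ < 0 := by
        rcases hn₁ with h | h
        · exact absurd hη.symm h
        · apply lt_of_le_of_ne _ h
          rw [← hη] at h3; linarith
      have a1 : sm x - sm xp ≤ 0 := by
        rw [← hη] at e1
        nlinarith
      nlinarith
  have g2 : B * (sm xq - sm x) ≤ M := by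
    rcases hη₂.lt_or_eq with hη | hη
    · have : η₂ * (B * (sm xq - sm x)) ≤ η₂ * M := by
        have a1 : σ₂ * (sm xq - sm x) ≤ η₂ * ee x := by nlinarith
        have a2 : (B * η₂) * (sm xq - sm x) ≤ σ₂ * (sm xq - sm x) :=
          mul_le_mul_of_nonneg_right (by linarith) (by linarith)
        have a3 : η₂ * ee x ≤ η₂ * M := mul_le_mul_of_nonneg_left hex hη₂
        nlinarith
      exact le_of_mul_le_mul_left this hη
    · have hσ : 0 < σ₂ := by
        rcases hn₂ with h | h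
        · exact absurd hη.symm h
        · apply lt_of_le_of_ne _ (Ne.symm h)
          rw [← hη] at h4; linarith
      have a1 : sm xq - sm x ≤ 0 := by
        rw [← hη] at e2
        nlinarith
      nlinarith
  nlinarith

theorem goodTop_flat {K : Set (Fin (m + 1) → ℝ)} (k : ℕ)
    {y1 y2 : Fin (m + 1) → ℝ} (hy1 : y1 ∈ K) (hy2 : y2 ∈ K) (hM : ∀ y ∈ K, ee y ≤ ee y1)
    (h12 : ee y1 = ee y2) (hs : sm y1 < sm y2) {B : ℝ} (hB : 0 < B) : GoodTop K k (-B) := by
  intro S _ x hx _ _ η₁ σ₁ η₂ σ₂ hη₁ hη₂ hn₁ hn₂ h1 h2 h3 h4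
  exfalso
  have e1 := h1 y1 hy1
  have e2 := h2 y2 hy2
  have hex := hM x hx
  have g1 : sm x ≤ sm y1 := by
    have hσ : σ₁ < 0 := by
      rcases hη₁.lt_or_eq with hη | hη
      · nlinarith [mul_pos hB hη]
      · rcases hn₁ with h | h
        · exact absurd hη.symm h
        · apply lt_of_le_of_ne _ h
          rw [← hη] at h3; linarith
    have a1 : η₁ * ee x ≤ η₁ * ee y1 := mul_le_mul_of_nonneg_left hex hη₁
    nlinarith
  have g2 : sm y2 ≤ sm x := by
    have hσ : 0 < σ₂ := by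
      rcases hη₂.lt_or_eq with hη | hη
      · nlinarith [mul_pos hB hη]
      · rcases hn₂ with h | h
        · exact absurd hη.symm h
        · apply lt_of_le_of_ne _ (Ne.symm h)
          rw [← hη] at h4; linarith
    have a1 : η₂ * ee x ≤ η₂ * ee y2 := by
      rw [← h12]; exact mul_le_mul_of_nonneg_left hex hη₂
    nlinarith
  linarith

/-- Points with a planar normal cone containing an almost horizontal normal are almost extreme. -/
theorem near_max {K : Set (Fin (m + 1) → ℝ)} (hK : Sym K)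
    {xp xq ys x : Fin (m + 1) → ℝ} (hys : ys ∈ K) (hx : x ∈ K) (hp' : ∀ y ∈ K, sm xp ≤ sm y)
    (hq' : ∀ y ∈ K, sm y ≤ sm xq) {B : ℝ} (hB : 0 ≤ B)
    {η₁ σ₁ η₂ σ₂ : ℝ} (hη₁ : 0 ≤ η₁) (hη₂ : 0 ≤ η₂) (hn₁ : η₁ ≠ 0 ∨ σ₁ ≠ 0)
    (hn₂ : η₂ ≠ 0 ∨ σ₂ ≠ 0) (h1 : PN K x η₁ σ₁) (h2 : PN K x η₂ σ₂) (h3 : σ₁ ≤ B * η₁)
    (h4 : -(B * η₂) ≤ σ₂) : ee ys - ee x ≤ B * (sm xq - sm xp) := by
  have e1 := h1 ys hys
  have e2 := h2 ys hys
  have b1 := hp' ys hys
  have b2 := hq' ys hys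
  have b3 := hp' x hx
  have b4 := hq' x hx
  have hD : 0 ≤ B * (sm xq - sm xp) := mul_nonneg hB (by linarith)
  have hσ₁ : η₁ = 0 → σ₁ < 0 := by
    intro hη
    rcases hn₁ with h | h
    · exact absurd hη h
    · apply lt_of_le_of_ne _ h
      rw [hη] at h3; linarith
  have hσ₂ : η₂ = 0 → 0 < σ₂ := by
    intro hη
    rcases hn₂ with h | h
    · exact absurd hη h
    · apply lt_of_le_of_ne _ (Ne.symm h)
      rw [hη] at h4; linarith
  rcases le_total (sm ys) (sm x) with hle | hle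
  · rcases hη₁.lt_or_eq with hη | hη
    · have a1 : η₁ * (ee ys - ee x) ≤ σ₁ * (sm x - sm ys) := by nlinarith
      have a2 : σ₁ * (sm x - sm ys) ≤ (B * η₁) * (sm x - sm ys) :=
        mul_le_mul_of_nonneg_right h3 (by linarith)
      have a3 : (B * η₁) * (sm x - sm ys) ≤ (B * η₁) * (sm xq - sm xp) :=
        mul_le_mul_of_nonneg_left (by linarith) (by positivity)
      have : η₁ * (ee ys - ee x) ≤ η₁ * (B * (sm xq - sm xp)) := by nlinarith
      exact le_of_mul_le_mul_left this hη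
    · have s1 := hσ₁ hη.symm
      rw [← hη] at e1 h1
      have a1 : sm x ≤ sm ys := by nlinarith
      have a2 : sm x = sm ys := le_antisymm a1 hle
      rcases hη₂.lt_or_eq with hη' | hη'
      · have : η₂ * (ee ys - ee x) ≤ 0 := by rw [a2] at e2; nlinarith
        have : ee ys - ee x ≤ 0 := by
          by_contra hcon
          push Not at hcon
          have := mul_pos hη' hcon
          linarith
        linarith
      · rw [← hη'] at h2
        exact (PN.not_both hK h1 h2 s1 (hσ₂ hη'.symm)).elim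
  · rcases hη₂.lt_or_eq with hη | hη
    · have a1 : η₂ * (ee ys - ee x) ≤ (-σ₂) * (sm ys - sm x) := by nlinarith
      have a2 : (-σ₂) * (sm ys - sm x) ≤ (B * η₂) * (sm ys - sm x) :=
        mul_le_mul_of_nonneg_right (by linarith) (by linarith)
      have a3 : (B * η₂) * (sm ys - sm x) ≤ (B * η₂) * (sm xq - sm xp) :=
        mul_le_mul_of_nonneg_left (by linarith) (by positivity)
      have : η₂ * (ee ys - ee x) ≤ η₂ * (B * (sm xq - sm xp)) := by nlinarith
      exact le_of_mul_le_mul_left this hη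
    · have s1 := hσ₂ hη.symm
      rw [← hη] at e2 h2
      have a1 : sm ys ≤ sm x := by nlinarith
      have a2 : sm x = sm ys := le_antisymm hle a1
      rcases hη₁.lt_or_eq with hη' | hη'
      · have : η₁ * (ee ys - ee x) ≤ 0 := by rw [a2] at e1; nlinarith
        have : ee ys - ee x ≤ 0 := by
          by_contra hcon
          push Not at hcon
          have := mul_pos hη' hcon
          linarith
        linarith
      · rw [← hη'] at h1
        exact (PN.not_both hK h1 h2 (hσ₁ hη'.symm) s1).elim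

/-! ### Counting -/

theorem split_dev (x : Fin (m + 1) → ℝ) (S : Finset (Fin m)) :
    dev x 0 + (∑ l ∈ S, dev x l.succ + ∑ l ∈ Sᶜ, dev x l.succ) = 0 := by
  rw [Finset.sum_add_sum_compl, ← Fin.sum_univ_succ]
  exact sum_dev x

theorem Sym.dev_le {K : Set (Fin (m + 1) → ℝ)} (hK : Sym K) {M : ℝ} (hM : ∀ y ∈ K, ee y ≤ M)
    {x : Fin (m + 1) → ℝ} (hx : x ∈ K) (i : Fin (m + 1)) : dev x i ≤ M := by
  rw [← ee_swap]; exact hM _ (hK.perm _ x hx)

theorem Sym.le_dev {K : Set (Fin (m + 1) → ℝ)} (hK : Sym K) {M : ℝ} (hM : ∀ y ∈ K, -M ≤ ee y)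
    {x : Fin (m + 1) → ℝ} (hx : x ∈ K) (i : Fin (m + 1)) : -M ≤ dev x i := by
  rw [← ee_swap]; exact hM _ (hK.perm _ x hx)

/-- A point whose top level contains the complement of `S`. -/
theorem top_count {K : Set (Fin (m + 1) → ℝ)} (hK : Sym K) {M' : ℝ} (hM' : ∀ y ∈ K, -M' ≤ ee y)
    {x : Fin (m + 1) → ℝ} (hx : x ∈ K) {S : Finset (Fin m)} (hS : ∀ l ∉ S, x l.succ = x 0) :
    ((m : ℝ) + 1 - S.card) * ee x ≤ S.card * M' := by
  have h1 := split_dev x S
  have h2 : ∑ l ∈ Sᶜ, dev x l.succ = (m - S.card) * ee x := by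
    have : ∀ l ∈ Sᶜ, dev x l.succ = ee x := by
      intro l hl
      rw [Finset.mem_compl] at hl
      simp only [dev, ee, hS l hl]
    rw [Finset.sum_congr rfl this, Finset.sum_const, Finset.card_compl, Fintype.card_fin,
      nsmul_eq_mul, Nat.cast_sub (by simpa using S.card_le_univ)]
  have h3 : -(S.card * M') ≤ ∑ l ∈ S, dev x l.succ := by
    have : ∑ l ∈ S, (-M') ≤ ∑ l ∈ S, dev x l.succ :=
      Finset.sum_le_sum (fun l _ => hK.le_dev hM' hx l.succ)
    rw [Finset.sum_const, nsmul_eq_mul] at this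
    linarith
  rw [h2, ← ee_eq_dev] at h1
  linarith

/-- A point whose bottom level contains `S` and `0`. -/
theorem bot_count {K : Set (Fin (m + 1) → ℝ)} (hK : Sym K) {M : ℝ} (hM : ∀ y ∈ K, ee y ≤ M)
    {z : Fin (m + 1) → ℝ} (hz : z ∈ K) {S : Finset (Fin m)} (hS : ∀ l ∈ S, z l.succ = z 0) :
    ((S.card : ℝ) + 1) * (- ee z) ≤ (m - S.card) * M := by
  have h1 := split_dev z S
  have h2 : ∑ l ∈ S, dev z l.succ = S.card * ee z := by
    have : ∀ l ∈ S, dev z l.succ = ee z := by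
      intro l hl
      simp only [dev, ee, hS l hl]
    rw [Finset.sum_congr rfl this, Finset.sum_const, nsmul_eq_mul]
  have h3 : ∑ l ∈ Sᶜ, dev z l.succ ≤ (m - S.card) * M := by
    have : ∑ l ∈ Sᶜ, dev z l.succ ≤ ∑ l ∈ Sᶜ, M :=
      Finset.sum_le_sum (fun l _ => hK.dev_le hM hz l.succ)
    rwa [Finset.sum_const, Finset.card_compl, Fintype.card_fin,
      nsmul_eq_mul, Nat.cast_sub (by simpa using S.card_le_univ)] at this
  rw [h2, ← ee_eq_dev] at h1
  linarith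

theorem goodTop_zero {K : Set (Fin (m + 1) → ℝ)} (hK : Sym K) (k : ℕ)
    {xp xq ys : Fin (m + 1) → ℝ} (hys : ys ∈ K) (hp' : ∀ y ∈ K, sm xp ≤ sm y)
    (hq' : ∀ y ∈ K, sm y ≤ sm xq) (hM : ∀ y ∈ K, ee y ≤ ee ys)
    (hno : ¬ ∃ x ∈ K, ee x = ee ys ∧ ∃ S : Finset (Fin m), S.card = k ∧
      ∀ l ∉ S, x l.succ = x 0) : GoodTop K k 0 := by
  intro S hS x hx hS' _ η₁ σ₁ η₂ σ₂ hη₁ hη₂ hn₁ hn₂ h1 h2 h3 h4
  exfalso
  have := near_max hK hys hx hp' hq' le_rfl hη₁ hη₂ hn₁ hn₂ h1 h2 h3 h4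
  apply hno
  refine ⟨x, hx, ?_, S, hS, hS'⟩
  have := hM x hx
  linarith

theorem goodTop_small {K : Set (Fin (m + 1) → ℝ)} (hK : Sym K) (k : ℕ)
    {xp xq ys z : Fin (m + 1) → ℝ} (hys : ys ∈ K) (hp' : ∀ y ∈ K, sm xp ≤ sm y)
    (hq' : ∀ y ∈ K, sm y ≤ sm xq) (hM : ∀ y ∈ K, ee y ≤ ee ys) (hz : z ∈ K)
    (hM' : ∀ y ∈ K, ee z ≤ ee y) {S' : Finset (Fin m)} (hS'c : S'.card = k)
    (hS' : ∀ l ∈ S', z l.succ = z 0)
    {B : ℝ} (hB : 0 ≤ B) (hB' : B * (sm xq - sm xp) * (m + 1) < ee ys) : GoodTop K k B := by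
  intro S hS x hx hSx _ η₁ σ₁ η₂ σ₂ hη₁ hη₂ hn₁ hn₂ h1 h2 h3 h4
  exfalso
  have g1 := near_max hK hys hx hp' hq' hB hη₁ hη₂ hn₁ hn₂ h1 h2 h3 h4
  have g2 := top_count hK (M' := - ee z) (by intro y hy; rw [neg_neg]; exact hM' y hy) hx hSx
  have g3 := bot_count hK hM hz hS'
  rw [hS] at g2
  rw [hS'c] at g3
  set b := B * (sm xq - sm xp) with hb
  have hb0 : 0 ≤ b := mul_nonneg hB (by linarith [hp' x hx, hq' x hx])
  have hk : k ≤ m := by rw [← hS]; simpa using S.card_le_univ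
  have hk' : (k : ℝ) ≤ m := by exact_mod_cast hk
  have hk0 : (0 : ℝ) ≤ k := by positivity
  -- (k+1)(m+1-k)(M-b) ≤ k (k+1) M' ≤ k (m-k) M
  have c1 : ((k : ℝ) + 1) * (((m : ℝ) + 1 - k) * (ee ys - b)) ≤ (k : ℝ) * ((m - k) * ee ys) := by
    have d1 : ((m : ℝ) + 1 - k) * (ee ys - b) ≤ k * (- ee z) := by
      have : ((m : ℝ) + 1 - k) * (ee ys - b) ≤ ((m : ℝ) + 1 - k) * ee x :=
        mul_le_mul_of_nonneg_left (by linarith) (by linarith)
      linarith
    have d2 : ((k : ℝ) + 1) * (((m : ℝ) + 1 - k) * (ee ys - b)) ≤ ((k : ℝ) + 1) * (k * (- ee z)) :=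
      mul_le_mul_of_nonneg_left d1 (by linarith)
    have d3 : (k : ℝ) * (((k : ℝ) + 1) * (- ee z)) ≤ k * ((m - k) * ee ys) :=
      mul_le_mul_of_nonneg_left g3 hk0
    nlinarith
  have c2 : ((m : ℝ) + 1) * ee ys ≤ ((k : ℝ) + 1) * ((m : ℝ) + 1 - k) * b := by nlinarith
  have c3 : ((k : ℝ) + 1) * ((m : ℝ) + 1 - k) * b ≤ ((m : ℝ) + 1) * ((m : ℝ) + 1) * b := by
    apply mul_le_mul_of_nonneg_right _ hb0
    nlinarith
  have c4 : ((m : ℝ) + 1) * ee ys ≤ ((m : ℝ) + 1) * (b * (m + 1)) := by nlinarith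
  have c5 : ee ys ≤ b * (m + 1) := le_of_mul_le_mul_left c4 (by positivity)
  linarith

end Pool.Agent.Hadwiger
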