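import Mathlib
import Pool.Agent.Hadwiger.PermCore

set_option autoImplicit false

/-!
Two-level averaging and the last label lemma.
-/

namespace Pool.Agent.Hadwiger

open Set Filter Topology

variable {m : ℕ}

/-- Averaging a point of `K` over all permutations fixing `Z` pointwise. -/
theorem Sym.twoLevel {K : Set (Fin (m + 1) → ℝ)} (hK : Sym K) {z : Fin (m + 1) → ℝ} (hz : z ∈ K)
    (Z : Finset (Fin (m + 1))) : ∃ w ∈ K, sm w = sm z ∧ (∀ i ∈ Z, w i = z i) ∧
      (∀ i ∉ Z, ∀ l ∉ Z, w i = w l) := by
  classical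
  set G : Finset (Equiv.Perm (Fin (m + 1))) :=
    Finset.univ.filter (fun σ => ∀ i ∈ Z, σ i = i) with hG
  have hGne : (1 : Equiv.Perm (Fin (m + 1))) ∈ G := by simp [hG]
  have hGpos : (0 : ℝ) < G.card := by
    exact_mod_cast Finset.card_pos.mpr ⟨1, hGne⟩
  have hsum1 : ∑ _σ ∈ G, ((1 : ℝ) / G.card) = 1 := by
    rw [Finset.sum_const, nsmul_eq_mul, mul_one_div, div_self hGpos.ne']
  refine ⟨∑ σ ∈ G, ((1 : ℝ) / G.card) • (z ∘ σ), ?_, ?_, ?_, ?_⟩
  · apply hK.conv.sum_mem
    · intro i _; positivity
    · exact hsum1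
    · intro σ _; exact hK.perm σ z hz
  · simp only [sm, Finset.sum_apply, Pi.smul_apply, Function.comp, smul_eq_mul]
    rw [Finset.sum_comm]
    have : ∀ σ ∈ G, ∑ i, (1 : ℝ) / G.card * z (σ i) = (1 : ℝ) / G.card * ∑ i, z i := by
      intro σ _
      rw [← Finset.mul_sum, Equiv.sum_comp σ z]
    rw [Finset.sum_congr rfl this, ← Finset.sum_mul, hsum1, one_mul]
  · intro i hi
    simp only [Finset.sum_apply, Pi.smul_apply, Function.comp, smul_eq_mul]
    have : ∀ σ ∈ G, (1 : ℝ) / G.card * z (σ i) = (1 : ℝ) / G.card * z i := by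
      intro σ hσ
      rw [hG, Finset.mem_filter] at hσ
      rw [hσ.2 i hi]
    rw [Finset.sum_congr rfl this, ← Finset.sum_mul, hsum1, one_mul]
  · intro i hi l hl
    simp only [Finset.sum_apply, Pi.smul_apply, Function.comp, smul_eq_mul]
    apply Finset.sum_equiv (Equiv.mulRight (Equiv.swap i l))
    · intro σ
      simp only [hG, Finset.mem_filter, Finset.mem_univ, true_and, Equiv.coe_mulRight,
        Equiv.Perm.coe_mul, Function.comp]
      have key : ∀ j ∈ Z, Equiv.swap i l j = j := by
        intro j hj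
        apply Equiv.swap_apply_of_ne_of_ne
        · rintro rfl; exact hi hj
        · rintro rfl; exact hl hj
      constructor
      · intro h j hj
        rw [key j hj]; exact h j hj
      · intro h j hj
        have := h j hj
        rwa [key j hj] at this
    · intro σ _
      simp only [Equiv.coe_mulRight, Equiv.Perm.coe_mul, Function.comp, Equiv.swap_apply_right]

theorem dot_dev (h x : Fin (m + 1) → ℝ) :
    ∑ i, h i * dev x i = h ⬝ᵥ x - sm h * (sm x / (m + 1)) := by
  simp only [dev, mul_sub, Finset.sum_sub_distrib, dotProduct, sm, Finset.sum_mul]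

theorem between_lit {K : Set (Fin (m + 1) → ℝ)} (hK : Sym K) {w0 : Fin (m + 1) → ℝ}
    (hw0 : w0 ∈ K) {a b : ℝ} (hval : ∀ i, dev w0 i = a ∨ dev w0 i = b) (hlow : ∃ i, dev w0 i = a)
    {x : Fin (m + 1) → ℝ} (hxa : ∀ i, a < dev x i) (hxb : ∀ i, dev x i < b)
    (hne : sm x ≠ sm w0) {h : Fin (m + 1) → ℝ} (hh : h ≠ 0) (hn : IsN K x h) :
    0 < sm h * (sm x - sm w0) := by
  classical
  have hab : a < b := (hxa 0).trans (hxb 0)
  obtain ⟨σ, -, hσ⟩ := Finset.exists_max_image Finset.univ
    (fun σ : Equiv.Perm (Fin (m + 1)) => h ⬝ᵥ (w0 ∘ σ)) ⟨1, Finset.mem_univ _⟩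
  set y := w0 ∘ σ with hy
  have hyK : y ∈ K := hK.perm σ w0 hw0
  have hsy : sm y = sm w0 := sm_comp _ _
  have hdevy : ∀ i, dev y i = dev w0 (σ i) := by
    intro i; rw [dev, dev, hsy]; rfl
  have hord : ∀ i l, y i < y l → h i ≤ h l := by
    intro i l hil
    apply order_of_swap _ hil
    have := hσ (σ * Equiv.swap i l) (Finset.mem_univ _)
    exact this
  have hlowne : (Finset.univ.filter (fun i => dev y i = a)).Nonempty := by
    obtain ⟨i0, hi0⟩ := hlow
    exact ⟨σ.symm i0, by simp [hdevy, hi0]⟩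
  obtain ⟨i1, hi1, hmax⟩ := Finset.exists_max_image _ h hlowne
  rw [Finset.mem_filter] at hi1
  set θ := h i1 with hθ
  have hyval : ∀ i, dev y i = a ∨ dev y i = b := fun i => by rw [hdevy]; exact hval _
  have hterm : ∀ i, 0 ≤ (h i - θ) * (dev y i - dev x i) := by
    intro i
    rcases hyval i with hi | hi
    · have h1 : h i ≤ θ := hmax i (by simp [hi])
      rw [hi]
      exact mul_nonneg_of_nonpos_of_nonpos (by linarith) (by linarith [hxa i])
    · have h1 : θ ≤ h i := by
        apply hord
        have h2 : dev y i1 < dev y i := by rw [hi1.2, hi]; exact hab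
        unfold dev at h2
        linarith
      rw [hi]
      exact mul_nonneg (by linarith) (by linarith [hxb i])
  have hsum : ∑ i, (h i - θ) * (dev y i - dev x i) =
      (h ⬝ᵥ y - h ⬝ᵥ x) - sm h * ((sm y - sm x) / (m + 1)) := by
    have h1 : ∀ i, (h i - θ) * (dev y i - dev x i) =
        (h i * dev y i - h i * dev x i) - θ * (dev y i - dev x i) := by intro i; ring
    rw [Finset.sum_congr rfl (fun i _ => h1 i), Finset.sum_sub_distrib, Finset.sum_sub_distrib,
      dot_dev, dot_dev, ← Finset.mul_sum, Finset.sum_sub_distrib, sum_dev, sum_dev]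
    ring
  have hge : 0 ≤ ∑ i, (h i - θ) * (dev y i - dev x i) := Finset.sum_nonneg (fun i _ => hterm i)
  have hyx : h ⬝ᵥ y ≤ h ⬝ᵥ x := hn y hyK
  have hm : (0 : ℝ) < (m : ℝ) + 1 := by positivity
  have hle : ∑ i, (h i - θ) * (dev y i - dev x i) ≤ sm h * (sm x - sm w0) / (m + 1) := by
    rw [hsum, hsy]
    have : sm h * ((sm w0 - sm x) / (m + 1)) = - (sm h * (sm x - sm w0) / (m + 1)) := by ring
    rw [this]; linarith
  by_contra hcon
  push Not at hcon
  have h1 : sm h * (sm x - sm w0) / (m + 1) ≤ 0 := div_nonpos_of_nonpos_of_nonneg hcon hm.le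
  have h2 : ∑ i, (h i - θ) * (dev y i - dev x i) = 0 := le_antisymm (hle.trans h1) hge
  have h3 := (Finset.sum_eq_zero_iff_of_nonneg (fun i _ => hterm i)).mp h2
  have h4 : ∀ i, h i = θ := by
    intro i
    have h5 := h3 i (Finset.mem_univ _)
    rcases mul_eq_zero.mp h5 with h6 | h6
    · linarith
    · exfalso
      rcases hyval i with hi | hi
      · rw [hi] at h6; linarith [hxa i]
      · rw [hi] at h6; linarith [hxb i]
  have h5 : sm h = (m + 1) * θ := by
    have : h = fun _ => θ := funext h4
    rw [this, sm_const]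
  rw [h2] at hle
  have h6 : 0 ≤ sm h * (sm x - sm w0) := by
    by_contra hc
    push Not at hc
    have := div_neg_of_neg_of_pos hc hm
    linarith
  have h7 : sm h * (sm x - sm w0) = 0 := le_antisymm hcon h6
  rcases mul_eq_zero.mp h7 with h8 | h8
  · have h9 : θ = 0 := by
      rw [h5] at h8
      rcases mul_eq_zero.mp h8 with h | h
      · linarith
      · exact h
    apply hh
    funext i
    rw [h4 i, h9]; rfl
  · exact hne (by linarith)

theorem goodTop_unique {K : Set (Fin (m + 1) → ℝ)} (hK : Sym K) (k : ℕ)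
    {z : Fin (m + 1) → ℝ} (hz : z ∈ K) (hM' : ∀ y ∈ K, ee z ≤ ee y)
    (huniq : ∀ y ∈ K, ee y = ee z → sm y = sm z) {S' : Finset (Fin m)} (hS'c : S'.card = k)
    (hS' : ∀ l ∈ S', z l.succ = z 0) (hkm : k < m) (hpos : ee z < 0) (B : ℝ) :
    GoodTop K k B := by
  classical
  intro S hS x hx hSx hxmax η₁ σ₁ η₂ σ₂ hη₁ hη₂ hn₁ hn₂ h1 h2 h3 h4
  -- a planar normal with positive first component
  obtain ⟨η, σ, hη, hPN⟩ : ∃ η σ : ℝ, 0 < η ∧ PN K x η σ := by
    rcases hη₁.lt_or_eq with hη | hη
    · exact ⟨η₁, σ₁, hη, h1⟩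
    · rcases hη₂.lt_or_eq with hη' | hη'
      · exact ⟨η₂, σ₂, hη', h2⟩
      · exfalso
        have s1 : σ₁ < 0 := by
          rcases hn₁ with h | h
          · exact absurd hη.symm h
          · apply lt_of_le_of_ne _ h
            rw [← hη] at h3; linarith
        have s2 : 0 < σ₂ := by
          rcases hn₂ with h | h
          · exact absurd hη'.symm h
          · apply lt_of_le_of_ne _ (Ne.symm h)
            rw [← hη'] at h4; linarith
        rw [← hη] at h1
        rw [← hη'] at h2
        exact PN.not_both hK h1 h2 s1 s2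
  -- the two-level point
  obtain ⟨l0, hl0⟩ : ∃ l0 : Fin m, l0 ∉ S' := by
    by_contra hcon
    push Not at hcon
    have : S' = Finset.univ := Finset.eq_univ_iff_forall.mpr hcon
    rw [this] at hS'c
    simp at hS'c
    omega
  obtain ⟨w, hwK, hws, hwZ, hwZc⟩ := hK.twoLevel hz
    (insert 0 (S'.map ⟨Fin.succ, Fin.succ_injective m⟩))
  have hl0Z : l0.succ ∉ insert (0 : Fin (m + 1)) (S'.map ⟨Fin.succ, Fin.succ_injective m⟩) := by
    simp only [Finset.mem_insert, Finset.mem_map, Function.Embedding.coeFn_mk, not_or, not_exists,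
      not_and]
    refine ⟨Fin.succ_ne_zero _, ?_⟩
    intro l hl hcon
    rw [Fin.succ_inj] at hcon
    subst hcon; exact hl0 hl
  have hw0 : w 0 = z 0 := hwZ 0 (Finset.mem_insert_self _ _)
  have hwS : ∀ l ∈ S', w l.succ = z 0 := by
    intro l hl
    rw [hwZ l.succ, hS' l hl]
    apply Finset.mem_insert_of_mem
    simp only [Finset.mem_map, Function.Embedding.coeFn_mk]
    exact ⟨l, hl, rfl⟩
  set ζ := dev w l0.succ with hζ
  have hdw0 : ∀ i, w i = z 0 → dev w i = ee z := by
    intro i hi; simp only [dev, ee, hws, hi]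
  have hval : ∀ i, dev w i = ee z ∨ dev w i = ζ := by
    intro i
    by_cases hi : i ∈ insert (0 : Fin (m + 1)) (S'.map ⟨Fin.succ, Fin.succ_injective m⟩)
    · left
      rw [Finset.mem_insert] at hi
      rcases hi with rfl | hi
      · exact hdw0 0 hw0
      · simp only [Finset.mem_map, Function.Embedding.coeFn_mk] at hi
        obtain ⟨l, hl, rfl⟩ := hi
        exact hdw0 _ (hwS l hl)
    · right
      simp only [hζ, dev, hwZc i hi _ hl0Z]
  have hlow : ∃ i, dev w i = ee z := ⟨0, hdw0 0 hw0⟩
  -- value of ζ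
  have hζeq : ((m : ℝ) - k) * ζ = (k + 1) * (- ee z) := by
    have e1 := split_dev w S'
    have e2 : ∑ l ∈ S', dev w l.succ = k * ee z := by
      rw [Finset.sum_congr rfl (fun l hl => hdw0 l.succ (hwS l hl)), Finset.sum_const,
        nsmul_eq_mul, hS'c]
    have e3 : ∑ l ∈ S'ᶜ, dev w l.succ = (m - k) * ζ := by
      have : ∀ l ∈ S'ᶜ, dev w l.succ = ζ := by
        intro l hl
        rw [Finset.mem_compl] at hl
        have hlZ : l.succ ∉ insert (0 : Fin (m + 1))
            (S'.map ⟨Fin.succ, Fin.succ_injective m⟩) := by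
          simp only [Finset.mem_insert, Finset.mem_map, Function.Embedding.coeFn_mk, not_or,
            not_exists, not_and]
          refine ⟨Fin.succ_ne_zero _, ?_⟩
          intro l' hl' hcon
          rw [Fin.succ_inj] at hcon
          subst hcon; exact hl hl'
        simp only [hζ, dev, hwZc _ hlZ _ hl0Z]
      rw [Finset.sum_congr rfl this, Finset.sum_const, Finset.card_compl, Fintype.card_fin,
        nsmul_eq_mul, Nat.cast_sub (by simpa using S'.card_le_univ), hS'c]
    rw [e2, e3, hdw0 0 hw0] at e1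
    linarith
  have hkm' : (k : ℝ) < m := by exact_mod_cast hkm
  have hk0 : (0 : ℝ) ≤ k := by positivity
  have hζpos : 0 < ζ := by
    by_contra hcon
    push Not at hcon
    nlinarith [mul_nonneg (by linarith : (0 : ℝ) ≤ (m : ℝ) - k) (by linarith : 0 ≤ -ζ)]
  have htop := top_count hK (M' := - ee z) (by intro y hy; rw [neg_neg]; exact hM' y hy) hx hSx
  rw [hS] at htop
  have hexζ : ee x < ζ := by
    by_contra hcon
    push Not at hcon
    have : ((m : ℝ) + 1 - k) * ζ ≤ ((m : ℝ) + 1 - k) * ee x :=
      mul_le_mul_of_nonneg_left hcon (by linarith)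
    nlinarith
  have hdx : ∀ i, dev x i < ζ := by
    intro i
    have : dev x i ≤ ee x := by
      unfold dev ee; linarith [hxmax i]
    linarith
  -- the point with `ee = ζ`
  set w' := w ∘ Equiv.swap 0 l0.succ with hw'
  have hw'K : w' ∈ K := hK.perm _ w hwK
  have hew' : ee w' = ζ := ee_swap w l0.succ
  have hsw' : sm w' = sm z := by rw [hw', sm_comp, hws]
  have hPw := hPN w' hw'K
  rw [hew', hsw'] at hPw
  have hgap : 0 < η * (ζ - ee x) := mul_pos hη (by linarith)
  have hsne : sm x ≠ sm z := by
    intro h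
    rw [h] at hPw
    nlinarith
  have hlowx : ∀ u ∈ K, sm u ≠ sm z → ∀ i, ee z < dev u i := by
    intro u hu hsu i
    have g1 : ee z ≤ dev u i := by
      rw [← ee_swap]; exact hM' _ (hK.perm _ u hu)
    rcases g1.lt_or_eq with g2 | g2
    · exact g2
    · exfalso
      apply hsu
      have := huniq _ (hK.perm (Equiv.swap 0 i) u hu) (by rw [ee_swap, g2])
      rwa [sm_comp] at this
  have hlitx : ∀ h : Fin (m + 1) → ℝ, h ≠ 0 → IsN K x h → 0 < sm h * (sm x - sm z) := by
    intro h hh hn
    have := between_lit hK hwK hval hlow (hlowx x hx hsne) hdx (by rwa [hws]) hh hn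
    rwa [hws] at this
  rcases lt_or_gt_of_ne hsne with hlt | hgt
  · right
    constructor
    · intro u hu hmin h hh hn
      have hsu : sm u < sm z := lt_of_le_of_lt (hmin x hx) hlt
      have hux : sm u ≤ sm x := hmin x hx
      have hdu : ∀ i, dev u i < ζ := by
        intro i
        by_contra hcon
        push Not at hcon
        have e1 := hPN _ (hK.perm (Equiv.swap 0 i) u hu)
        rw [ee_swap, sm_comp] at e1
        have e2 : η * (ζ - ee x) ≤ σ * (sm x - sm z) := by linarith
        have e3 : σ < 0 := by nlinarith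
        have e4 : η * (dev u i - ee x) ≤ σ * (sm x - sm u) := by linarith
        have e5 : η * (ζ - ee x) ≤ η * (dev u i - ee x) :=
          mul_le_mul_of_nonneg_left (by linarith) hη.le
        nlinarith
      have := between_lit hK hwK hval hlow (hlowx u hu hsu.ne) hdu (by rw [hws]; exact hsu.ne)
        hh hn
      rw [hws] at this
      nlinarith
    · intro h hh hn
      have := hlitx h hh hn
      nlinarith
  · left
    constructor
    · intro u hu hmax h hh hn
      have hsu : sm z < sm u := lt_of_lt_of_le hgt (hmax x hx)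
      have hux : sm x ≤ sm u := hmax x hx
      have hdu : ∀ i, dev u i < ζ := by
        intro i
        by_contra hcon
        push Not at hcon
        have e1 := hPN _ (hK.perm (Equiv.swap 0 i) u hu)
        rw [ee_swap, sm_comp] at e1
        have e2 : η * (ζ - ee x) ≤ σ * (sm x - sm z) := by linarith
        have e3 : 0 < σ := by nlinarith
        have e4 : η * (dev u i - ee x) ≤ σ * (sm x - sm u) := by linarith
        have e5 : η * (ζ - ee x) ≤ η * (dev u i - ee x) :=
          mul_le_mul_of_nonneg_left (by linarith) hη.le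
        nlinarith
      have := between_lit hK hwK hval hlow (hlowx u hu hsu.ne') hdu (by rw [hws]; exact hsu.ne')
        hh hn
      rw [hws] at this
      nlinarith
    · intro h hh hn
      have := hlitx h hh hn
      nlinarith

end Pool.Agent.Hadwiger
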