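import Mathlib
import Pool.Agent.Hadwiger.PermCore2

set_option autoImplicit false

/-!
Existence of good slopes for every level `k`, and the reflection `K ↦ -K`.
-/

namespace Pool.Agent.Hadwiger

open Set Filter Topology

variable {m : ℕ}

/-- The reflected body `-K`. -/
def negB (K : Set (Fin (m + 1) → ℝ)) : Set (Fin (m + 1) → ℝ) := (fun x => -x) ⁻¹' K

theorem mem_negB {K : Set (Fin (m + 1) → ℝ)} {x : Fin (m + 1) → ℝ} : x ∈ negB K ↔ -x ∈ K :=
  Iff.rfl

theorem negB_negB (K : Set (Fin (m + 1) → ℝ)) : negB (negB K) = K := by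
  ext x; simp [negB]

theorem isN_negB {K : Set (Fin (m + 1) → ℝ)} {x h : Fin (m + 1) → ℝ} (hn : IsN K x h) :
    IsN (negB K) (-x) (-h) := by
  intro y hy
  have := hn (-y) hy
  rw [dotProduct_neg] at this
  rw [neg_dotProduct, neg_dotProduct, dotProduct_neg]
  linarith

theorem us_negB {K : Set (Fin (m + 1) → ℝ)} (h : US (negB K)) : LS K := by
  intro x hx hmin g hg hn
  have h1 := h (-x) (by rw [mem_negB, neg_neg]; exact hx)
    (by
      intro y hy
      have := hmin (-y) hy
      rw [sm_neg] at this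
      rw [sm_neg]; linarith) (-g) (neg_ne_zero.mpr hg) (isN_negB hn)
  rw [sm_neg] at h1; linarith

theorem ls_negB {K : Set (Fin (m + 1) → ℝ)} (h : LS (negB K)) : US K := by
  intro x hx hmax g hg hn
  have h1 := h (-x) (by rw [mem_negB, neg_neg]; exact hx)
    (by
      intro y hy
      have := hmax (-y) hy
      rw [sm_neg] at this
      rw [sm_neg]; linarith) (-g) (neg_ne_zero.mpr hg) (isN_negB hn)
  rw [sm_neg] at h1; linarith

theorem Sym.negB {K : Set (Fin (m + 1) → ℝ)} (hK : Sym K) : Sym (negB K) := hK.neg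

/-- `ee` is not identically zero on a body (when `m ≥ 1`). -/
theorem Sym.exists_ee_ne {K : Set (Fin (m + 1) → ℝ)} (hK : Sym K) (hm : 0 < m) :
    ∃ y ∈ K, ee y ≠ 0 := by
  by_contra hcon
  push Not at hcon
  have hne : (Pi.single 0 (1 : ℝ) - (fun _ => (1 : ℝ) / (m + 1)) : Fin (m + 1) → ℝ) ≠ 0 := by
    intro h
    have := congrFun h (Fin.succ ⟨0, hm⟩)
    simp only [Pi.sub_apply, Pi.single_apply, Pi.zero_apply] at this
    rw [if_neg (Fin.succ_ne_zero _)] at this
    have h2 : (0 : ℝ) < 1 / (m + 1) := by positivity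
    linarith
  apply not_const hK.int hne 0
  intro y hy
  rw [sub_dotProduct, const_dot, single_dotProduct, one_mul]
  have := hcon y hy
  unfold ee at this
  linarith [this, (by ring : (1 : ℝ) / (m + 1) * sm y = sm y / (m + 1))]

theorem Sym.ee_max_pos {K : Set (Fin (m + 1) → ℝ)} (hK : Sym K) (hm : 0 < m)
    {ys : Fin (m + 1) → ℝ} (hM : ∀ y ∈ K, ee y ≤ ee ys) : 0 < ee ys := by
  by_contra hcon
  push Not at hcon
  obtain ⟨y, hy, hne⟩ := hK.exists_ee_ne hm
  have h1 : ∀ i, dev y i ≤ 0 := fun i => (hK.dev_le hM hy i).trans hcon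
  have h2 := sum_dev y
  have h3 := (Finset.sum_eq_zero_iff_of_nonpos (fun i _ => h1 i)).mp h2 0 (Finset.mem_univ _)
  exact hne h3

theorem Sym.ee_min_neg {K : Set (Fin (m + 1) → ℝ)} (hK : Sym K) (hm : 0 < m)
    {z : Fin (m + 1) → ℝ} (hM : ∀ y ∈ K, ee z ≤ ee y) : ee z < 0 := by
  by_contra hcon
  push Not at hcon
  obtain ⟨y, hy, hne⟩ := hK.exists_ee_ne hm
  have h1 : ∀ i, 0 ≤ dev y i := by
    intro i
    have : ee z ≤ dev y i := by rw [← ee_swap]; exact hM _ (hK.perm _ y hy)
    linarith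
  have h2 := sum_dev y
  have h3 := (Finset.sum_eq_zero_iff_of_nonneg (fun i _ => h1 i)).mp h2 0 (Finset.mem_univ _)
  exact hne h3

theorem Sym.exists_extremes {K : Set (Fin (m + 1) → ℝ)} (hK : Sym K) :
    (∃ xp ∈ K, ∀ y ∈ K, sm xp ≤ sm y) ∧ (∃ xq ∈ K, ∀ y ∈ K, sm y ≤ sm xq) ∧
    (∃ ys ∈ K, ∀ y ∈ K, ee y ≤ ee ys) ∧ (∃ z ∈ K, ∀ y ∈ K, ee z ≤ ee y) := by
  have hne : K.Nonempty := hK.int.mono interior_subset
  refine ⟨?_, ?_, ?_, ?_⟩
  · exact hK.comp.exists_isMinOn hne sm_continuous.continuousOn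
  · exact hK.comp.exists_isMaxOn hne sm_continuous.continuousOn
  · exact hK.comp.exists_isMaxOn hne ee_continuous.continuousOn
  · exact hK.comp.exists_isMinOn hne ee_continuous.continuousOn

/-- Slope for a level where the minimum of `ee` is attained at a point whose bottom level
contains `0` and `k` further coordinates. -/
theorem slopeP {K : Set (Fin (m + 1) → ℝ)} (hK : Sym K) {k : ℕ} (hkm : k < m)
    {z : Fin (m + 1) → ℝ} (hz : z ∈ K) (hM' : ∀ y ∈ K, ee z ≤ ee y) {S' : Finset (Fin m)}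
    (hS'c : S'.card = k) (hS' : ∀ l ∈ S', z l.succ = z 0) :
    ∃ ρ : ℝ, GoodTop K k ρ ∧ GoodTop (negB K) (m - k) (-ρ) := by
  obtain ⟨⟨xp, hp, hp'⟩, ⟨xq, hq, hq'⟩, ⟨ys, hys, hM⟩, -⟩ := hK.exists_extremes
  have hm : 0 < m := by omega
  have hpos := hK.ee_max_pos hm hM
  have hneg := hK.ee_min_neg hm hM'
  have hD : 0 < sm xq - sm xp := by
    have h1 := hp' xq hq
    rcases h1.lt_or_eq with h | h
    · linarith
    · exfalso
      apply hK.sm_not_const (sm xp)
      intro y hy
      exact le_antisymm (by rw [h]; exact hq' y hy) (hp' y hy)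
  have hnp : -xq ∈ negB K := by rw [mem_negB, neg_neg]; exact hq
  have hnq : -xp ∈ negB K := by rw [mem_negB, neg_neg]; exact hp
  by_cases huniq : ∀ y ∈ K, ee y = ee z → sm y = sm z
  · refine ⟨(2 * (-ee z) + 1) / (sm xq - sm xp),
      goodTop_unique hK k hz hM' huniq hS'c hS' hkm hneg _, ?_⟩
    apply goodTop_large hK.negB (m - k) hnp hnq (M := - ee z)
    · intro y hy
      have := hq' (-y) hy
      rw [sm_neg] at this ⊢; linarith
    · intro y hy
      have := hp' (-y) hy
      rw [sm_neg] at this ⊢; linarith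
    · intro y hy
      have := hM' (-y) hy
      rw [ee_neg] at this; linarith
    · apply div_nonneg <;> linarith
    · rw [sm_neg, sm_neg]
      have : (2 * (-ee z) + 1) / (sm xq - sm xp) * (-sm xp - -sm xq) = 2 * (-ee z) + 1 := by
        have e : -sm xp - -sm xq = sm xq - sm xp := by ring
        rw [e, div_mul_cancel₀ _ hD.ne']
      rw [this]; linarith
  · push Not at huniq
    obtain ⟨y, hy, hey, hsy⟩ := huniq
    set B := ee ys / (2 * ((sm xq - sm xp) * (m + 1))) with hB
    have hBpos : 0 < B := by positivity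
    refine ⟨B, ?_, ?_⟩
    · apply goodTop_small hK k hys hp' hq' hM hz hM' hS'c hS' hBpos.le
      have : B * (sm xq - sm xp) * (m + 1) = ee ys / 2 := by
        rw [hB]
        have h1 : (m : ℝ) + 1 ≠ 0 := by positivity
        have h2 : sm xq - sm xp ≠ 0 := hD.ne'
        field_simp
      rw [this]; linarith
    · have hmax : ∀ u ∈ negB K, ee u ≤ - ee z := by
        intro u hu
        have := hM' (-u) hu
        rw [ee_neg] at this; linarith
      rcases lt_or_gt_of_ne hsy with hlt | hgt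
      · -- sm y < sm z : take y1 = -z, y2 = -y
        apply goodTop_flat (m - k) (y1 := -z) (y2 := -y) (by rw [mem_negB, neg_neg]; exact hz)
          (by rw [mem_negB, neg_neg]; exact hy) _ _ _ hBpos
        · intro u hu; rw [ee_neg]; exact hmax u hu
        · rw [ee_neg, ee_neg, hey]
        · rw [sm_neg, sm_neg]; linarith
      · apply goodTop_flat (m - k) (y1 := -y) (y2 := -z) (by rw [mem_negB, neg_neg]; exact hy)
          (by rw [mem_negB, neg_neg]; exact hz) _ _ _ hBpos
        · intro u hu; rw [ee_neg, hey]; exact hmax u hu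
        · rw [ee_neg, ee_neg, hey]
        · rw [sm_neg, sm_neg]; linarith

theorem exists_slope {K : Set (Fin (m + 1) → ℝ)} (hK : Sym K) {k : ℕ} (hk0 : 0 < k)
    (hkm : k < m) : ∃ ρ : ℝ, GoodTop K k ρ ∧ GoodTop (negB K) (m - k) (-ρ) := by
  obtain ⟨⟨xp, hp, hp'⟩, ⟨xq, hq, hq'⟩, ⟨ys, hys, hM⟩, ⟨z0, hz0, hM'⟩⟩ := hK.exists_extremes
  by_cases hN : ∃ x ∈ K, ee x = ee ys ∧ ∃ S : Finset (Fin m), S.card = k ∧
      ∀ l ∉ S, x l.succ = x 0
  · obtain ⟨x, hx, hex, S, hS, hSx⟩ := hN
    obtain ⟨ρ, h1, h2⟩ := slopeP hK.negB (k := m - k) (by omega) (z := -x)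
      (by rw [mem_negB, neg_neg]; exact hx)
      (by
        intro y hy
        have := hM (-y) hy
        rw [ee_neg] at this
        rw [ee_neg, hex]; linarith) (S' := Sᶜ)
      (by rw [Finset.card_compl, Fintype.card_fin, hS])
      (by
        intro l hl
        rw [Finset.mem_compl] at hl
        simp only [Pi.neg_apply, hSx l hl])
    rw [negB_negB] at h2
    have e : m - (m - k) = k := by omega
    rw [e] at h2
    exact ⟨-ρ, h2, by rw [neg_neg]; exact h1⟩
  · by_cases hP : ∃ x ∈ K, ee x = ee z0 ∧ ∃ S : Finset (Fin m), S.card = k ∧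
        ∀ l ∈ S, x l.succ = x 0
    · obtain ⟨x, hx, hex, S, hS, hSx⟩ := hP
      exact slopeP hK hkm hx (by rw [hex]; exact hM') hS hSx
    · refine ⟨0, goodTop_zero hK k hys hp' hq' hM hN, ?_⟩
      rw [neg_zero]
      apply goodTop_zero hK.negB (m - k) (ys := -z0) (xp := -xq) (xq := -xp)
      · rw [mem_negB, neg_neg]; exact hz0
      · intro y hy
        have := hq' (-y) hy
        rw [sm_neg] at this ⊢; linarith
      · intro y hy
        have := hp' (-y) hy
        rw [sm_neg] at this ⊢; linarith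
      · intro y hy
        have := hM' (-y) hy
        rw [ee_neg] at this ⊢; linarith
      · rintro ⟨x, hx, hex, S, hS, hSx⟩
        apply hP
        refine ⟨-x, hx, ?_, Sᶜ, ?_, ?_⟩
        · rw [ee_neg, hex, ee_neg, neg_neg]
        · rw [Finset.card_compl, Fintype.card_fin, hS]; omega
        · intro l hl
          rw [Finset.mem_compl] at hl
          simp only [Pi.neg_apply, hSx l hl]

end Pool.Agent.Hadwiger
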