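import Mathlib
import Pool.Agent.Hadwiger.PermSlope

set_option autoImplicit false

/-!
The limiting argument (along an ultrafilter) and the diagonal case.
-/

namespace Pool.Agent.Hadwiger

open Set Filter Topology

variable {m : ℕ}

theorem ultra_limit {X : Type*} [TopologicalSpace X] {s : Set X} (hs : IsCompact s)
    (𝒰 : Ultrafilter ℕ) (f : ℕ → X) (hf : ∀ j, f j ∈ s) : ∃ x ∈ s, Tendsto f 𝒰 (𝓝 x) := by
  have := hs.ultrafilter_le_nhds (𝒰.map f) (by
    rw [Filter.le_principal_iff]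
    exact Filter.mem_map.mpr (Filter.univ_mem' hf))
  obtain ⟨x, hx, h⟩ := this
  exact ⟨x, hx, h⟩

theorem dot_continuous_left (n : ℕ) :
    Continuous (fun p : (Fin n → ℝ) × (Fin n → ℝ) => p.1 ⬝ᵥ p.2) := by
  unfold dotProduct; fun_prop

/-- Limit data extracted from the failure of the perturbed directions `A i + ε • B i`. -/
structure LimitData {ι : Type} (K : Set (Fin (m + 1) → ℝ)) (A B : ι → (Fin (m + 1) → ℝ)) where
  U : Ultrafilter ℕ
  ε : ℕ → ℝ
  xs : ℕ → (Fin (m + 1) → ℝ)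
  hs : ℕ → ι → (Fin (m + 1) → ℝ)
  x : Fin (m + 1) → ℝ
  h : ι → (Fin (m + 1) → ℝ)
  εpos : ∀ j, 0 < ε j
  xsK : ∀ j, xs j ∈ K
  hsN : ∀ j i, IsN K (xs j) (hs j i)
  hsne : ∀ j i, hs j i ≠ 0
  hsdot : ∀ j i, 0 ≤ hs j i ⬝ᵥ (A i + ε j • B i)
  xK : x ∈ K
  xlim : Tendsto xs U (𝓝 x)
  hlim : ∀ i, Tendsto (fun j => hs j i) U (𝓝 (h i))
  hne : ∀ i, h i ≠ 0
  hN : ∀ i, IsN K x (h i)
  hA : ∀ i, 0 ≤ h i ⬝ᵥ A i
  hB : ∀ i, (∀ᶠ j in U, hs j i ⬝ᵥ A i ≤ 0) → 0 ≤ h i ⬝ᵥ B i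

theorem limitData {ι : Type} {K : Set (Fin (m + 1) → ℝ)} (hK : IsCompact K)
    (A B : ι → (Fin (m + 1) → ℝ))
    (hbad : ∀ ε : ℝ, 0 < ε → ∃ x ∈ K, ∀ i, ∃ h : Fin (m + 1) → ℝ, h ≠ 0 ∧ IsN K x h ∧
      0 ≤ h ⬝ᵥ (A i + ε • B i)) : Nonempty (LimitData K A B) := by
  have hbad' : ∀ j : ℕ, ∃ x ∈ K, ∀ i, ∃ h : Fin (m + 1) → ℝ, h ∈ Metric.sphere 0 1 ∧
      IsN K x h ∧ 0 ≤ h ⬝ᵥ (A i + ((1 : ℝ) / (j + 1)) • B i) := by
    intro j
    obtain ⟨x, hx, hi⟩ := hbad ((1 : ℝ) / (j + 1)) (by positivity)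
    refine ⟨x, hx, fun i => ?_⟩
    obtain ⟨h, hne, hn, hdot⟩ := hi i
    have hnorm : 0 < ‖h‖ := norm_pos_iff.mpr hne
    refine ⟨‖h‖⁻¹ • h, ?_, ?_, ?_⟩
    · simp only [mem_sphere_iff_norm, sub_zero, norm_smul, norm_inv, norm_norm]
      exact inv_mul_cancel₀ hnorm.ne'
    · intro y hy
      rw [smul_dotProduct, smul_dotProduct, smul_eq_mul, smul_eq_mul]
      exact mul_le_mul_of_nonneg_left (hn y hy) (by positivity)
    · rw [smul_dotProduct, smul_eq_mul]
      exact mul_nonneg (by positivity) hdot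
  choose xs hxs hs hhs1 hhs2 hhs3 using hbad'
  set U : Ultrafilter ℕ := Filter.hyperfilter ℕ with hU
  obtain ⟨x, hx, hxlim⟩ := ultra_limit hK U xs hxs
  have hlim : ∀ i, ∃ h ∈ Metric.sphere (0 : Fin (m + 1) → ℝ) 1,
      Tendsto (fun j => hs j i) U (𝓝 h) :=
    fun i => ultra_limit (isCompact_sphere _ _) U (fun j => hs j i) (fun j => hhs1 j i)
  choose h hh1 hh2 using hlim
  have hUle : (U : Filter ℕ) ≤ atTop := by
    rw [← Nat.cofinite_eq_atTop]; exact Filter.hyperfilter_le_cofinite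
  have hεlim : Tendsto (fun j : ℕ => (1 : ℝ) / (j + 1)) U (𝓝 0) :=
    tendsto_one_div_add_atTop_nhds_zero_nat.mono_left hUle
  have hdotlim : ∀ i (g : ℕ → (Fin (m + 1) → ℝ)) (g0 : Fin (m + 1) → ℝ),
      Tendsto g U (𝓝 g0) → Tendsto (fun j => hs j i ⬝ᵥ g j) U (𝓝 (h i ⬝ᵥ g0)) := by
    intro i g g0 hg
    exact ((dot_continuous_left (m + 1)).tendsto (h i, g0)).comp ((hh2 i).prodMk_nhds hg)
  have hsphere_ne : ∀ v ∈ Metric.sphere (0 : Fin (m + 1) → ℝ) 1, v ≠ 0 := by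
    intro v hv h0
    rw [h0] at hv
    simp at hv
  refine ⟨⟨U, fun j => (1 : ℝ) / (j + 1), xs, hs, x, h, ?_, hxs, hhs2, ?_, hhs3, hx, hxlim, hh2,
    ?_, ?_, ?_, ?_⟩⟩
  · intro j; positivity
  · intro j i; exact hsphere_ne _ (hhs1 j i)
  · intro i; exact hsphere_ne _ (hh1 i)
  · intro i y hy
    have h1 := hdotlim i (fun _ => y) y tendsto_const_nhds
    have h2 := hdotlim i xs x hxlim
    exact le_of_tendsto_of_tendsto' h1 h2 (fun j => hhs2 j i y hy)
  · intro i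
    have h1 : Tendsto (fun j : ℕ => A i + ((1 : ℝ) / (j + 1)) • B i) U (𝓝 (A i)) := by
      have h3 : Tendsto (fun j : ℕ => A i + ((1 : ℝ) / (j + 1)) • B i) U
          (𝓝 (A i + (0 : ℝ) • B i)) := (hεlim.smul_const _).const_add _
      simpa using h3
    exact ge_of_tendsto' (hdotlim i _ _ h1) (fun j => hhs3 j i)
  · intro i hev
    have h1 := hdotlim i (fun _ => B i) (B i) tendsto_const_nhds
    apply ge_of_tendsto h1
    filter_upwards [hev] with j hj
    have h2 := hhs3 j i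
    rw [dotProduct_add, dotProduct_smul, smul_eq_mul] at h2
    have h3 : (0 : ℝ) < 1 / (j + 1) := by positivity
    have h4 : 0 ≤ (1 : ℝ) / (j + 1) * (hs j i ⬝ᵥ B i) := by linarith
    exact (mul_nonneg_iff_of_pos_left h3).mp h4

/-! ### Points on the diagonal -/

theorem shift_dot_sum (h y : Fin (m + 1) → ℝ) :
    ∑ k : Fin (m + 1), h ⬝ᵥ (y ∘ Equiv.addRight k) = sm h * sm y := by
  simp only [dotProduct, Function.comp, Equiv.coe_addRight]
  rw [Finset.sum_comm]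
  have : ∀ i, ∑ k, h i * y (i + k) = h i * sm y := by
    intro i
    rw [← Finset.mul_sum]
    congr 1
    have := Equiv.sum_comp (Equiv.addLeft i) y
    simpa [sm] using this
  rw [Finset.sum_congr rfl (fun i _ => this i), ← Finset.sum_mul]
  rfl

/-- At a diagonal point, a normal with a point of `K` in the same slice: all permutations of this
point lie in the supporting hyperplane. -/
theorem diag_eq {K : Set (Fin (m + 1) → ℝ)} (hK : Sym K) {c : ℝ} {h : Fin (m + 1) → ℝ}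
    (hn : IsN K (fun _ => c) h) {y : Fin (m + 1) → ℝ} (hy : y ∈ K)
    (hs : sm h * sm y = (m + 1) * (c * sm h)) : h ⬝ᵥ y = c * sm h := by
  have h1 : ∀ k : Fin (m + 1), 0 ≤ c * sm h - h ⬝ᵥ (y ∘ Equiv.addRight k) := by
    intro k
    have := hn _ (hK.perm (Equiv.addRight k) y hy)
    rw [dot_const] at this
    linarith
  have h2 : ∑ k : Fin (m + 1), (c * sm h - h ⬝ᵥ (y ∘ Equiv.addRight k)) = 0 := by
    rw [Finset.sum_sub_distrib, shift_dot_sum, hs]
    simp
  have h3 := (Finset.sum_eq_zero_iff_of_nonneg (fun k _ => h1 k)).mp h2 0 (Finset.mem_univ _)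
  have h4 : y ∘ Equiv.addRight (0 : Fin (m + 1)) = y := by
    ext i; simp
  rw [h4] at h3
  linarith

theorem diag_sm_ne {K : Set (Fin (m + 1) → ℝ)} (hK : Sym K) {c : ℝ} {h : Fin (m + 1) → ℝ}
    (hh : h ≠ 0) (hn : IsN K (fun _ => c) h) : sm h ≠ 0 := by
  intro h0
  apply not_const hK.int hh 0
  intro y hy
  have := diag_eq hK hn hy (by rw [h0]; ring)
  rw [this, h0, mul_zero]

theorem IsN.nonneg_comb {K : Set (Fin (m + 1) → ℝ)} {x h g : Fin (m + 1) → ℝ} (hh : IsN K x h)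
    (hg : IsN K x g) {a b : ℝ} (ha : 0 ≤ a) (hb : 0 ≤ b) : IsN K x (a • h + b • g) := by
  intro y hy
  simp only [add_dotProduct, smul_dotProduct, smul_eq_mul]
  have h1 := mul_le_mul_of_nonneg_left (hh y hy) ha
  have h2 := mul_le_mul_of_nonneg_left (hg y hy) hb
  linarith

theorem diag_not_both {K : Set (Fin (m + 1) → ℝ)} (hK : Sym K) {c : ℝ} {h g : Fin (m + 1) → ℝ}
    (hh : IsN K (fun _ => c) h) (hg : IsN K (fun _ => c) g) (hpos : 0 < sm h)
    (hneg : sm g < 0) : False := by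
  have h1 := hh.nonneg_comb hg (a := - sm g) (b := sm h) (by linarith) hpos.le
  have h2 : sm ((- sm g) • h + (sm h) • g) = 0 := by
    rw [sm_add, sm_smul, sm_smul]; ring
  by_cases h3 : (- sm g) • h + (sm h) • g = 0
  · have h4 : h ≠ 0 := by
      rintro rfl
      simp [sm] at hpos
    apply not_const hK.int h4 (h ⬝ᵥ (fun _ => c))
    intro y hy
    apply le_antisymm (hh y hy)
    have h5 := hg y hy
    have h6 : ∀ w, (- sm g) * (h ⬝ᵥ w) + sm h * (g ⬝ᵥ w) = 0 := by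
      intro w
      have := congrArg (fun u => u ⬝ᵥ w) h3
      simpa only [add_dotProduct, smul_dotProduct, smul_eq_mul, zero_dotProduct] using this
    have h7 := h6 y
    have h8 := h6 (fun _ => c)
    have h9 : sm h * (g ⬝ᵥ y) ≤ sm h * (g ⬝ᵥ (fun _ => c)) :=
      mul_le_mul_of_nonneg_left h5 hpos.le
    have h10 : (- sm g) * (h ⬝ᵥ (fun _ => c)) ≤ (- sm g) * (h ⬝ᵥ y) := by linarith
    exact le_of_mul_le_mul_left h10 (by linarith)
  · exact diag_sm_ne hK h3 h1 h2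

theorem exists_perm_two {n : ℕ} {i l a b : Fin n} (hil : i ≠ l) (hab : a ≠ b) :
    ∃ σ : Equiv.Perm (Fin n), σ i = a ∧ σ l = b := by
  refine ⟨Equiv.swap (Equiv.swap i a l) b * Equiv.swap i a, ?_, ?_⟩
  · rw [Equiv.Perm.mul_apply, Equiv.swap_apply_left]
    apply Equiv.swap_apply_of_ne_of_ne
    · intro h
      have h1 : Equiv.swap i a i = Equiv.swap i a l := by rw [Equiv.swap_apply_left]; exact h
      exact hil ((Equiv.swap i a).injective h1)
    · exact hab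
  · rw [Equiv.Perm.mul_apply, Equiv.swap_apply_left]

/-- If a slice of `K` contains a non-constant point, every normal at the diagonal point of the
slice which is tight on the slice is constant. -/
theorem diag_normal_const {K : Set (Fin (m + 1) → ℝ)} (hK : Sym K) {c : ℝ}
    {h : Fin (m + 1) → ℝ} (hn : IsN K (fun _ => c) h) {y : Fin (m + 1) → ℝ} (hy : y ∈ K)
    (hsy : sm y = (m + 1) * c) {a b : Fin (m + 1)} (hab : y a ≠ y b) :
    ∀ i l, h i = h l := by
  intro i l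
  by_cases hil : i = l
  · rw [hil]
  have hab' : a ≠ b := by rintro rfl; exact hab rfl
  obtain ⟨σ, hσ1, hσ2⟩ := exists_perm_two hil hab'
  have key : ∀ τ : Equiv.Perm (Fin (m + 1)), h ⬝ᵥ (y ∘ τ) = c * sm h := by
    intro τ
    apply diag_eq hK hn (hK.perm τ y hy)
    rw [sm_comp, hsy]; ring
  have k1 := key σ
  have k2 := key (σ * Equiv.swap i l)
  have k3 : y ∘ ⇑(σ * Equiv.swap i l) = (y ∘ σ) ∘ Equiv.swap i l := rfl
  rw [k3] at k2
  have hv1 : (y ∘ σ) i = y a := by simp [hσ1]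
  have hv2 : (y ∘ σ) l = y b := by simp [hσ2]
  -- use order_of_swap twice
  rcases lt_or_gt_of_ne hab with hlt | hgt
  · have o1 : h i ≤ h l := order_of_swap (h := h) (y := y ∘ σ) (by rw [k1, k2])
      (by rw [hv1, hv2]; exact hlt)
    have o2 : h l ≤ h i := by
      apply order_of_swap (h := h) (y := (y ∘ σ) ∘ Equiv.swap i l)
      · have : ((y ∘ σ) ∘ Equiv.swap i l) ∘ Equiv.swap l i = y ∘ σ := by
          ext j; simp [Equiv.swap_comm l i]
        rw [this, k1, k2]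
      · simp only [Function.comp, Equiv.swap_apply_left, Equiv.swap_apply_right, hσ1, hσ2]
        exact hlt
    exact le_antisymm o1 o2
  · have o1 : h l ≤ h i := by
      apply order_of_swap (h := h) (y := y ∘ σ)
      · rw [Equiv.swap_comm, k1, k2]
      · rw [hv1, hv2]; exact hgt
    have o2 : h i ≤ h l := by
      apply order_of_swap (h := h) (y := (y ∘ σ) ∘ Equiv.swap i l)
      · have : ((y ∘ σ) ∘ Equiv.swap i l) ∘ Equiv.swap i l = y ∘ σ := by
          ext j; simp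
        rw [this, k1, k2]
      · simp only [Function.comp, Equiv.swap_apply_left, Equiv.swap_apply_right, hσ1, hσ2]
        exact hgt
    exact le_antisymm o2 o1

/-- Sign of a constant normal. -/
theorem const_normal_neg {K : Set (Fin (m + 1) → ℝ)} {x : Fin (m + 1) → ℝ} {c : ℝ}
    (hn : IsN K x (fun _ => c)) (hc : c < 0) : ∀ y ∈ K, sm x ≤ sm y := by
  intro y hy
  have := hn y hy
  rw [const_dot, const_dot] at this
  nlinarith

theorem const_normal_pos {K : Set (Fin (m + 1) → ℝ)} {x : Fin (m + 1) → ℝ} {c : ℝ}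
    (hn : IsN K x (fun _ => c)) (hc : 0 < c) : ∀ y ∈ K, sm y ≤ sm x := by
  intro y hy
  have := hn y hy
  rw [const_dot, const_dot] at this
  nlinarith

theorem diag_top {K : Set (Fin (m + 1) → ℝ)} (hK : Sym K) {c : ℝ}
    {h : Fin (m + 1) → ℝ} (hn : IsN K (fun _ => c) h) (hpos : 0 < sm h) :
    ∀ y ∈ K, sm y ≤ (m + 1) * c := by
  intro y hy
  have h1 := hn _ (hK.diag hy)
  rw [dot_const, dot_const] at h1
  have h2 : sm y / (m + 1) ≤ c := by nlinarith
  have hm : (0 : ℝ) < (m : ℝ) + 1 := by positivity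
  rw [div_le_iff₀ hm] at h2
  linarith

theorem diag_bot {K : Set (Fin (m + 1) → ℝ)} (hK : Sym K) {c : ℝ}
    {h : Fin (m + 1) → ℝ} (hn : IsN K (fun _ => c) h) (hneg : sm h < 0) :
    ∀ y ∈ K, (m + 1) * c ≤ sm y := by
  intro y hy
  have h1 := hn _ (hK.diag hy)
  rw [dot_const, dot_const] at h1
  have h2 : c ≤ sm y / (m + 1) := by nlinarith
  have hm : (0 : ℝ) < (m : ℝ) + 1 := by positivity
  rw [le_div_iff₀ hm] at h2
  linarith

end Pool.Agent.Hadwiger
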