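import Mathlib
import Pool.Agent.Hadwiger.PermLimit

set_option autoImplicit false

/-!
Every permutation invariant convex body in `ℝ^{m+1}` is illuminated by `2^{m+1}` directions.
-/

namespace Pool.Agent.Hadwiger

open Set Filter Topology

variable {m : ℕ}

/-- `m e_0 - ∑ e_l`. -/
def a0 (m : ℕ) : Fin (m + 1) → ℝ := Fin.cons (m : ℝ) (fun _ => -1)

/-- `∑_{i ∈ S, l ∉ S} (e_i - e_l)`. -/
def aS (S : Finset (Fin m)) : Fin (m + 1) → ℝ :=
  Fin.cons 0 (fun i => if i ∈ S then ((Sᶜ).card : ℝ) else -(S.card : ℝ))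

theorem dot_a0 (h : Fin (m + 1) → ℝ) : h ⬝ᵥ a0 m = ∑ l : Fin m, (h 0 - h l.succ) := by
  unfold dotProduct a0
  rw [Fin.sum_univ_succ]
  simp only [Fin.cons_zero, Fin.cons_succ, Finset.sum_sub_distrib, Finset.sum_const,
    Finset.card_univ, Fintype.card_fin, nsmul_eq_mul, mul_neg, mul_one, Finset.sum_neg_distrib]
  ring

theorem dot_aS (h : Fin (m + 1) → ℝ) (S : Finset (Fin m)) :
    h ⬝ᵥ aS S = ∑ i ∈ S, ∑ l ∈ Sᶜ, (h i.succ - h l.succ) := by
  unfold dotProduct aS
  rw [Fin.sum_univ_succ]
  simp only [Fin.cons_zero, Fin.cons_succ, mul_zero, zero_add]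
  rw [← Finset.sum_add_sum_compl S]
  have h1 : ∑ i ∈ S, h i.succ * (if i ∈ S then ((Sᶜ).card : ℝ) else -(S.card : ℝ)) =
      ∑ i ∈ S, h i.succ * ((Sᶜ).card : ℝ) := by
    apply Finset.sum_congr rfl
    intro i hi; rw [if_pos hi]
  have h2 : ∑ i ∈ Sᶜ, h i.succ * (if i ∈ S then ((Sᶜ).card : ℝ) else -(S.card : ℝ)) =
      ∑ i ∈ Sᶜ, h i.succ * (-(S.card : ℝ)) := by
    apply Finset.sum_congr rfl
    intro i hi
    rw [Finset.mem_compl] at hi
    rw [if_neg hi]
  rw [h1, h2]
  simp only [Finset.sum_sub_distrib, Finset.sum_const, nsmul_eq_mul]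
  rw [← Finset.sum_mul, ← Finset.sum_mul, ← Finset.mul_sum]
  ring

theorem sm_a0 : sm (a0 m) = 0 := by
  have := dot_a0 (m := m) (fun _ => 1)
  rw [const_dot] at this
  simpa using this

open Classical in
noncomputable def dirA (K : Set (Fin (m + 1) → ℝ)) (i : Finset (Fin m) × Bool) :
    Fin (m + 1) → ℝ :=
  if i.2 = true ∧ i.1 = ∅ ∧ US K then fun _ => -1
  else if i.2 = false ∧ i.1 = Finset.univ ∧ LS K then fun _ => 1
  else if i.1 = ∅ then a0 m
  else if i.1 = Finset.univ then -a0 m
  else aS i.1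

open Classical in
noncomputable def dirB (K : Set (Fin (m + 1) → ℝ)) (ρ : ℕ → ℝ) (i : Finset (Fin m) × Bool) :
    Fin (m + 1) → ℝ :=
  if i.2 = true ∧ i.1 = ∅ ∧ US K then 0
  else if i.2 = false ∧ i.1 = Finset.univ ∧ LS K then 0
  else (if i.1 = ∅ ∨ i.1 = Finset.univ then 0 else (((m : ℝ) + 1) * ρ i.1.card) • a0 m) +
    (if i.2 = true then fun _ => -(m : ℝ) else fun _ => (m : ℝ))

theorem dirA_US {K : Set (Fin (m + 1) → ℝ)} (h : US K) : dirA K (∅, true) = fun _ => -1 := by
  simp [dirA, h]

theorem dirA_LS {K : Set (Fin (m + 1) → ℝ)} (h : LS K) :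
    dirA K (Finset.univ, false) = fun _ => 1 := by
  simp [dirA, h]

theorem dirB_US {K : Set (Fin (m + 1) → ℝ)} (ρ : ℕ → ℝ) (h : US K) :
    dirB K ρ (∅, true) = 0 := by
  simp [dirB, h]

theorem dirB_LS {K : Set (Fin (m + 1) → ℝ)} (ρ : ℕ → ℝ) (h : LS K) :
    dirB K ρ (Finset.univ, false) = 0 := by
  simp [dirB, h]

theorem univ_ne_empty (hm : 0 < m) : (Finset.univ : Finset (Fin m)) ≠ ∅ := by
  intro h
  have : (⟨0, hm⟩ : Fin m) ∈ (∅ : Finset (Fin m)) := by rw [← h]; exact Finset.mem_univ _
  simp at this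

theorem dirA_mid {K : Set (Fin (m + 1) → ℝ)} {S : Finset (Fin m)} (b : Bool) (h1 : S ≠ ∅)
    (h2 : S ≠ Finset.univ) : dirA K (S, b) = aS S := by
  simp [dirA, h1, h2]

theorem dirB_mid_true {K : Set (Fin (m + 1) → ℝ)} (ρ : ℕ → ℝ) {S : Finset (Fin m)} (h1 : S ≠ ∅)
    (h2 : S ≠ Finset.univ) :
    dirB K ρ (S, true) = (((m : ℝ) + 1) * ρ S.card) • a0 m + (fun _ => -(m : ℝ)) := by
  simp [dirB, h1, h2]

theorem dirB_mid_false {K : Set (Fin (m + 1) → ℝ)} (ρ : ℕ → ℝ) {S : Finset (Fin m)} (h1 : S ≠ ∅)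
    (h2 : S ≠ Finset.univ) :
    dirB K ρ (S, false) = (((m : ℝ) + 1) * ρ S.card) • a0 m + (fun _ => (m : ℝ)) := by
  simp [dirB, h1, h2]

theorem dirA_univ_true {K : Set (Fin (m + 1) → ℝ)} (hm : 0 < m) :
    dirA K (Finset.univ, true) = -a0 m := by
  simp [dirA, univ_ne_empty hm]

theorem dirB_univ_true {K : Set (Fin (m + 1) → ℝ)} (ρ : ℕ → ℝ) (hm : 0 < m) :
    dirB K ρ (Finset.univ, true) = fun _ => -(m : ℝ) := by
  simp [dirB, univ_ne_empty hm]

theorem dirA_univ_false {K : Set (Fin (m + 1) → ℝ)} (hm : 0 < m) (h : ¬ LS K) :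
    dirA K (Finset.univ, false) = -a0 m := by
  simp [dirA, univ_ne_empty hm, h]

theorem dirB_univ_false {K : Set (Fin (m + 1) → ℝ)} (ρ : ℕ → ℝ) (h : ¬ LS K) :
    dirB K ρ (Finset.univ, false) = fun _ => (m : ℝ) := by
  simp [dirB, h]

theorem dirA_empty_false {K : Set (Fin (m + 1) → ℝ)} (hm : 0 < m) :
    dirA K (∅, false) = a0 m := by
  simp [dirA, (univ_ne_empty hm).symm]

theorem dirB_empty_false {K : Set (Fin (m + 1) → ℝ)} (ρ : ℕ → ℝ) (hm : 0 < m) :
    dirB K ρ (∅, false) = fun _ => (m : ℝ) := by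
  simp [dirB, (univ_ne_empty hm).symm]

theorem dirA_empty_true {K : Set (Fin (m + 1) → ℝ)} (h : ¬ US K) :
    dirA K (∅, true) = a0 m := by
  simp [dirA, h]

theorem dirB_empty_true {K : Set (Fin (m + 1) → ℝ)} (ρ : ℕ → ℝ) (h : ¬ US K) :
    dirB K ρ (∅, true) = fun _ => -(m : ℝ) := by
  simp [dirB, h]

/-- Points on the diagonal are lit by the family. -/
theorem diag_case {K : Set (Fin (m + 1) → ℝ)} (hK : Sym K) (ρ : ℕ → ℝ) {x : Fin (m + 1) → ℝ}
    (hx : x ∈ K) (hxc : ∀ i : Fin m, x i.succ = x 0) {ε : ℝ} (hε : 0 < ε)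
    (hbad : ∀ i, ∃ h : Fin (m + 1) → ℝ, h ≠ 0 ∧ IsN K x h ∧
      0 ≤ h ⬝ᵥ (dirA K i + ε • dirB K ρ i)) : False := by
  have hxc' : x = fun _ => x 0 := by
    funext i
    refine Fin.cases rfl (fun j => hxc j) i
  set c := x 0 with hc
  rw [hxc'] at hbad hx
  obtain ⟨h0, hh0, hn0, -⟩ := hbad (∅, true)
  have hsx : sm (fun _ : Fin (m + 1) => c) = (m + 1) * c := sm_const c
  rcases lt_or_gt_of_ne (diag_sm_ne hK hh0 hn0) with hneg | hpos
  · -- all normals at x have negative sum
    have hall : ∀ g : Fin (m + 1) → ℝ, g ≠ 0 → IsN K (fun _ => c) g → sm g < 0 := by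
      intro g hg hng
      rcases lt_or_gt_of_ne (diag_sm_ne hK hg hng) with h | h
      · exact h
      · exact (diag_not_both hK hng hn0 h hneg).elim
    have hbot := diag_bot hK hn0 hneg
    by_cases hLS : LS K
    · obtain ⟨g, hg, hng, hdot⟩ := hbad (Finset.univ, false)
      rw [dirA_LS hLS, dirB_LS ρ hLS, smul_zero, add_zero, dot_const, one_mul] at hdot
      linarith [hall g hg hng]
    · have hLS' := hLS
      unfold LS at hLS'
      push Not at hLS'
      obtain ⟨x', hx', hmin, g, hg, hng, hsg⟩ := hLS'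
      have hsx' : sm x' = (m + 1) * c := by
        apply le_antisymm
        · have := hmin _ hx; rwa [hsx] at this
        · exact hbot x' hx'
      obtain ⟨a, b, hab⟩ : ∃ a b, x' a ≠ x' b := by
        by_contra hcon
        push Not at hcon
        have hx'c : x' = fun _ => c := by
          have h1 : x' = fun _ => x' 0 := funext (fun i => hcon i 0)
          have h2 : sm x' = (m + 1) * x' 0 := by
            conv_lhs => rw [h1]
            rw [sm_const]
          have h3 : x' 0 = c := by
            rw [hsx'] at h2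
            have hm : (m : ℝ) + 1 ≠ 0 := by positivity
            exact (mul_left_cancel₀ hm h2).symm
          rw [h1, h3]
        rw [hx'c] at hng
        linarith [hall g hg hng]
      have hm : 0 < m := by
        rcases Nat.eq_zero_or_pos m with h | h
        · exfalso
          subst h
          apply hab
          congr 1
          exact Subsingleton.elim (α := Fin 1) _ _
        · exact h
      obtain ⟨g', hg', hng', hdot⟩ := hbad (∅, false)
      rw [dirA_empty_false hm, dirB_empty_false ρ hm] at hdot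
      have hconst := diag_normal_const hK hng' hx' hsx' hab
      have hg'c : g' = fun _ => g' 0 := funext (fun i => hconst i 0)
      have hneg' := hall g' hg' hng'
      rw [dotProduct_add, dotProduct_smul, dot_const, smul_eq_mul, hg'c, const_dot, sm_a0,
        mul_zero, zero_add, ← hg'c] at hdot
      have hmpos : (0 : ℝ) < m := by exact_mod_cast hm
      have : ε * (m * sm g') < 0 := mul_neg_of_pos_of_neg hε (mul_neg_of_pos_of_neg hmpos hneg')
      linarith
  · have hall : ∀ g : Fin (m + 1) → ℝ, g ≠ 0 → IsN K (fun _ => c) g → 0 < sm g := by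
      intro g hg hng
      rcases lt_or_gt_of_ne (diag_sm_ne hK hg hng) with h | h
      · exact (diag_not_both hK hn0 hng hpos h).elim
      · exact h
    have htop := diag_top hK hn0 hpos
    by_cases hUS : US K
    · obtain ⟨g, hg, hng, hdot⟩ := hbad (∅, true)
      rw [dirA_US hUS, dirB_US ρ hUS, smul_zero, add_zero, dot_const] at hdot
      linarith [hall g hg hng]
    · have hUS' := hUS
      unfold US at hUS'
      push Not at hUS'
      obtain ⟨x', hx', hmax, g, hg, hng, hsg⟩ := hUS'
      have hsx' : sm x' = (m + 1) * c := by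
        apply le_antisymm
        · exact htop x' hx'
        · have := hmax _ hx; rwa [hsx] at this
      obtain ⟨a, b, hab⟩ : ∃ a b, x' a ≠ x' b := by
        by_contra hcon
        push Not at hcon
        have hx'c : x' = fun _ => c := by
          have h1 : x' = fun _ => x' 0 := funext (fun i => hcon i 0)
          have h2 : sm x' = (m + 1) * x' 0 := by
            conv_lhs => rw [h1]
            rw [sm_const]
          have h3 : x' 0 = c := by
            rw [hsx'] at h2
            have hm : (m : ℝ) + 1 ≠ 0 := by positivity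
            exact (mul_left_cancel₀ hm h2).symm
          rw [h1, h3]
        rw [hx'c] at hng
        linarith [hall g hg hng]
      have hm : 0 < m := by
        rcases Nat.eq_zero_or_pos m with h | h
        · exfalso
          subst h
          apply hab
          congr 1
          exact Subsingleton.elim (α := Fin 1) _ _
        · exact h
      obtain ⟨g', hg', hng', hdot⟩ := hbad (Finset.univ, true)
      rw [dirA_univ_true hm, dirB_univ_true ρ hm] at hdot
      have hconst := diag_normal_const hK hng' hx' hsx' hab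
      have hg'c : g' = fun _ => g' 0 := funext (fun i => hconst i 0)
      have hpos' := hall g' hg' hng'
      rw [dotProduct_add, dotProduct_smul, dot_const, smul_eq_mul, hg'c, const_dot, sm_neg, sm_a0,
        neg_zero, mul_zero, zero_add, ← hg'c] at hdot
      have hmpos : (0 : ℝ) < m := by exact_mod_cast hm
      have : 0 < ε * (m * sm g') := mul_pos hε (mul_pos hmpos hpos')
      linarith

/-- Classification of the position of the coordinate `0` among the coordinates of `x`. -/
theorem classify (x : Fin (m + 1) → ℝ) :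
    (∀ i : Fin m, x i.succ = x 0) ∨ (0 < m ∧ ∀ i : Fin m, x i.succ < x 0) ∨
    (0 < m ∧ ∀ i : Fin m, x 0 < x i.succ) ∨
    ∃ S : Finset (Fin m),
      ((S.Nonempty ∧ (∀ i ∈ S, x i.succ < x 0) ∧ (∀ l ∉ S, x 0 ≤ x l.succ) ∧
          ∃ l, l ∉ S ∧ x 0 < x l.succ) ∨
        (S.Nonempty ∧ (Sᶜ).Nonempty ∧ (∀ i ∈ S, x i.succ < x 0) ∧ (∀ l ∉ S, x l.succ = x 0)) ∨
        (S.Nonempty ∧ (Sᶜ).Nonempty ∧ (∀ i ∈ S, x i.succ = x 0) ∧
          (∀ l ∉ S, x 0 < x l.succ))) := by
  classical
  by_cases hlow : ∃ i : Fin m, x i.succ < x 0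
  · obtain ⟨i0, hi0⟩ := hlow
    by_cases hall : ∀ i : Fin m, x i.succ < x 0
    · right; left
      exact ⟨i0.pos, hall⟩
    · push Not at hall
      obtain ⟨l0, hl0⟩ := hall
      right; right; right
      refine ⟨Finset.univ.filter (fun i => x i.succ < x 0), ?_⟩
      by_cases hhigh : ∃ l : Fin m, x 0 < x l.succ
      · left
        obtain ⟨l1, hl1⟩ := hhigh
        refine ⟨⟨i0, by simp [hi0]⟩, ?_, ?_, ⟨l1, ?_, hl1⟩⟩
        · intro i hi; simpa using hi
        · intro l hl; simpa using hl
        · simp [hl1.le]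
      · push Not at hhigh
        right; left
        refine ⟨⟨i0, by simp [hi0]⟩, ⟨l0, by simp [hl0]⟩, ?_, ?_⟩
        · intro i hi; simpa using hi
        · intro l hl
          have : x 0 ≤ x l.succ := by simpa using hl
          exact le_antisymm (hhigh l) this
  · push Not at hlow
    by_cases heq : ∃ i : Fin m, x i.succ = x 0
    · obtain ⟨i0, hi0⟩ := heq
      by_cases hall : ∀ i : Fin m, x i.succ = x 0
      · left; exact hall
      · push Not at hall
        obtain ⟨l0, hl0⟩ := hall
        right; right; right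
        refine ⟨Finset.univ.filter (fun i => x i.succ = x 0), ?_⟩
        right; right
        refine ⟨⟨i0, by simp [hi0]⟩, ⟨l0, by simp [hl0]⟩, ?_, ?_⟩
        · intro i hi; simpa using hi
        · intro l hl
          have : ¬ x l.succ = x 0 := by simpa using hl
          exact lt_of_le_of_ne (hlow l) (Ne.symm this)
    · push Not at heq
      rcases Nat.eq_zero_or_pos m with h | h
      · left
        intro i
        exact absurd i.pos (by omega)
      · right; right; left
        exact ⟨h, fun i => lt_of_le_of_ne (hlow i) (Ne.symm (heq i))⟩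

end Pool.Agent.Hadwiger
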