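import Mathlib
import Pool.Agent.Hadwiger.PermMain

set_option autoImplicit false

/-!
The main theorem for permutation invariant bodies in coordinates.
-/

namespace Pool.Agent.Hadwiger

open Set Filter Topology

variable {m : ℕ}

/-- A vector which is constant on the coordinates `1, …, m`, as a planar functional. -/
theorem planar_dot {h : Fin (m + 1) → ℝ} {c : ℝ} (hc : ∀ l : Fin m, h l.succ = c)
    (y : Fin (m + 1) → ℝ) : h ⬝ᵥ y = (h 0 - c) * ee y + (sm h / (m + 1)) * sm y := by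
  have h1 : h ⬝ᵥ y = h 0 * y 0 + c * (sm y - y 0) := by
    unfold dotProduct sm
    rw [Fin.sum_univ_succ, Fin.sum_univ_succ (fun i => y i)]
    have : ∑ i : Fin m, h i.succ * y i.succ = c * ∑ i : Fin m, y i.succ := by
      rw [Finset.mul_sum]
      exact Finset.sum_congr rfl (fun i _ => by rw [hc i])
    rw [this]; ring
  have h2 : sm h = h 0 + m * c := by
    unfold sm
    rw [Fin.sum_univ_succ, Finset.sum_congr rfl (fun i _ => hc i)]
    simp
  have hm : (m : ℝ) + 1 ≠ 0 := by positivity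
  rw [h1, h2]
  unfold ee
  field_simp
  ring

theorem planar_a0 {h : Fin (m + 1) → ℝ} {c : ℝ} (hc : ∀ l : Fin m, h l.succ = c) :
    h ⬝ᵥ a0 m = m * (h 0 - c) := by
  rw [dot_a0, Finset.sum_congr rfl (fun l _ => by rw [hc l])]
  simp only [Finset.sum_const, Finset.card_univ, Fintype.card_fin, nsmul_eq_mul]

theorem planar_ne {h : Fin (m + 1) → ℝ} {c : ℝ} (hc : ∀ l : Fin m, h l.succ = c) (hne : h ≠ 0) :
    h 0 - c ≠ 0 ∨ sm h / (m + 1) ≠ 0 := by
  by_contra hcon
  push Not at hcon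
  obtain ⟨h1, h2⟩ := hcon
  have h3 : sm h = h 0 + m * c := by
    unfold sm
    rw [Fin.sum_univ_succ, Finset.sum_congr rfl (fun i _ => hc i)]
    simp
  have hm : (m : ℝ) + 1 ≠ 0 := by positivity
  have h4 : sm h = 0 := by
    rcases div_eq_zero_iff.mp h2 with h | h
    · exact h
    · exact absurd h hm
  have h5 : h 0 = c := by linarith
  have h6 : ((m : ℝ) + 1) * c = 0 := by rw [h3, h5] at h4; linarith
  have h7 : c = 0 := by
    rcases mul_eq_zero.mp h6 with h | h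
    · exact absurd h hm
    · exact h
  apply hne
  funext i
  refine Fin.cases ?_ (fun j => ?_) i
  · rw [h5, h7]; rfl
  · rw [hc j, h7]; rfl

/-- A nonnegative double sum of differences that are all nonpositive forces equalities. -/
theorem aS_eq {h : Fin (m + 1) → ℝ} {S : Finset (Fin m)} (h1 : 0 ≤ h ⬝ᵥ aS S)
    (h2 : ∀ i ∈ S, ∀ l ∉ S, h i.succ ≤ h l.succ) : ∀ i ∈ S, ∀ l ∉ S, h i.succ = h l.succ := by
  rw [dot_aS, ← Finset.sum_product'] at h1
  have h3 : ∀ p ∈ S ×ˢ Sᶜ, h p.1.succ - h p.2.succ ≤ 0 := by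
    intro p hp
    rw [Finset.mem_product, Finset.mem_compl] at hp
    linarith [h2 p.1 hp.1 p.2 hp.2]
  have h4 : ∑ p ∈ S ×ˢ Sᶜ, (h p.1.succ - h p.2.succ) = 0 :=
    le_antisymm (Finset.sum_nonpos h3) h1
  have h5 := (Finset.sum_eq_zero_iff_of_nonpos h3).mp h4
  intro i hi l hl
  have := h5 (i, l) (by rw [Finset.mem_product, Finset.mem_compl]; exact ⟨hi, hl⟩)
  simp only at this
  linarith

theorem aS_const {h : Fin (m + 1) → ℝ} {S : Finset (Fin m)} (hS : S.Nonempty) (hSc : Sᶜ.Nonempty)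
    (h1 : ∀ i ∈ S, ∀ l ∉ S, h i.succ = h l.succ) : ∃ c, ∀ l : Fin m, h l.succ = c := by
  obtain ⟨i0, hi0⟩ := hS
  obtain ⟨l0, hl0⟩ := hSc
  rw [Finset.mem_compl] at hl0
  refine ⟨h l0.succ, fun l => ?_⟩
  by_cases hl : l ∈ S
  · exact h1 l hl l0 hl0
  · rw [← h1 i0 hi0 l hl, h1 i0 hi0 l0 hl0]

theorem aS_nonpos {h : Fin (m + 1) → ℝ} {S : Finset (Fin m)}
    (h2 : ∀ i ∈ S, ∀ l ∉ S, h i.succ ≤ h l.succ) : h ⬝ᵥ aS S ≤ 0 := by
  rw [dot_aS]
  apply Finset.sum_nonpos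
  intro i hi
  apply Finset.sum_nonpos
  intro l hl
  rw [Finset.mem_compl] at hl
  linarith [h2 i hi l hl]

/-- Coordinatewise inequalities pass to the limit. -/
theorem LimitData.le_of_ev {ι : Type} {K : Set (Fin (m + 1) → ℝ)} {A B : ι → (Fin (m + 1) → ℝ)}
    (D : LimitData K A B) (u : ι) {i l : Fin (m + 1)}
    (h : ∀ᶠ j in (D.U : Filter ℕ), D.hs j u i ≤ D.hs j u l) : D.h u i ≤ D.h u l :=
  le_of_tendsto_of_tendsto (tendsto_pi_nhds.mp (D.hlim u) i) (tendsto_pi_nhds.mp (D.hlim u) l) h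

theorem LimitData.x_le_of_ev {ι : Type} {K : Set (Fin (m + 1) → ℝ)}
    {A B : ι → (Fin (m + 1) → ℝ)}
    (D : LimitData K A B) {i l : Fin (m + 1)}
    (h : ∀ᶠ j in (D.U : Filter ℕ), D.xs j i ≤ D.xs j l) : D.x i ≤ D.x l :=
  le_of_tendsto_of_tendsto (tendsto_pi_nhds.mp D.xlim i) (tendsto_pi_nhds.mp D.xlim l) h

theorem const_of_const {h : Fin (m + 1) → ℝ} {c : ℝ} (hc : ∀ l : Fin m, h l.succ = c)
    (h0 : h 0 = c) : h = fun _ => c := by
  funext i
  refine Fin.cases ?_ (fun j => ?_) i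
  · exact h0
  · exact hc j

theorem const_ne {c : ℝ} (h : (fun _ : Fin (m + 1) => c) ≠ 0) : c ≠ 0 := by
  rintro rfl
  exact h rfl

theorem Sym.not_top_bot {K : Set (Fin (m + 1) → ℝ)} (hK : Sym K) {x : Fin (m + 1) → ℝ}
    (h1 : ∀ y ∈ K, sm x ≤ sm y) (h2 : ∀ y ∈ K, sm y ≤ sm x) : False :=
  hK.sm_not_const (sm x) (fun y hy => le_antisymm (h2 y hy) (h1 y hy))

/-- `0` is the unique top coordinate. -/
theorem case_B1 {K : Set (Fin (m + 1) → ℝ)} (hK : Sym K) {ρ : ℕ → ℝ}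
    (D : LimitData K (dirA K) (dirB K ρ)) (hm : 0 < m)
    (ev : ∀ᶠ j in (D.U : Filter ℕ), ∀ i : Fin m, D.xs j i.succ < D.xs j 0) : False := by
  have hmpos : (0 : ℝ) < m := by exact_mod_cast hm
  have hord : ∀ u, ∀ᶠ j in (D.U : Filter ℕ), ∀ i : Fin m, D.hs j u i.succ ≤ D.hs j u 0 := by
    intro u
    filter_upwards [ev] with j hj i
    exact (D.hsN j u).order hK (D.xsK j) (hj i)
  have hlim : ∀ u, ∀ i : Fin m, D.h u i.succ ≤ D.h u 0 := by
    intro u i
    apply D.le_of_ev u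
    filter_upwards [hord u] with j hj
    exact hj i
  -- an index with `A = -a0` yields a constant limit normal
  have key : ∀ u, dirA K u = -a0 m → (∃ c : ℝ, c ≠ 0 ∧ D.h u = fun _ => c) ∧
      0 ≤ D.h u ⬝ᵥ dirB K ρ u := by
    intro u hu
    have h1 := D.hA u
    rw [hu, dotProduct_neg, dot_a0] at h1
    have h2 : ∀ l ∈ (Finset.univ : Finset (Fin m)), 0 ≤ D.h u 0 - D.h u l.succ := by
      intro l _; linarith [hlim u l]
    have h3 : ∑ l : Fin m, (D.h u 0 - D.h u l.succ) = 0 :=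
      le_antisymm (by linarith) (Finset.sum_nonneg h2)
    have h4 := (Finset.sum_eq_zero_iff_of_nonneg h2).mp h3
    have h5 : D.h u = fun _ => D.h u 0 :=
      const_of_const (c := D.h u 0) (fun l => by linarith [h4 l (Finset.mem_univ _)]) rfl
    refine ⟨⟨D.h u 0, ?_, h5⟩, ?_⟩
    · apply const_ne (m := m)
      rw [← h5]; exact D.hne u
    · apply D.hB u
      filter_upwards [hord u] with j hj
      rw [hu, dotProduct_neg, dot_a0]
      have : 0 ≤ ∑ l : Fin m, (D.hs j u 0 - D.hs j u l.succ) :=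
        Finset.sum_nonneg (fun l _ => by linarith [hj l])
      linarith
  obtain ⟨⟨c, hc, hcu⟩, hB⟩ := key (Finset.univ, true) (dirA_univ_true hm)
  rw [dirB_univ_true ρ hm, hcu, const_dot, sm_const] at hB
  have hcneg : c < 0 := by
    apply lt_of_le_of_ne _ hc
    by_contra hcon
    push Not at hcon
    have : 0 < c * (((m : ℝ) + 1) * m) := by positivity
    nlinarith
  have hbot : ∀ y ∈ K, sm D.x ≤ sm y :=
    const_normal_neg (by rw [← hcu]; exact D.hN _) hcneg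
  by_cases hLS : LS K
  · have h1 := D.hA (Finset.univ, false)
    rw [dirA_LS hLS, dot_const, one_mul] at h1
    have h2 := hLS D.x D.xK hbot _ (D.hne (Finset.univ, false)) (D.hN _)
    linarith
  · obtain ⟨⟨c', hc', hcu'⟩, hB'⟩ := key (Finset.univ, false) (dirA_univ_false hm hLS)
    rw [dirB_univ_false ρ hLS, hcu', const_dot, sm_const] at hB'
    have hcpos : 0 < c' := by
      apply lt_of_le_of_ne _ (Ne.symm hc')
      by_contra hcon
      push Not at hcon
      have : 0 < (-c') * (((m : ℝ) + 1) * m) := by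
        apply mul_pos (by linarith); positivity
      nlinarith
    have htop : ∀ y ∈ K, sm y ≤ sm D.x :=
      const_normal_pos (by rw [← hcu']; exact D.hN _) hcpos
    exact hK.not_top_bot hbot htop

/-- `0` is the unique bottom coordinate. -/
theorem case_C1 {K : Set (Fin (m + 1) → ℝ)} (hK : Sym K) {ρ : ℕ → ℝ}
    (D : LimitData K (dirA K) (dirB K ρ)) (hm : 0 < m)
    (ev : ∀ᶠ j in (D.U : Filter ℕ), ∀ i : Fin m, D.xs j 0 < D.xs j i.succ) : False := by
  have hmpos : (0 : ℝ) < m := by exact_mod_cast hm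
  have hord : ∀ u, ∀ᶠ j in (D.U : Filter ℕ), ∀ i : Fin m, D.hs j u 0 ≤ D.hs j u i.succ := by
    intro u
    filter_upwards [ev] with j hj i
    exact (D.hsN j u).order hK (D.xsK j) (hj i)
  have hlim : ∀ u, ∀ i : Fin m, D.h u 0 ≤ D.h u i.succ := by
    intro u i
    apply D.le_of_ev u
    filter_upwards [hord u] with j hj
    exact hj i
  have key : ∀ u, dirA K u = a0 m → (∃ c : ℝ, c ≠ 0 ∧ D.h u = fun _ => c) ∧
      0 ≤ D.h u ⬝ᵥ dirB K ρ u := by
    intro u hu
    have h1 := D.hA u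
    rw [hu, dot_a0] at h1
    have h2 : ∀ l ∈ (Finset.univ : Finset (Fin m)), D.h u 0 - D.h u l.succ ≤ 0 := by
      intro l _; linarith [hlim u l]
    have h3 : ∑ l : Fin m, (D.h u 0 - D.h u l.succ) = 0 :=
      le_antisymm (Finset.sum_nonpos h2) h1
    have h4 := (Finset.sum_eq_zero_iff_of_nonpos h2).mp h3
    have h5 : D.h u = fun _ => D.h u 0 :=
      const_of_const (c := D.h u 0) (fun l => by linarith [h4 l (Finset.mem_univ _)]) rfl
    refine ⟨⟨D.h u 0, ?_, h5⟩, ?_⟩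
    · apply const_ne (m := m)
      rw [← h5]; exact D.hne u
    · apply D.hB u
      filter_upwards [hord u] with j hj
      rw [hu, dot_a0]
      exact Finset.sum_nonpos (fun l _ => by linarith [hj l])
  obtain ⟨⟨c, hc, hcu⟩, hB⟩ := key (∅, false) (dirA_empty_false hm)
  rw [dirB_empty_false ρ hm, hcu, const_dot, sm_const] at hB
  have hcpos : 0 < c := by
    apply lt_of_le_of_ne _ (Ne.symm hc)
    by_contra hcon
    push Not at hcon
    have : 0 < (-c) * (((m : ℝ) + 1) * m) := by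
      apply mul_pos (by linarith); positivity
    nlinarith
  have htop : ∀ y ∈ K, sm y ≤ sm D.x :=
    const_normal_pos (by rw [← hcu]; exact D.hN _) hcpos
  by_cases hUS : US K
  · have h1 := D.hA (∅, true)
    rw [dirA_US hUS, dot_const] at h1
    have h2 := hUS D.x D.xK htop _ (D.hne (∅, true)) (D.hN _)
    linarith
  · obtain ⟨⟨c', hc', hcu'⟩, hB'⟩ := key (∅, true) (dirA_empty_true hUS)
    rw [dirB_empty_true ρ hUS, hcu', const_dot, sm_const] at hB'
    have hcneg : c' < 0 := by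
      apply lt_of_le_of_ne _ hc'
      by_contra hcon
      push Not at hcon
      have : 0 < c' * (((m : ℝ) + 1) * m) := by positivity
      nlinarith
    have hbot : ∀ y ∈ K, sm D.x ≤ sm y :=
      const_normal_neg (by rw [← hcu']; exact D.hN _) hcneg
    exact hK.not_top_bot hbot htop

theorem mid_of_nonempty {S : Finset (Fin m)} (h1 : S.Nonempty) (h2 : Sᶜ.Nonempty) :
    S ≠ ∅ ∧ S ≠ Finset.univ := by
  refine ⟨h1.ne_empty, ?_⟩
  rintro rfl
  simp at h2

/-- Common facts on the limit normals for `S ≠ ∅, univ`. -/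
theorem mid_facts {K : Set (Fin (m + 1) → ℝ)} {ρ : ℕ → ℝ}
    (D : LimitData K (dirA K) (dirB K ρ)) {S : Finset (Fin m)} (h1 : S.Nonempty)
    (h2 : Sᶜ.Nonempty) (b : Bool)
    (hord : ∀ᶠ j in (D.U : Filter ℕ), ∀ i ∈ S, ∀ l ∉ S,
      D.hs j (S, b) i.succ ≤ D.hs j (S, b) l.succ) :
    (∃ c : ℝ, ∀ l : Fin m, D.h (S, b) l.succ = c) ∧ 0 ≤ D.h (S, b) ⬝ᵥ dirB K ρ (S, b) := by
  obtain ⟨hne, hnu⟩ := mid_of_nonempty h1 h2
  have hA := D.hA (S, b)
  rw [dirA_mid b hne hnu] at hA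
  have hlim : ∀ i ∈ S, ∀ l ∉ S, D.h (S, b) i.succ ≤ D.h (S, b) l.succ := by
    intro i hi l hl
    apply D.le_of_ev
    filter_upwards [hord] with j hj
    exact hj i hi l hl
  refine ⟨aS_const h1 h2 (aS_eq hA hlim), ?_⟩
  apply D.hB
  filter_upwards [hord] with j hj
  rw [dirA_mid b hne hnu]
  exact aS_nonpos hj

/-- `0` is strictly between. -/
theorem case_A {K : Set (Fin (m + 1) → ℝ)} (hK : Sym K) {ρ : ℕ → ℝ}
    (D : LimitData K (dirA K) (dirB K ρ)) {S : Finset (Fin m)} (hS : S.Nonempty) (l1 : Fin m)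
    (hl1 : l1 ∉ S)
    (ev : ∀ᶠ j in (D.U : Filter ℕ), (∀ i ∈ S, D.xs j i.succ < D.xs j 0) ∧
      (∀ l ∉ S, D.xs j 0 ≤ D.xs j l.succ) ∧ D.xs j 0 < D.xs j l1.succ) : False := by
  have hSc : Sᶜ.Nonempty := ⟨l1, Finset.mem_compl.mpr hl1⟩
  obtain ⟨hne, hnu⟩ := mid_of_nonempty hS hSc
  have hm : 0 < m := l1.pos
  have hmpos : (0 : ℝ) < m := by exact_mod_cast hm
  have key : ∀ b, (∃ c : ℝ, c ≠ 0 ∧ D.h (S, b) = fun _ => c) ∧
      0 ≤ D.h (S, b) ⬝ᵥ dirB K ρ (S, b) := by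
    intro b
    obtain ⟨⟨c, hc⟩, hB⟩ := mid_facts D hS hSc b (by
      filter_upwards [ev] with j hj i hi l hl
      exact (D.hsN j (S, b)).order hK (D.xsK j) (lt_of_lt_of_le (hj.1 i hi) (hj.2.1 l hl)))
    obtain ⟨i0, hi0⟩ := hS
    have h1 : D.h (S, b) i0.succ ≤ D.h (S, b) 0 := by
      apply D.le_of_ev
      filter_upwards [ev] with j hj
      exact (D.hsN j (S, b)).order hK (D.xsK j) (hj.1 i0 hi0)
    have h2 : D.h (S, b) 0 ≤ D.h (S, b) l1.succ := by
      apply D.le_of_ev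
      filter_upwards [ev] with j hj
      exact (D.hsN j (S, b)).order hK (D.xsK j) hj.2.2
    rw [hc] at h1 h2
    have h3 : D.h (S, b) 0 = c := le_antisymm h2 h1
    have h4 := const_of_const hc h3
    refine ⟨⟨c, ?_, h4⟩, hB⟩
    apply const_ne (m := m)
    rw [← h4]; exact D.hne _
  obtain ⟨⟨c, hc, hcu⟩, hB⟩ := key true
  obtain ⟨⟨c', hc', hcu'⟩, hB'⟩ := key false
  rw [dirB_mid_true ρ hne hnu, hcu, const_dot, sm_add, sm_smul, sm_a0, sm_const, mul_zero,
    zero_add] at hB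
  rw [dirB_mid_false ρ hne hnu, hcu', const_dot, sm_add, sm_smul, sm_a0, sm_const, mul_zero,
    zero_add] at hB'
  have hcneg : c < 0 := by
    apply lt_of_le_of_ne _ hc
    by_contra hcon
    push Not at hcon
    have : 0 < c * (((m : ℝ) + 1) * m) := by positivity
    nlinarith
  have hcpos : 0 < c' := by
    apply lt_of_le_of_ne _ (Ne.symm hc')
    by_contra hcon
    push Not at hcon
    have : 0 < (-c') * (((m : ℝ) + 1) * m) := by
      apply mul_pos (by linarith); positivity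
    nlinarith
  exact hK.not_top_bot (const_normal_neg (by rw [← hcu]; exact D.hN _) hcneg)
    (const_normal_pos (by rw [← hcu']; exact D.hN _) hcpos)

/-- The two central directions kill the remaining possibility. -/
theorem central {K : Set (Fin (m + 1) → ℝ)} {ρ : ℕ → ℝ}
    (D : LimitData K (dirA K) (dirB K ρ))
    (h : (US K ∧ ∀ h : Fin (m + 1) → ℝ, h ≠ 0 → IsN K D.x h → 0 < sm h) ∨
      (LS K ∧ ∀ h : Fin (m + 1) → ℝ, h ≠ 0 → IsN K D.x h → sm h < 0)) : False := by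
  rcases h with ⟨hUS, hall⟩ | ⟨hLS, hall⟩
  · have h1 := D.hA (∅, true)
    rw [dirA_US hUS, dot_const] at h1
    linarith [hall _ (D.hne (∅, true)) (D.hN _)]
  · have h1 := D.hA (Finset.univ, false)
    rw [dirA_LS hLS, dot_const] at h1
    linarith [hall _ (D.hne (Finset.univ, false)) (D.hN _)]

theorem pn_of_planar {K : Set (Fin (m + 1) → ℝ)} {x h : Fin (m + 1) → ℝ} {c : ℝ}
    (hc : ∀ l : Fin m, h l.succ = c) (hn : IsN K x h) : PN K x (h 0 - c) (sm h / (m + 1)) := by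
  intro y hy
  rw [← planar_dot hc, ← planar_dot hc]
  exact hn y hy

theorem slope_true {K : Set (Fin (m + 1) → ℝ)} {ρ : ℕ → ℝ} {S : Finset (Fin m)} (hm : 0 < m)
    (hne : S ≠ ∅) (hnu : S ≠ Finset.univ) {h : Fin (m + 1) → ℝ} {c : ℝ}
    (hc : ∀ l : Fin m, h l.succ = c) (hB : 0 ≤ h ⬝ᵥ dirB K ρ (S, true)) :
    sm h / (m + 1) ≤ ρ S.card * (h 0 - c) := by
  have hmpos : (0 : ℝ) < m := by exact_mod_cast hm
  have hm1 : (0 : ℝ) < (m : ℝ) + 1 := by positivity
  rw [dirB_mid_true ρ hne hnu, dotProduct_add, dotProduct_smul, planar_a0 hc, dot_const,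
    smul_eq_mul] at hB
  have h1 : sm h = (m + 1) * (sm h / (m + 1)) := by field_simp
  rw [h1] at hB
  have h2 : 0 ≤ (((m : ℝ) + 1) * m) * (ρ S.card * (h 0 - c) - sm h / (m + 1)) := by
    linarith [hB, (by ring : (((m : ℝ) + 1) * m) * (ρ S.card * (h 0 - c) - sm h / (m + 1)) =
      ((m : ℝ) + 1) * ρ S.card * (m * (h 0 - c)) + -(m : ℝ) * ((m + 1) * (sm h / (m + 1))))]
  have h3 := (mul_nonneg_iff_of_pos_left (by positivity : 0 < ((m : ℝ) + 1) * m)).mp h2
  linarith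

theorem slope_false {K : Set (Fin (m + 1) → ℝ)} {ρ : ℕ → ℝ} {S : Finset (Fin m)} (hm : 0 < m)
    (hne : S ≠ ∅) (hnu : S ≠ Finset.univ) {h : Fin (m + 1) → ℝ} {c : ℝ}
    (hc : ∀ l : Fin m, h l.succ = c) (hB : 0 ≤ h ⬝ᵥ dirB K ρ (S, false)) :
    -(ρ S.card * (h 0 - c)) ≤ sm h / (m + 1) := by
  have hmpos : (0 : ℝ) < m := by exact_mod_cast hm
  have hm1 : (0 : ℝ) < (m : ℝ) + 1 := by positivity
  rw [dirB_mid_false ρ hne hnu, dotProduct_add, dotProduct_smul, planar_a0 hc, dot_const,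
    smul_eq_mul] at hB
  have h1 : sm h = (m + 1) * (sm h / (m + 1)) := by field_simp
  rw [h1] at hB
  have h2 : 0 ≤ (((m : ℝ) + 1) * m) * (ρ S.card * (h 0 - c) + sm h / (m + 1)) := by
    linarith [hB, (by ring : (((m : ℝ) + 1) * m) * (ρ S.card * (h 0 - c) + sm h / (m + 1)) =
      ((m : ℝ) + 1) * ρ S.card * (m * (h 0 - c)) + (m : ℝ) * ((m + 1) * (sm h / (m + 1))))]
  have h3 := (mul_nonneg_iff_of_pos_left (by positivity : 0 < ((m : ℝ) + 1) * m)).mp h2
  linarith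

theorem card_mid {S : Finset (Fin m)} (h1 : S.Nonempty) (h2 : Sᶜ.Nonempty) :
    0 < S.card ∧ S.card < m := by
  refine ⟨h1.card_pos, ?_⟩
  have h3 := h2.card_pos
  rw [Finset.card_compl, Fintype.card_fin] at h3
  omega

/-- `0` is in the top level, which has other elements. -/
theorem case_B2 {K : Set (Fin (m + 1) → ℝ)} (hK : Sym K) {ρ : ℕ → ℝ}
    (hρ : ∀ k, 0 < k → k < m → GoodTop K k (ρ k) ∧ GoodTop (negB K) (m - k) (-(ρ k)))
    (D : LimitData K (dirA K) (dirB K ρ)) {S : Finset (Fin m)} (hS : S.Nonempty)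
    (hSc : Sᶜ.Nonempty)
    (ev : ∀ᶠ j in (D.U : Filter ℕ), (∀ i ∈ S, D.xs j i.succ < D.xs j 0) ∧
      (∀ l ∉ S, D.xs j l.succ = D.xs j 0)) : False := by
  obtain ⟨hne, hnu⟩ := mid_of_nonempty hS hSc
  obtain ⟨hk0, hkm⟩ := card_mid hS hSc
  have hm : 0 < m := by omega
  have hfacts := fun b => mid_facts D hS hSc b (by
      filter_upwards [ev] with j hj i hi l hl
      exact (D.hsN j (S, b)).order hK (D.xsK j) (by rw [hj.2 l hl]; exact hj.1 i hi))
  have hη : ∀ b c, (∀ l : Fin m, D.h (S, b) l.succ = c) → 0 ≤ D.h (S, b) 0 - c := by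
    intro b c hc
    obtain ⟨i0, hi0⟩ := hS
    have h1 : D.h (S, b) i0.succ ≤ D.h (S, b) 0 := by
      apply D.le_of_ev
      filter_upwards [ev] with j hj
      exact (D.hsN j (S, b)).order hK (D.xsK j) (hj.1 i0 hi0)
    rw [hc] at h1; linarith
  obtain ⟨⟨c₁, hc₁⟩, hB₁⟩ := hfacts true
  obtain ⟨⟨c₂, hc₂⟩, hB₂⟩ := hfacts false
  apply central D
  apply (hρ S.card hk0 hkm).1 S rfl D.x D.xK _ _ _ _ _ _ (hη true c₁ hc₁) (hη false c₂ hc₂)
    (planar_ne hc₁ (D.hne _)) (planar_ne hc₂ (D.hne _)) (pn_of_planar hc₁ (D.hN _))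
    (pn_of_planar hc₂ (D.hN _)) (slope_true hm hne hnu hc₁ hB₁) (slope_false hm hne hnu hc₂ hB₂)
  · intro l hl
    apply le_antisymm
    · apply D.x_le_of_ev
      filter_upwards [ev] with j hj
      exact (hj.2 l hl).le
    · apply D.x_le_of_ev
      filter_upwards [ev] with j hj
      exact (hj.2 l hl).ge
  · intro i
    apply D.x_le_of_ev
    filter_upwards [ev] with j hj
    refine Fin.cases le_rfl (fun i => ?_) i
    by_cases hi : i ∈ S
    · exact (hj.1 i hi).le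
    · exact (hj.2 i hi).le

/-- `0` is in the bottom level, which has other elements. -/
theorem case_C2 {K : Set (Fin (m + 1) → ℝ)} (hK : Sym K) {ρ : ℕ → ℝ}
    (hρ : ∀ k, 0 < k → k < m → GoodTop K k (ρ k) ∧ GoodTop (negB K) (m - k) (-(ρ k)))
    (D : LimitData K (dirA K) (dirB K ρ)) {S : Finset (Fin m)} (hS : S.Nonempty)
    (hSc : Sᶜ.Nonempty)
    (ev : ∀ᶠ j in (D.U : Filter ℕ), (∀ i ∈ S, D.xs j i.succ = D.xs j 0) ∧
      (∀ l ∉ S, D.xs j 0 < D.xs j l.succ)) : False := by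
  obtain ⟨hne, hnu⟩ := mid_of_nonempty hS hSc
  obtain ⟨hk0, hkm⟩ := card_mid hS hSc
  have hm : 0 < m := by omega
  have hfacts := fun b => mid_facts D hS hSc b (by
      filter_upwards [ev] with j hj i hi l hl
      exact (D.hsN j (S, b)).order hK (D.xsK j) (by rw [hj.1 i hi]; exact hj.2 l hl))
  have hη : ∀ b c, (∀ l : Fin m, D.h (S, b) l.succ = c) → D.h (S, b) 0 - c ≤ 0 := by
    intro b c hc
    obtain ⟨l0, hl0⟩ := hSc
    rw [Finset.mem_compl] at hl0
    have h1 : D.h (S, b) 0 ≤ D.h (S, b) l0.succ := by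
      apply D.le_of_ev
      filter_upwards [ev] with j hj
      exact (D.hsN j (S, b)).order hK (D.xsK j) (hj.2 l0 hl0)
    rw [hc] at h1; linarith
  obtain ⟨⟨c₁, hc₁⟩, hB₁⟩ := hfacts true
  obtain ⟨⟨c₂, hc₂⟩, hB₂⟩ := hfacts false
  have hpn : ∀ η σ, PN K D.x η σ → PN (negB K) (-D.x) (-η) (-σ) := by
    intro η σ h y hy
    have h1 := h (-y) hy
    rw [ee_neg, sm_neg] at h1
    rw [ee_neg, sm_neg]
    linarith
  have hs₁ := slope_true hm hne hnu hc₁ hB₁
  have hs₂ := slope_false hm hne hnu hc₂ hB₂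
  have hn₁ := planar_ne hc₁ (D.hne (S, true))
  have hn₂ := planar_ne hc₂ (D.hne (S, false))
  have hxK : -D.x ∈ negB K := by rw [mem_negB, neg_neg]; exact D.xK
  have hres := (hρ S.card hk0 hkm).2 Sᶜ (by rw [Finset.card_compl, Fintype.card_fin]) (-D.x) hxK
    (by
      intro l hl
      rw [Finset.mem_compl, not_not] at hl
      simp only [Pi.neg_apply]
      congr 1
      apply le_antisymm
      · apply D.x_le_of_ev
        filter_upwards [ev] with j hj
        exact (hj.1 l hl).le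
      · apply D.x_le_of_ev
        filter_upwards [ev] with j hj
        exact (hj.1 l hl).ge)
    (by
      intro i
      simp only [Pi.neg_apply]
      apply neg_le_neg
      apply D.x_le_of_ev
      filter_upwards [ev] with j hj
      refine Fin.cases le_rfl (fun i => ?_) i
      by_cases hi : i ∈ S
      · exact (hj.1 i hi).ge
      · exact (hj.2 i hi).le)
    (-(D.h (S, false) 0 - c₂)) (-(sm (D.h (S, false)) / (m + 1)))
    (-(D.h (S, true) 0 - c₁)) (-(sm (D.h (S, true)) / (m + 1)))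
    (by linarith [hη false c₂ hc₂]) (by linarith [hη true c₁ hc₁])
    (by
      rcases hn₂ with h | h
      · left; exact neg_ne_zero.mpr h
      · right; exact neg_ne_zero.mpr h)
    (by
      rcases hn₁ with h | h
      · left; exact neg_ne_zero.mpr h
      · right; exact neg_ne_zero.mpr h)
    (hpn _ _ (pn_of_planar hc₂ (D.hN _))) (hpn _ _ (pn_of_planar hc₁ (D.hN _)))
    (by linarith) (by linarith)
  apply central D
  rcases hres with ⟨hUS, hall⟩ | ⟨hLS, hall⟩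
  · right
    refine ⟨us_negB hUS, ?_⟩
    intro h hh hn
    have := hall (-h) (neg_ne_zero.mpr hh) (isN_negB hn)
    rw [sm_neg] at this; linarith
  · left
    refine ⟨ls_negB hLS, ?_⟩
    intro h hh hn
    have := hall (-h) (neg_ne_zero.mpr hh) (isN_negB hn)
    rw [sm_neg] at this; linarith

theorem ev_exists {α : Type} [Finite α] (U : Ultrafilter ℕ) {P : α → ℕ → Prop}
    (h : ∀ᶠ j in (U : Filter ℕ), ∃ a, P a j) : ∃ a, ∀ᶠ j in (U : Filter ℕ), P a j := by
  have h1 := (Ultrafilter.eventually_exists_mem_iff (f := U) (P := P)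
    (Set.finite_univ (α := α))).mp (by
      filter_upwards [h] with j hj
      obtain ⟨a, ha⟩ := hj
      exact ⟨a, Set.mem_univ _, ha⟩)
  obtain ⟨a, -, ha⟩ := h1
  exact ⟨a, ha⟩

/-- Illumination of a permutation invariant convex body by `2^{m+1}` directions. -/
theorem sym_lit {K : Set (Fin (m + 1) → ℝ)} (hK : Sym K) :
    ∃ V : Finset (Fin (m + 1) → ℝ), V.card ≤ 2 ^ (m + 1) ∧
      ∀ x ∈ K, ∃ v ∈ V, ∀ h : Fin (m + 1) → ℝ, h ≠ 0 → IsN K x h → h ⬝ᵥ v < 0 := by
  classical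
  have hslope : ∀ k, ∃ ρ : ℝ, 0 < k → k < m →
      GoodTop K k ρ ∧ GoodTop (negB K) (m - k) (-ρ) := by
    intro k
    by_cases h : 0 < k ∧ k < m
    · obtain ⟨ρ, hρ⟩ := exists_slope hK h.1 h.2
      exact ⟨ρ, fun _ _ => hρ⟩
    · exact ⟨0, fun h1 h2 => absurd ⟨h1, h2⟩ h⟩
  choose ρ hρ using hslope
  by_contra hcon
  push Not at hcon
  have hbad : ∀ ε : ℝ, 0 < ε → ∃ x ∈ K, ∀ i : Finset (Fin m) × Bool,
      ∃ h : Fin (m + 1) → ℝ, h ≠ 0 ∧ IsN K x h ∧ 0 ≤ h ⬝ᵥ (dirA K i + ε • dirB K ρ i) := by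
    intro ε _
    obtain ⟨x, hx, hall⟩ := hcon
      (Finset.univ.image (fun i : Finset (Fin m) × Bool => dirA K i + ε • dirB K ρ i)) (by
        refine Finset.card_image_le.trans ?_
        rw [Finset.card_univ, Fintype.card_prod, Fintype.card_finset, Fintype.card_fin,
          Fintype.card_bool, pow_succ])
    exact ⟨x, hx, fun i => hall _ (Finset.mem_image_of_mem _ (Finset.mem_univ i))⟩
  obtain ⟨D⟩ := limitData hK.comp (dirA K) (dirB K ρ) hbad
  have hcl : ∀ᶠ j in (D.U : Filter ℕ), _ := Filter.Eventually.of_forall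
    (fun j => classify (D.xs j))
  rw [Ultrafilter.eventually_or, Ultrafilter.eventually_or, Ultrafilter.eventually_or] at hcl
  rcases hcl with h | h | h | h
  · obtain ⟨j, hj⟩ := h.exists
    exact diag_case hK ρ (D.xsK j) hj (D.εpos j)
      (fun i => ⟨D.hs j i, D.hsne j i, D.hsN j i, D.hsdot j i⟩)
  · obtain ⟨j, hj⟩ := h.exists
    exact case_B1 hK D hj.1 (h.mono fun j hj => hj.2)
  · obtain ⟨j, hj⟩ := h.exists
    exact case_C1 hK D hj.1 (h.mono fun j hj => hj.2)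
  · obtain ⟨S, hS⟩ := ev_exists D.U h
    rw [Ultrafilter.eventually_or, Ultrafilter.eventually_or] at hS
    rcases hS with h | h | h
    · obtain ⟨j, hj⟩ := h.exists
      have h2 : ∀ᶠ j in (D.U : Filter ℕ), ∃ l : Fin m, l ∉ S ∧ D.xs j 0 < D.xs j l.succ :=
        h.mono fun j hj => hj.2.2.2
      obtain ⟨l, hl⟩ := ev_exists D.U h2
      obtain ⟨j', hj'⟩ := hl.exists
      apply case_A hK D hj.1 l hj'.1
      filter_upwards [h, hl] with j h1 h2
      exact ⟨h1.2.1, h1.2.2.1, h2.2⟩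
    · obtain ⟨j, hj⟩ := h.exists
      exact case_B2 hK hρ D hj.1 hj.2.1 (h.mono fun j hj => hj.2.2)
    · obtain ⟨j, hj⟩ := h.exists
      exact case_C2 hK hρ D hj.1 hj.2.1 (h.mono fun j hj => hj.2.2)

/-- **Covering theorem** for permutation invariant convex bodies, in coordinates. -/
theorem sym_cover {K : Set (Fin (m + 1) → ℝ)} (hK : Sym K) :
    ∃ T : Finset (Fin (m + 1) → ℝ), T.card ≤ 2 ^ (m + 1) ∧
      K ⊆ ⋃ t ∈ T, (fun x => t + x) '' interior K := by
  obtain ⟨V, hV, hlit⟩ := sym_lit hK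
  obtain ⟨T, hT, hcov⟩ := cover_of_lit hK.conv hK.comp V (fun x hx => by
    obtain ⟨v, hv, h⟩ := hlit x hx
    exact ⟨v, hv, lit_of_normals hK.conv hK.int v h⟩)
  exact ⟨T, hT.trans hV, hcov⟩

end Pool.Agent.Hadwiger
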