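import Mathlib
import Pool.Agent.Hadwiger.Basic

set_option autoImplicit false

/-!
Position of a centrally symmetric convex body in which the circumscribed cube `[-1,1]^n` is a
circumscribed parallelotope of least volume.
-/

namespace Pool.Agent.Hadwiger.MinVol

open Set Filter Topology

/-- `f` belongs to the polar body of `K` (for `K` centrally symmetric). -/
def Pol {n : ℕ} (K : Set (Fin n → ℝ)) (f : Fin n → ℝ) : Prop := ∀ x ∈ K, f ⬝ᵥ x ≤ 1

/-- A centrally symmetric convex body for which `[-1,1]^n` is a circumscribed parallelotope of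
least volume. -/
structure Pos {n : ℕ} (K : Set (Fin n → ℝ)) : Prop where
  conv : Convex ℝ K
  comp : IsCompact K
  int : (interior K).Nonempty
  symm : ∀ x ∈ K, -x ∈ K
  coord : ∀ i, Pol K (Pi.single i 1)
  det_le : ∀ F : Matrix (Fin n) (Fin n) ℝ, (∀ i, Pol K (F i)) → |F.det| ≤ 1

theorem zero_mem {n : ℕ} {K : Set (Fin n → ℝ)} (hc : Convex ℝ K) (hne : K.Nonempty)
    (hs : ∀ x ∈ K, -x ∈ K) : (0 : Fin n → ℝ) ∈ K := by
  obtain ⟨a, ha⟩ := hne
  have h1 := hc ha (hs a ha) (show (0 : ℝ) ≤ 1 / 2 by norm_num) (show (0 : ℝ) ≤ 1 / 2 by norm_num)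
    (by norm_num)
  have h2 : (1 / 2 : ℝ) • a + (1 / 2 : ℝ) • (-a) = 0 := by
    rw [smul_neg, add_neg_cancel]
  rwa [h2] at h1

theorem zero_mem_int {n : ℕ} {K : Set (Fin n → ℝ)} (hc : Convex ℝ K) (hi : (interior K).Nonempty)
    (hs : ∀ x ∈ K, -x ∈ K) : (0 : Fin n → ℝ) ∈ interior K := by
  obtain ⟨a, ha⟩ := hi
  have h0 : -a ∈ K := hs a (interior_subset ha)
  have h1 := hc.combo_interior_self_mem_interior ha h0
    (show (0 : ℝ) < 1 / 2 by norm_num) (show (0 : ℝ) ≤ 1 / 2 by norm_num) (by norm_num)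
  have h2 : (1 / 2 : ℝ) • a + (1 / 2 : ℝ) • (-a) = 0 := by
    rw [smul_neg, add_neg_cancel]
  rwa [h2] at h1

theorem pol_abs {n : ℕ} {K : Set (Fin n → ℝ)} (hs : ∀ x ∈ K, -x ∈ K) {f : Fin n → ℝ}
    (hf : Pol K f) {x : Fin n → ℝ} (hx : x ∈ K) : |f ⬝ᵥ x| ≤ 1 := by
  rw [abs_le]
  refine ⟨?_, hf x hx⟩
  have := hf (-x) (hs x hx)
  rw [dotProduct_neg] at this
  linarith

theorem Pos.le_one {n : ℕ} {K : Set (Fin n → ℝ)} (hK : Pos K) {x : Fin n → ℝ} (hx : x ∈ K)
    (i : Fin n) : |x i| ≤ 1 := by
  have := pol_abs hK.symm (hK.coord i) hx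
  rwa [single_one_dotProduct] at this

/-- In minimal position the coordinate vectors belong to `K`. -/
theorem Pos.single_mem {n : ℕ} {K : Set (Fin n → ℝ)} (hK : Pos K) (i : Fin n) :
    (Pi.single i 1 : Fin n → ℝ) ∈ K := by
  by_contra hcon
  obtain ⟨f, u, hf1, hf2⟩ := geometric_hahn_banach_closed_point hK.conv hK.comp.isClosed hcon
  set h : Fin n → ℝ := fun i => f (Pi.single i 1) with hh
  have hfh : ∀ y, f y = h ⬝ᵥ y := by
    intro y
    have h1 : y = ∑ i, y i • (Pi.single i (1 : ℝ) : Fin n → ℝ) := by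
      ext j
      simp [Finset.sum_apply, Pi.single_apply]
    conv_lhs => rw [h1]
    rw [map_sum]
    unfold dotProduct
    apply Finset.sum_congr rfl
    intro i _
    rw [map_smul, smul_eq_mul, mul_comm]
  have h0 : (0 : Fin n → ℝ) ∈ K := zero_mem hK.conv (hK.int.mono interior_subset) hK.symm
  have hu : 0 < u := by
    have := hf1 0 h0
    rwa [map_zero] at this
  have hi : u < h i := hf2
  have hpol : Pol K (u⁻¹ • h) := by
    intro x hx
    rw [smul_dotProduct, ← hfh, smul_eq_mul, inv_mul_le_iff₀ hu, mul_one]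
    exact (hf1 x hx).le
  have hdet := hK.det_le ((1 : Matrix (Fin n) (Fin n) ℝ).updateRow i (u⁻¹ • h)) (by
    intro j
    by_cases hj : j = i
    · subst hj
      rw [Matrix.updateRow_self]
      exact hpol
    · rw [Matrix.updateRow_ne hj]
      have h2 : (1 : Matrix (Fin n) (Fin n) ℝ) j = Pi.single j 1 := by
        ext k
        rw [Matrix.one_apply, Pi.single_apply]
        simp [eq_comm]
      rw [h2]
      exact hK.coord j)
  rw [← Matrix.cramer_transpose_apply, Matrix.transpose_one, Matrix.cramer_one] at hdet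
  have h3 : (1 : ℝ) < u⁻¹ * h i := by
    rw [lt_inv_mul_iff₀ hu, mul_one]
    exact hi
  have h4 := le_abs_self (u⁻¹ * h i)
  simp only [Module.End.one_apply, Pi.smul_apply, smul_eq_mul] at hdet
  linarith

/-- Every centrally symmetric convex body can be brought into minimal position by a linear
automorphism. -/
theorem exists_pos {n : ℕ} {K : Set (Fin n → ℝ)} (hc : Convex ℝ K) (hk : IsCompact K)
    (hi : (interior K).Nonempty) (hs : ∀ x ∈ K, -x ∈ K) :
    ∃ A : (Fin n → ℝ) ≃L[ℝ] (Fin n → ℝ), Pos (A ⁻¹' K) := by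
  classical
  -- the polar body
  have hclosed : IsClosed {f : Fin n → ℝ | Pol K f} := by
    have : {f : Fin n → ℝ | Pol K f} = ⋂ x ∈ K, {f : Fin n → ℝ | f ⬝ᵥ x ≤ 1} := by
      ext f
      simp [Pol]
    rw [this]
    apply isClosed_biInter
    intro x _
    apply isClosed_le _ continuous_const
    unfold dotProduct
    fun_prop
  obtain ⟨r, hr, hrK⟩ : ∃ r : ℝ, 0 < r ∧ ∀ i, (Pi.single i r : Fin n → ℝ) ∈ K := by
    have h0 := zero_mem_int hc hi hs
    rw [mem_interior_iff_mem_nhds, Metric.mem_nhds_iff] at h0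
    obtain ⟨e, he, hball⟩ := h0
    refine ⟨e / 2, by positivity, fun i => hball ?_⟩
    rw [Metric.mem_ball, dist_zero_right, Pi.norm_single, Real.norm_eq_abs,
      abs_of_pos (by positivity)]
    linarith
  have hbdd : Bornology.IsBounded {f : Fin n → ℝ | Pol K f} := by
    rw [Metric.isBounded_iff_subset_closedBall 0]
    refine ⟨1 / r, fun f hf => ?_⟩
    rw [Metric.mem_closedBall, dist_zero_right, pi_norm_le_iff_of_nonneg (by positivity)]
    intro i
    have h1 := pol_abs hs hf (hrK i)
    rw [dotProduct_single] at h1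
    rw [Real.norm_eq_abs, le_div_iff₀ hr]
    rwa [abs_mul, abs_of_pos hr] at h1
  have hPc : IsCompact {f : Fin n → ℝ | Pol K f} := Metric.isCompact_of_isClosed_isBounded
    hclosed hbdd
  obtain ⟨R, hR, hRK⟩ : ∃ R : ℝ, 0 < R ∧ ∀ x ∈ K, ∀ i, |x i| ≤ R := by
    obtain ⟨R, hR⟩ := hk.isBounded.subset_closedBall 0
    refine ⟨max R 1, by positivity, fun x hx i => ?_⟩
    have h1 := hR hx
    rw [Metric.mem_closedBall, dist_zero_right] at h1
    exact ((norm_le_pi_norm x i).trans h1).trans (le_max_left _ _)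
  set S : Set (Fin n → Fin n → ℝ) := Set.pi univ (fun _ => {f : Fin n → ℝ | Pol K f}) with hS
  have hSc : IsCompact S := isCompact_univ_pi (fun _ => hPc)
  have hne : (fun i => Pi.single i R⁻¹ : Fin n → Fin n → ℝ) ∈ S := by
    intro i _ x hx
    rw [single_dotProduct]
    have h1 := le_trans (le_abs_self _) (hRK x hx i)
    rw [inv_mul_le_iff₀ hR, mul_one]
    exact h1
  obtain ⟨M, hM, hmax⟩ := hSc.exists_isMaxOn ⟨_, hne⟩
    (f := fun M => |(Matrix.of M).det|) (by
      apply Continuous.continuousOn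
      apply Continuous.abs
      apply Continuous.matrix_det
      exact continuous_id)
  have hdet : 0 < |(Matrix.of M).det| := by
    have h1 : |(Matrix.of (fun i => Pi.single i R⁻¹ : Fin n → Fin n → ℝ)).det| ≤
      |(Matrix.of M).det| := hmax hne
    have h2 : (Matrix.of (fun i => Pi.single i R⁻¹ : Fin n → Fin n → ℝ)) =
        Matrix.diagonal (fun _ => R⁻¹) := by
      ext i j
      rw [Matrix.of_apply, Matrix.diagonal_apply, Pi.single_apply]
      simp [eq_comm]
    rw [h2, Matrix.det_diagonal] at h1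
    refine lt_of_lt_of_le ?_ h1
    rw [abs_pos, Finset.prod_ne_zero_iff]
    intro i _
    exact inv_ne_zero hR.ne'
  have hdet0 : IsUnit (Matrix.of M).det := isUnit_iff_ne_zero.mpr (abs_pos.mp hdet)
  let _ : Invertible (Matrix.of M) := Matrix.invertibleOfIsUnitDet _ hdet0
  set B : (Fin n → ℝ) ≃ₗ[ℝ] (Fin n → ℝ) := Matrix.toLinearEquiv' (Matrix.of M) inferInstance
    with hB
  have hBa : ∀ x, B x = (Matrix.of M).mulVec x := by
    intro x
    rfl
  set A : (Fin n → ℝ) ≃L[ℝ] (Fin n → ℝ) := B.symm.toContinuousLinearEquiv with hA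
  have hAB : ∀ x, A (B x) = x := fun x => B.symm_apply_apply x
  have hBA : ∀ u, B (A u) = u := fun u => B.apply_symm_apply u
  refine ⟨A, ?_, ?_, ?_, ?_, ?_, ?_⟩
  · exact hc.linear_preimage (A : (Fin n → ℝ) →ₗ[ℝ] (Fin n → ℝ))
  · exact A.toHomeomorph.isCompact_preimage.mpr hk
  · have : interior (A ⁻¹' K) = A ⁻¹' interior K := (A.toHomeomorph.preimage_interior K).symm
    rw [this]
    obtain ⟨a, ha⟩ := hi
    exact ⟨B a, by rw [mem_preimage, hAB]; exact ha⟩
  · intro x hx
    rw [mem_preimage] at hx ⊢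
    rw [map_neg]
    exact hs _ hx
  · intro i u hu
    rw [mem_preimage] at hu
    rw [single_one_dotProduct]
    have h1 : u i = M i ⬝ᵥ (A u) := by
      conv_lhs => rw [← hBA u, hBa]
      rfl
    rw [h1]
    exact hM i (mem_univ _) _ hu
  · intro F hF
    have h1 : (F * Matrix.of M : Matrix (Fin n) (Fin n) ℝ) ∈ S := by
      intro i _ x hx
      have h2 : (F * Matrix.of M) i ⬝ᵥ x = F i ⬝ᵥ (B x) := by
        have h3 : ((F * Matrix.of M).mulVec x) i = (F.mulVec (B x)) i := by
          rw [hBa, Matrix.mulVec_mulVec]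
        exact h3
      rw [h2]
      apply hF i
      rw [mem_preimage, hAB]
      exact hx
    have h2 : |(Matrix.of (F * Matrix.of M : Matrix (Fin n) (Fin n) ℝ)).det| ≤
      |(Matrix.of M).det| := hmax h1
    have h3 : (Matrix.of (F * Matrix.of M : Matrix (Fin n) (Fin n) ℝ)) = F * Matrix.of M := rfl
    rw [h3, Matrix.det_mul, abs_mul] at h2
    by_contra hcon
    push Not at hcon
    have := mul_lt_mul_of_pos_right hcon hdet
    linarith


theorem det_two_rows {n : ℕ} (f g : Fin n → ℝ) (i j : Fin n) (hij : i ≠ j) :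
    (((1 : Matrix (Fin n) (Fin n) ℝ).updateRow i f).updateRow j g).det = f i * g j - f j * g i := by
  classical
  set A : Matrix (Fin n) (Fin n) ℝ := (1 : Matrix (Fin n) (Fin n) ℝ).updateRow i f with hA
  have hAj : A j = Pi.single j 1 := by
    rw [hA, Matrix.updateRow_ne hij.symm]
    ext k
    rw [Matrix.one_apply, Pi.single_apply]
    simp [eq_comm]
  have hdetA : A.det = f i := by
    rw [hA, ← Matrix.cramer_transpose_apply, Matrix.transpose_one, Matrix.cramer_one]
    rfl
  have hg : g = ∑ k, g k • (Pi.single k (1 : ℝ) : Fin n → ℝ) := by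
    ext l
    simp [Finset.sum_apply, Pi.single_apply]
  have hterm : ∀ k, (A.updateRow j (Pi.single k (1 : ℝ))).det =
      if k = j then f i else if k = i then - f j else 0 := by
    intro k
    by_cases hk : k = j
    · subst hk
      rw [if_pos rfl, ← hAj, Matrix.updateRow_eq_self, hdetA]
    · rw [if_neg hk]
      by_cases hki : k = i
      · subst hki
        rw [if_pos rfl]
        -- rows k: f, row j: e_k
        have h1 : A.updateRow j (Pi.single k (1 : ℝ)) =
            ((1 : Matrix (Fin n) (Fin n) ℝ).updateRow j f).submatrix (Equiv.swap k j) id := by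
          ext a b
          rw [Matrix.submatrix_apply, id]
          by_cases ha : a = j
          · subst ha
            rw [Matrix.updateRow_self, Equiv.swap_apply_right, Matrix.updateRow_ne hij,
              Matrix.one_apply, Pi.single_apply]
            simp [eq_comm]
          · rw [Matrix.updateRow_ne ha]
            by_cases hak : a = k
            · subst hak
              rw [hA, Matrix.updateRow_self, Equiv.swap_apply_left, Matrix.updateRow_self]
            · rw [hA, Matrix.updateRow_ne hak, Equiv.swap_apply_of_ne_of_ne hak ha,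
                Matrix.updateRow_ne ha]
        rw [h1, Matrix.det_permute, Equiv.Perm.sign_swap hij, ← Matrix.cramer_transpose_apply,
          Matrix.transpose_one, Matrix.cramer_one]
        simp
      · rw [if_neg hki]
        apply Matrix.det_zero_of_row_eq (i := j) (j := k) (Ne.symm hk)
        rw [Matrix.updateRow_self, Matrix.updateRow_ne hk, hA, Matrix.updateRow_ne hki]
        ext l
        rw [Matrix.one_apply, Pi.single_apply]
        simp [eq_comm]
  rw [← Matrix.cramer_transpose_apply]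
  conv_lhs => rw [hg]
  rw [map_sum, Finset.sum_apply]
  have h2 : ∀ k, (Matrix.cramer A.transpose) (g k • (Pi.single k (1 : ℝ) : Fin n → ℝ)) j =
      g k * (if k = j then f i else if k = i then - f j else 0) := by
    intro k
    rw [map_smul, Pi.smul_apply, Matrix.cramer_transpose_apply, hterm, smul_eq_mul]
  rw [Finset.sum_congr rfl (fun k _ => h2 k)]
  rw [Finset.sum_eq_add_of_mem j i (Finset.mem_univ _) (Finset.mem_univ _) hij.symm]
  · rw [if_pos rfl, if_neg hij, if_pos rfl]
    ring
  · intro k _ hk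
    rw [if_neg hk.1, if_neg hk.2, mul_zero]

theorem Pos.minor {n : ℕ} {K : Set (Fin n → ℝ)} (hK : Pos K) {f g : Fin n → ℝ} (hf : Pol K f)
    (hg : Pol K g) {i j : Fin n} (hij : i ≠ j) : |f i * g j - f j * g i| ≤ 1 := by
  rw [← det_two_rows f g i j hij]
  apply hK.det_le
  intro k
  by_cases hk : k = j
  · subst hk
    rw [Matrix.updateRow_self]
    exact hg
  · rw [Matrix.updateRow_ne hk]
    by_cases hki : k = i
    · subst hki
      rw [Matrix.updateRow_self]
      exact hf
    · rw [Matrix.updateRow_ne hki]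
      have h2 : (1 : Matrix (Fin n) (Fin n) ℝ) k = Pi.single k 1 := by
        ext l
        rw [Matrix.one_apply, Pi.single_apply]
        simp [eq_comm]
      rw [h2]
      exact hK.coord k

end Pool.Agent.Hadwiger.MinVol
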