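import Mathlib
import Pool.Agent.Hadwiger.MinVol

set_option autoImplicit false

/-!
Lighting a centrally symmetric convex body of `ℝ^4` in minimal position by a fixed finite set of
directions. The hypotheses on the set of rays are `SquareCov` and `AxisCov`.
-/

namespace Pool.Agent.Hadwiger.MinVol

open Set Filter Topology

/-- every point of a two-dimensional face of the cube `[-1,1]^4` is at `ℓ¹`-distance `< 1` of an
(open) ray of the family `w`. -/
def SquareCov {N : ℕ} (w : Fin N → Fin 4 → ℝ) : Prop :=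
  ∀ z : Fin 4 → ℝ, (∀ i, |z i| ≤ 1) → ∀ i j : Fin 4, i ≠ j → |z i| = 1 → |z j| = 1 →
    ∃ (k : Fin N) (t : ℝ), 0 < t ∧ ∑ m, |z m - t * w k m| < 1

/-- the condition used at the points `±e_i`: `κ` records the ranges `[-κ_j, 1 - κ_j]` of the
coordinates of the normalised normals. -/
def AxisCov {N : ℕ} (w : Fin N → Fin 4 → ℝ) : Prop :=
  ∀ i : Fin 4, ∀ s : ℝ, |s| = 1 → ∀ κ : Fin 4 → ℝ, (∀ j, 0 ≤ κ j ∧ κ j ≤ 1) →
    ∃ k : Fin N, ∑ j, (if j = i then 0 else w k j * κ j + max 0 (-w k j)) < s * w k i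

theorem normal_bound {n : ℕ} {K : Set (Fin n → ℝ)} (hK : Pos K) {x h : Fin n → ℝ}
    (hN : IsN K x h) (i : Fin n) : |h i| ≤ h ⬝ᵥ x := by
  rw [abs_le]
  have h1 := hN _ (hK.single_mem i)
  have h2 := hN _ (hK.symm _ (hK.single_mem i))
  rw [dotProduct_neg, dotProduct_single_one] at h2
  rw [dotProduct_single_one] at h1
  constructor <;> linarith

theorem normal_pos {n : ℕ} {K : Set (Fin n → ℝ)} (hK : Pos K) {x h : Fin n → ℝ}
    (hN : IsN K x h) (hh : h ≠ 0) : 0 < h ⬝ᵥ x := by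
  obtain ⟨i, hi⟩ := Function.ne_iff.mp hh
  have h1 := normal_bound hK hN i
  have h2 : 0 < |h i| := abs_pos.mpr hi
  linarith

theorem pos_of_l1 {n : ℕ} {K : Set (Fin n → ℝ)} (hK : Pos K) {x h w : Fin n → ℝ}
    (hN : IsN K x h) (hh : h ≠ 0) {t : ℝ} (ht : 0 < t) (hd : ∑ m, |x m - t * w m| < 1) :
    0 < h ⬝ᵥ w := by
  have hM := normal_pos hK hN hh
  have h1 : h ⬝ᵥ x - t * (h ⬝ᵥ w) ≤ (h ⬝ᵥ x) * ∑ m, |x m - t * w m| := by
    have h2 : h ⬝ᵥ x - t * (h ⬝ᵥ w) = ∑ m, h m * (x m - t * w m) := by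
      unfold dotProduct
      rw [Finset.mul_sum, ← Finset.sum_sub_distrib]
      apply Finset.sum_congr rfl
      intro m _
      ring
    rw [h2, Finset.mul_sum]
    apply Finset.sum_le_sum
    intro m _
    calc h m * (x m - t * w m) ≤ |h m * (x m - t * w m)| := le_abs_self _
      _ = |h m| * |x m - t * w m| := abs_mul _ _
      _ ≤ (h ⬝ᵥ x) * |x m - t * w m| :=
        mul_le_mul_of_nonneg_right (normal_bound hK hN m) (abs_nonneg _)
  have h3 : (h ⬝ᵥ x) * ∑ m, |x m - t * w m| < h ⬝ᵥ x := by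
    have := mul_lt_mul_of_pos_left hd hM
    rwa [mul_one] at this
  have h4 : 0 < t * (h ⬝ᵥ w) := by linarith
  exact (mul_pos_iff_of_pos_left ht).mp h4

/-- reduction of the cube to its two-dimensional faces -/
theorem l1_of_square {N : ℕ} {w : Fin N → Fin 4 → ℝ} (hw : SquareCov w) {x : Fin 4 → ℝ}
    (hx : ∀ i, |x i| ≤ 1) {i j : Fin 4} (hij : i ≠ j) (hi : ∀ m, |x m| ≤ |x i|)
    (hj : ∀ m, m ≠ i → |x m| ≤ |x j|) (hj0 : x j ≠ 0) :
    ∃ (k : Fin N) (t : ℝ), 0 < t ∧ ∑ m, |x m - t * w k m| < 1 := by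
  have hb : 0 < |x j| := abs_pos.mpr hj0
  have hxi : 0 < |x i| := lt_of_lt_of_le hb (hi j)
  have hxi0 : x i ≠ 0 := abs_pos.mp hxi
  set z : Fin 4 → ℝ := fun m => if m = i then x i / |x i| else x m / |x j| with hz
  have hzi : z i = x i / |x i| := by simp [hz]
  have hzm : ∀ m, m ≠ i → z m = x m / |x j| := by
    intro m hm
    simp [hz, hm]
  have hzi1 : |z i| = 1 := by
    rw [hzi, abs_div, abs_abs, div_self hxi.ne']
  have hzj1 : |z j| = 1 := by
    rw [hzm j hij.symm, abs_div, abs_abs, div_self hb.ne']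
  have hz1 : ∀ m, |z m| ≤ 1 := by
    intro m
    by_cases hm : m = i
    · rw [hm, hzi1]
    · rw [hzm m hm, abs_div, abs_abs, div_le_one hb]
      exact hj m hm
  obtain ⟨k, t, ht, hs⟩ := hw z hz1 i j hij hzi1 hzj1
  refine ⟨k, t * |x j|, by positivity, ?_⟩
  have hterm : ∀ m, |x m - t * |x j| * w k m| ≤
      |x j| * |z m - t * w k m| + if m = i then |x i| - |x j| else 0 := by
    intro m
    by_cases hm : m = i
    · subst hm
      rw [if_pos rfl]
      have h1 : x m - t * |x j| * w k m = |x j| * (z m - t * w k m) + (|x m| - |x j|) * z m := by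
        have h2 : x m = |x m| * z m := by
          rw [hzi]
          field_simp
        linear_combination h2
      rw [h1]
      refine (abs_add_le _ _).trans ?_
      rw [abs_mul, abs_mul, abs_abs, hzi1, mul_one, abs_of_nonneg (sub_nonneg.mpr (hi j))]
    · rw [if_neg hm, add_zero]
      have h1 : x m - t * |x j| * w k m = |x j| * (z m - t * w k m) := by
        rw [hzm m hm]
        field_simp
      rw [h1, abs_mul, abs_abs]
  calc ∑ m, |x m - t * |x j| * w k m|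
      ≤ ∑ m, (|x j| * |z m - t * w k m| + if m = i then |x i| - |x j| else 0) :=
        Finset.sum_le_sum (fun m _ => hterm m)
    _ = |x j| * ∑ m, |z m - t * w k m| + (|x i| - |x j|) := by
        rw [Finset.sum_add_distrib, ← Finset.mul_sum, Finset.sum_ite_eq' Finset.univ i,
          if_pos (Finset.mem_univ i)]
    _ < |x j| * 1 + (|x i| - |x j|) := by
        have := mul_lt_mul_of_pos_left hs hb
        linarith
    _ = |x i| := by ring
    _ ≤ 1 := hx i

theorem lit_axis {N : ℕ} {w : Fin N → Fin 4 → ℝ} (hw : AxisCov w) {K : Set (Fin 4 → ℝ)}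
    (hK : Pos K) {s : ℝ} (hs : |s| = 1) (i : Fin 4) :
    ∃ k : Fin N, ∀ h : Fin 4 → ℝ, h ≠ 0 → IsN K (Pi.single i s) h → 0 < h ⬝ᵥ w k := by
  have hss : s * s = 1 := by
    have := abs_mul_abs_self s
    rw [hs] at this
    linarith
  set e : Fin 4 → ℝ := Pi.single i s with he
  -- ranges of the coordinates of normalised normals
  have hex : ∀ j, ∃ c : ℝ, (0 ≤ c ∧ c ≤ 1) ∧ (j ≠ i → ∀ h : Fin 4 → ℝ, h ≠ 0 → IsN K e h →
      -c * (h ⬝ᵥ e) ≤ h j ∧ h j ≤ (1 - c) * (h ⬝ᵥ e)) := by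
    intro j
    by_cases hji : j = i
    · exact ⟨0, ⟨le_refl _, zero_le_one⟩, fun h => absurd hji h⟩
    set S : Set ℝ := {r | ∃ h : Fin 4 → ℝ, h ≠ 0 ∧ IsN K e h ∧ r = (h ⬝ᵥ e)⁻¹ * h j} with hS
    have hSb : ∀ r ∈ S, -1 ≤ r ∧ r ≤ 1 := by
      rintro r ⟨h, hh, hN, rfl⟩
      have hM := normal_pos hK hN hh
      have hb := abs_le.mp (normal_bound hK hN j)
      constructor
      · rw [le_inv_mul_iff₀ hM]; linarith
      · rw [inv_mul_le_iff₀ hM]; linarith
    have hdiff : ∀ r ∈ S, ∀ r' ∈ S, r' ≤ r + 1 := by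
      rintro r ⟨h₀, hh₀, hN₀, rfl⟩ r' ⟨h, hh, hN, rfl⟩
      have hM0 := normal_pos hK hN₀ hh₀
      have hM := normal_pos hK hN hh
      have hpol : ∀ (g : Fin 4 → ℝ), IsN K e g → 0 < g ⬝ᵥ e → Pol K ((g ⬝ᵥ e)⁻¹ • g) := by
        intro g hg hpos x hx
        rw [smul_dotProduct, smul_eq_mul, inv_mul_le_iff₀ hpos, mul_one]
        exact hg x hx
      have hmin := hK.minor (hpol h₀ hN₀ hM0) (hpol h hN hM) (Ne.symm hji)
      have hi0 : (h₀ ⬝ᵥ e)⁻¹ * h₀ i = s := by
        rw [inv_mul_eq_iff_eq_mul₀ hM0.ne', he, dotProduct_single]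
        linear_combination (-(h₀ i)) * hss
      have hi1 : (h ⬝ᵥ e)⁻¹ * h i = s := by
        rw [inv_mul_eq_iff_eq_mul₀ hM.ne', he, dotProduct_single]
        linear_combination (-(h i)) * hss
      simp only [Pi.smul_apply, smul_eq_mul] at hmin
      rw [hi0, hi1] at hmin
      have h4 : |s * ((h ⬝ᵥ e)⁻¹ * h j) - (h₀ ⬝ᵥ e)⁻¹ * h₀ j * s| =
          |(h ⬝ᵥ e)⁻¹ * h j - (h₀ ⬝ᵥ e)⁻¹ * h₀ j| := by
        have : s * ((h ⬝ᵥ e)⁻¹ * h j) - (h₀ ⬝ᵥ e)⁻¹ * h₀ j * s =
          s * ((h ⬝ᵥ e)⁻¹ * h j - (h₀ ⬝ᵥ e)⁻¹ * h₀ j) := by ring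
        rw [this, abs_mul, hs, one_mul]
      rw [h4] at hmin
      have h5 := (abs_le.mp hmin).2
      linarith
    have hbdd : BddBelow S := ⟨-1, fun r hr => (hSb r hr).1⟩
    by_cases hne : S.Nonempty
    · have hc1 : -1 ≤ sInf S := le_csInf hne (fun r hr => (hSb r hr).1)
      refine ⟨max 0 (-sInf S), ⟨le_max_left _ _, max_le zero_le_one (by linarith)⟩,
        fun _ h hh hN => ?_⟩
      have hM := normal_pos hK hN hh
      have hmem : (h ⬝ᵥ e)⁻¹ * h j ∈ S := ⟨h, hh, hN, rfl⟩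
      have h1 : sInf S ≤ (h ⬝ᵥ e)⁻¹ * h j := csInf_le hbdd hmem
      have h2 : (h ⬝ᵥ e)⁻¹ * h j ≤ sInf S + 1 := by
        have : (h ⬝ᵥ e)⁻¹ * h j - 1 ≤ sInf S := by
          apply le_csInf hne
          intro r hr
          linarith [hdiff r hr _ hmem]
        linarith
      have h3 := (hSb _ hmem).2
      rw [le_inv_mul_iff₀ hM] at h1
      rw [inv_mul_le_iff₀ hM] at h2 h3
      constructor
      · have := le_max_right (0 : ℝ) (-sInf S)
        nlinarith [mul_le_mul_of_nonneg_right this hM.le]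
      · rcases le_total 0 (-sInf S) with h4 | h4
        · rw [max_eq_right h4]; linarith
        · rw [max_eq_left h4]; linarith
    · refine ⟨0, ⟨le_refl _, zero_le_one⟩, fun _ h hh hN => ?_⟩
      exact absurd ⟨_, h, hh, hN, rfl⟩ hne
  choose κ hκ1 hκ2 using hex
  obtain ⟨k, hk⟩ := hw i s hs κ hκ1
  refine ⟨k, fun h hh hN => ?_⟩
  have hM := normal_pos hK hN hh
  have hhi : h i = s * (h ⬝ᵥ e) := by
    rw [he, dotProduct_single]; linear_combination (-(h i)) * hss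
  set M := h ⬝ᵥ e with hMdef
  have h5 : h ⬝ᵥ w k ≥ ∑ j, (M * (if j = i then s * w k i else 0) -
      M * (if j = i then 0 else w k j * κ j + max 0 (-w k j))) := by
    unfold dotProduct
    apply Finset.sum_le_sum
    intro j _
    by_cases hj : j = i
    · subst hj
      rw [if_pos rfl, if_pos rfl, hhi]
      linarith
    · rw [if_neg hj, if_neg hj]
      obtain ⟨h6, h7⟩ := hκ2 j hj h hh hN
      rcases le_total 0 (w k j) with h8 | h8
      · rw [max_eq_left (by linarith)]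
        nlinarith [mul_le_mul_of_nonneg_right h6 h8]
      · rw [max_eq_right (by linarith)]
        nlinarith [mul_le_mul_of_nonpos_right h7 h8]
  rw [Finset.sum_sub_distrib, ← Finset.mul_sum, ← Finset.mul_sum, Finset.sum_ite_eq',
    if_pos (Finset.mem_univ i)] at h5
  have h6 := mul_lt_mul_of_pos_left hk hM
  linarith

/-- a body in minimal position is lit by the directions `-w k`. -/
theorem lit_all {N : ℕ} {w : Fin N → Fin 4 → ℝ} (hw : SquareCov w) (hw2 : AxisCov w)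
    {K : Set (Fin 4 → ℝ)} (hK : Pos K) {x : Fin 4 → ℝ} (hx : x ∈ K) :
    ∃ k : Fin N, ∃ ε : ℝ, 0 < ε ∧ x + ε • (-(w k)) ∈ interior K := by
  suffices h : ∃ k : Fin N, ∀ h : Fin 4 → ℝ, h ≠ 0 → IsN K x h → 0 < h ⬝ᵥ w k by
    obtain ⟨k, hk⟩ := h
    refine ⟨k, lit_of_normals hK.conv hK.int _ ?_⟩
    intro h hh hN
    rw [dotProduct_neg]
    have := hk h hh hN
    linarith
  obtain ⟨i, -, hi⟩ := Finset.exists_max_image Finset.univ (fun m => |x m|)
    ⟨(0 : Fin 4), Finset.mem_univ _⟩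
  have hi' : ∀ m, |x m| ≤ |x i| := fun m => hi m (Finset.mem_univ m)
  obtain ⟨j, hj, hj'⟩ := Finset.exists_max_image (Finset.univ.erase i) (fun m => |x m|) (by
    refine ⟨i + 1, ?_⟩
    rw [Finset.mem_erase]
    have h4 : ∀ i : Fin 4, i + 1 ≠ i := by decide
    exact ⟨h4 i, Finset.mem_univ _⟩)
  have hji : j ≠ i := (Finset.mem_erase.mp hj).1
  have hj'' : ∀ m, m ≠ i → |x m| ≤ |x j| := fun m hm =>
    hj' m (Finset.mem_erase.mpr ⟨hm, Finset.mem_univ m⟩)
  by_cases hj0 : x j = 0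
  · -- multiple of a coordinate vector
    have hxm : ∀ m, m ≠ i → x m = 0 := by
      intro m hm
      have := hj'' m hm
      rw [hj0, abs_zero] at this
      exact abs_eq_zero.mp (le_antisymm this (abs_nonneg _))
    have hxs : x = Pi.single i (x i) := by
      ext m
      rw [Pi.single_apply]
      by_cases hm : m = i
      · rw [if_pos hm, hm]
      · rw [if_neg hm, hxm m hm]
    by_cases h1 : |x i| = 1
    · rw [hxs]
      have hxi : Pi.single i (x i) ∈ K := by rw [← hxs]; exact hx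
      simpa using lit_axis hw2 hK (s := x i) h1 i
    · have hlt : |x i| < 1 := lt_of_le_of_ne (hK.le_one hx i) h1
      obtain ⟨k₀, _⟩ := lit_axis hw2 hK (s := 1) (by norm_num) i
      refine ⟨k₀, fun h hh hN => ?_⟩
      exfalso
      have hM := normal_pos hK hN hh
      have hb := normal_bound hK hN i
      have h2 : h ⬝ᵥ x = h i * x i := by
        conv_lhs => rw [hxs]
        rw [dotProduct_single]
      have h3 : h i * x i ≤ |h i| * |x i| := by
        rw [← abs_mul]; exact le_abs_self _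
      have h4 : |h i| * |x i| ≤ (h ⬝ᵥ x) * |x i| := mul_le_mul_of_nonneg_right hb (abs_nonneg _)
      have h5 : (h ⬝ᵥ x) * |x i| < (h ⬝ᵥ x) * 1 := mul_lt_mul_of_pos_left hlt hM
      linarith
  · obtain ⟨k, t, ht, hs⟩ := l1_of_square hw (fun m => hK.le_one hx m) hji.symm hi' hj'' hj0
    exact ⟨k, fun h hh hN => pos_of_l1 hK hN hh ht hs⟩

/-- the bound in coordinates -/
theorem cover_sym {N : ℕ} {w : Fin N → Fin 4 → ℝ} (hw : SquareCov w) (hw2 : AxisCov w)
    {K : Set (Fin 4 → ℝ)} (hc : Convex ℝ K) (hk : IsCompact K) (hi : (interior K).Nonempty)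
    (hs : ∀ x ∈ K, -x ∈ K) :
    ∃ T : Finset (Fin 4 → ℝ), T.card ≤ N ∧ K ⊆ ⋃ t ∈ T, (fun x => t + x) '' interior K := by
  classical
  obtain ⟨A, hA⟩ := exists_pos hc hk hi hs
  apply cover_transfer A 0 N K
  have h0 : (A.toHomeomorph.trans (Homeomorph.addRight (0 : Fin 4 → ℝ))) ⁻¹' K = A ⁻¹' K := by
    ext x
    simp
  rw [h0]
  obtain ⟨T, hT, hcov⟩ := cover_of_lit hA.conv hA.comp
    (Finset.univ.image (fun k => -(w k))) (by
      intro x hx
      obtain ⟨k, ε, hε, h1⟩ := lit_all hw hw2 hA hx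
      exact ⟨_, Finset.mem_image.mpr ⟨k, Finset.mem_univ k, rfl⟩, ε, hε, h1⟩)
  refine ⟨T, hT.trans (Finset.card_image_le.trans ?_), hcov⟩
  simp

end Pool.Agent.Hadwiger.MinVol
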