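import Mathlib
import Pool.Agent.Hadwiger.Sym4Core

set_option autoImplicit false

/-!
A small checker (decision trees with integer data) for the two covering conditions `SquareCov` and
`AxisCov`.
-/

namespace Pool.Agent.Hadwiger.MinVol

/-- decision trees in the plane -/
inductive CTree where
  | out : CTree
  | leaf (k n : ℕ) : CTree
  | nu (c : ℤ) (s t : CTree) : CTree
  | nv (c : ℤ) (s t : CTree) : CTree

/-- absolute value, in a form that evaluates quickly -/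
def iabs (x : ℤ) : ℤ := (x.natAbs : ℤ)

theorem cast_iabs (x : ℤ) : ((iabs x : ℤ) : ℝ) = |(x : ℝ)| := by
  unfold iabs
  rw [← Int.abs_eq_natAbs, Int.cast_abs]

/-- half side of the square belonging to the scaled ray -/
def rad (D : ℤ) (P : ℤ × ℤ × ℤ × ℤ) (n : ℕ) : ℤ :=
  D - iabs (D - n * P.1) - iabs (D - n * P.2.1)

/-- the check of a tree on the rectangle `[a,b] × [c,d]` -/
def CTree.check (N : ℕ) (P : ℕ → ℤ × ℤ × ℤ × ℤ) (D : ℤ) : CTree → ℤ → ℤ → ℤ → ℤ → Bool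
  | .out, a, b, c, d =>
    decide (2 * D < a + c) || (decide (2 * D < a - d) || (decide (2 * D < c - b) ||
      decide (2 * D < -b - d)))
  | .leaf k n, a, b, c, d =>
    decide (k < N) && (decide (0 < n) &&
      (decide ((n : ℤ) * (P k).2.2.1 - rad D (P k) n < a) &&
      (decide (b < (n : ℤ) * (P k).2.2.1 + rad D (P k) n) &&
      (decide ((n : ℤ) * (P k).2.2.2 - rad D (P k) n < c) &&
      decide (d < (n : ℤ) * (P k).2.2.2 + rad D (P k) n)))))
  | .nu x s t, a, b, c, d => s.check N P D a x c d && t.check N P D x b c d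
  | .nv x s t, a, b, c, d => s.check N P D a b c x && t.check N P D a b x d

theorem CTree.sound (N : ℕ) (P : ℕ → ℤ × ℤ × ℤ × ℤ) (D : ℤ) (T : CTree) :
    ∀ a b c d : ℤ, T.check N P D a b c d = true → ∀ U V : ℝ, (a : ℝ) ≤ U → U ≤ b → (c : ℝ) ≤ V →
      V ≤ d → |U| + |V| ≤ 2 * D →
      ∃ k n : ℕ, k < N ∧ 0 < n ∧ |U - n * ((P k).2.2.1 : ℝ)| < (rad D (P k) n : ℝ) ∧
        |V - n * ((P k).2.2.2 : ℝ)| < (rad D (P k) n : ℝ) := by
  induction T with
  | out =>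
    intro a b c d h U V h1 h2 h3 h4 h5
    exfalso
    simp only [CTree.check, Bool.or_eq_true, decide_eq_true_eq] at h
    have hU := le_abs_self U
    have hU' := neg_abs_le U
    have hV := le_abs_self V
    have hV' := neg_abs_le V
    rcases h with h | h | h | h
    · have h' : (2 * D : ℝ) < a + c := by exact_mod_cast h
      linarith
    · have h' : (2 * D : ℝ) < a - d := by exact_mod_cast h
      linarith
    · have h' : (2 * D : ℝ) < c - b := by exact_mod_cast h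
      linarith
    · have h' : (2 * D : ℝ) < -b - d := by exact_mod_cast h
      linarith
  | leaf k n =>
    intro a b c d h U V h1 h2 h3 h4 h5
    simp only [CTree.check, Bool.and_eq_true, decide_eq_true_eq] at h
    obtain ⟨hk, hn, e1, e2, e3, e4⟩ := h
    refine ⟨k, n, hk, hn, ?_, ?_⟩
    · have e1' : (n * ((P k).2.2.1 : ℝ) - (rad D (P k) n : ℝ)) < a := by exact_mod_cast e1
      have e2' : (b : ℝ) < (n * ((P k).2.2.1 : ℝ) + (rad D (P k) n : ℝ)) := by exact_mod_cast e2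
      rw [abs_lt]
      constructor <;> linarith
    · have e3' : (n * ((P k).2.2.2 : ℝ) - (rad D (P k) n : ℝ)) < c := by exact_mod_cast e3
      have e4' : (d : ℝ) < (n * ((P k).2.2.2 : ℝ) + (rad D (P k) n : ℝ)) := by exact_mod_cast e4
      rw [abs_lt]
      constructor <;> linarith
  | nu x s t ihs iht =>
    intro a b c d h U V h1 h2 h3 h4 h5
    simp only [CTree.check, Bool.and_eq_true] at h
    rcases le_total U (x : ℝ) with h6 | h6
    · exact ihs a x c d h.1 U V h1 h6 h3 h4 h5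
    · exact iht x b c d h.2 U V h6 h2 h3 h4 h5
  | nv x s t ihs iht =>
    intro a b c d h U V h1 h2 h3 h4 h5
    simp only [CTree.check, Bool.and_eq_true] at h
    rcases le_total V (x : ℝ) with h6 | h6
    · exact ihs a b c x h.1 U V h1 h2 h3 h6 h5
    · exact iht a b x d h.2 U V h1 h2 h6 h4 h5

/-- component of an integer vector -/
def rc (R : List (ℤ × ℤ × ℤ × ℤ)) (k m : ℕ) : ℤ :=
  match m with
  | 0 => (R.getD k (0, 0, 0, 0)).1
  | 1 => (R.getD k (0, 0, 0, 0)).2.1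
  | 2 => (R.getD k (0, 0, 0, 0)).2.2.1
  | _ => (R.getD k (0, 0, 0, 0)).2.2.2

/-- the family of rays given by a list of integer vectors -/
def rays (R : List (ℤ × ℤ × ℤ × ℤ)) (k : Fin R.length) (m : Fin 4) : ℝ := ((rc R k m : ℤ) : ℝ)

/-- check of one two-dimensional face -/
def sqcheck (R : List (ℤ × ℤ × ℤ × ℤ)) (D : ℤ) (i j k l : ℕ) (si sj : ℤ) (T : CTree) : Bool :=
  T.check R.length (fun n => (si * rc R n i, sj * rc R n j, rc R n k + rc R n l,
    rc R n k - rc R n l)) D (-(2 * D)) (2 * D) (-(2 * D)) (2 * D)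

theorem abs_add_abs_lt {x y r : ℝ} (h1 : |x + y| < r) (h2 : |x - y| < r) : |x| + |y| < r := by
  rw [abs_lt] at h1 h2
  rcases abs_cases x with ⟨h3, _⟩ | ⟨h3, _⟩ <;> rcases abs_cases y with ⟨h4, _⟩ | ⟨h4, _⟩ <;>
    rw [h3, h4] <;> linarith

theorem sq_sound (R : List (ℤ × ℤ × ℤ × ℤ)) (D : ℤ) (hD : 0 < D) (i j k l : Fin 4)
    (hs : ∀ f : Fin 4 → ℝ, ∑ m, f m = f i + f j + f k + f l) (si sj : ℤ) (hsi : si * si = 1)
    (hsj : sj * sj = 1) (T : CTree) (h : sqcheck R D i j k l si sj T = true) (z : Fin 4 → ℝ)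
    (hz : ∀ m, |z m| ≤ 1) (hi : z i = si) (hj : z j = sj) :
    ∃ (q : Fin R.length) (t : ℝ), 0 < t ∧ ∑ m, |z m - t * rays R q m| < 1 := by
  have hDr : (0 : ℝ) < D := by exact_mod_cast hD
  set U : ℝ := D * (z k + z l) with hU
  set V : ℝ := D * (z k - z l) with hV
  have hk := abs_le.mp (hz k)
  have hl := abs_le.mp (hz l)
  have hUV : |U| + |V| ≤ 2 * D := by
    rw [hU, hV, abs_mul, abs_mul, abs_of_pos hDr, ← mul_add]
    have h1 : |z k + z l| + |z k - z l| ≤ 2 := by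
      rcases abs_cases (z k + z l) with ⟨h3, _⟩ | ⟨h3, _⟩ <;>
        rcases abs_cases (z k - z l) with ⟨h4, _⟩ | ⟨h4, _⟩ <;> rw [h3, h4] <;> linarith
    nlinarith
  have hUa := abs_le.mp (show |U| ≤ 2 * D by linarith [abs_nonneg V])
  have hVa := abs_le.mp (show |V| ≤ 2 * D by linarith [abs_nonneg U])
  obtain ⟨q, n, hq, hn, h1, h2⟩ := CTree.sound _ _ D T _ _ _ _ h U V (by push_cast; linarith [hUa.1])
    (by push_cast; linarith [hUa.2]) (by push_cast; linarith [hVa.1])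
    (by push_cast; linarith [hVa.2]) hUV
  have hnr : (0 : ℝ) < n := by exact_mod_cast hn
  refine ⟨⟨q, hq⟩, n / D, by positivity, ?_⟩
  rw [hs]
  have hsir : (si : ℝ) * si = 1 := by exact_mod_cast hsi
  have hsjr : (sj : ℝ) * sj = 1 := by exact_mod_cast hsj
  have habs : ∀ s : ℝ, s * s = 1 → |s| = 1 := by
    intro s hs
    have := abs_mul_abs_self s
    rw [hs] at this
    nlinarith [abs_nonneg s]
  have hr : ∀ m, rays R ⟨q, hq⟩ m = ((rc R q m : ℤ) : ℝ) := fun m => rfl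
  have hA : |z i - n / D * rays R ⟨q, hq⟩ i| = |(D : ℝ) - n * (si * (rc R q i : ℝ))| / D := by
    have h3 : z i - n / D * rays R ⟨q, hq⟩ i =
        si * (((D : ℝ) - n * (si * (rc R q i : ℝ))) / D) := by
      rw [hi, hr]
      field_simp
      linear_combination ((n : ℝ) * (rc R q i : ℝ)) * hsir
    rw [h3, abs_mul, habs _ hsir, one_mul, abs_div, abs_of_pos hDr]
  have hB : |z j - n / D * rays R ⟨q, hq⟩ j| = |(D : ℝ) - n * (sj * (rc R q j : ℝ))| / D := by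
    have h3 : z j - n / D * rays R ⟨q, hq⟩ j =
        sj * (((D : ℝ) - n * (sj * (rc R q j : ℝ))) / D) := by
      rw [hj, hr]
      field_simp
      linear_combination ((n : ℝ) * (rc R q j : ℝ)) * hsjr
    rw [h3, abs_mul, habs _ hsjr, one_mul, abs_div, abs_of_pos hDr]
  have hC : |z k - n / D * rays R ⟨q, hq⟩ k| = |(D : ℝ) * z k - n * (rc R q k : ℝ)| / D := by
    have h3 : z k - n / D * rays R ⟨q, hq⟩ k = ((D : ℝ) * z k - n * (rc R q k : ℝ)) / D := by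
      rw [hr]
      field_simp
    rw [h3, abs_div, abs_of_pos hDr]
  have hE : |z l - n / D * rays R ⟨q, hq⟩ l| = |(D : ℝ) * z l - n * (rc R q l : ℝ)| / D := by
    have h3 : z l - n / D * rays R ⟨q, hq⟩ l = ((D : ℝ) * z l - n * (rc R q l : ℝ)) / D := by
      rw [hr]
      field_simp
    rw [h3, abs_div, abs_of_pos hDr]
  rw [hA, hB, hC, hE, ← add_div, ← add_div, ← add_div, div_lt_one hDr]
  have hrad : ((rad D (si * rc R q i, sj * rc R q j, rc R q k + rc R q l, rc R q k - rc R q l) n :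
      ℤ) : ℝ) = D - |(D : ℝ) - n * (si * (rc R q i : ℝ))| - |(D : ℝ) - n * (sj * (rc R q j : ℝ))| := by
    unfold rad
    push_cast
    rw [cast_iabs, cast_iabs]
    push_cast
    rfl
  have h3 : |((D : ℝ) * z k - n * (rc R q k : ℝ)) + ((D : ℝ) * z l - n * (rc R q l : ℝ))| <
      D - |(D : ℝ) - n * (si * (rc R q i : ℝ))| - |(D : ℝ) - n * (sj * (rc R q j : ℝ))| := by
    rw [← hrad]
    have h5 : ((D : ℝ) * z k - n * (rc R q k : ℝ)) + ((D : ℝ) * z l - n * (rc R q l : ℝ)) =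
        U - n * ((rc R q k + rc R q l : ℤ) : ℝ) := by
      push_cast
      rw [hU]
      ring
    rw [h5]
    exact h1
  have h4 : |((D : ℝ) * z k - n * (rc R q k : ℝ)) - ((D : ℝ) * z l - n * (rc R q l : ℝ))| <
      D - |(D : ℝ) - n * (si * (rc R q i : ℝ))| - |(D : ℝ) - n * (sj * (rc R q j : ℝ))| := by
    rw [← hrad]
    have h5 : ((D : ℝ) * z k - n * (rc R q k : ℝ)) - ((D : ℝ) * z l - n * (rc R q l : ℝ)) =
        V - n * ((rc R q k - rc R q l : ℤ) : ℝ) := by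
      push_cast
      rw [hV]
      ring
    rw [h5]
    exact h2
  have h6 := abs_add_abs_lt h3 h4
  linarith

/-- all four sign patterns of one pair of fixed coordinates -/
theorem face_sound (R : List (ℤ × ℤ × ℤ × ℤ)) (D : ℤ) (hD : 0 < D) (i j k l : Fin 4)
    (hs : ∀ f : Fin 4 → ℝ, ∑ m, f m = f i + f j + f k + f l) (T1 T2 T3 T4 : CTree)
    (h1 : sqcheck R D i j k l 1 1 T1 = true) (h2 : sqcheck R D i j k l 1 (-1) T2 = true)
    (h3 : sqcheck R D i j k l (-1) 1 T3 = true) (h4 : sqcheck R D i j k l (-1) (-1) T4 = true)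
    (z : Fin 4 → ℝ) (hz : ∀ m, |z m| ≤ 1) (hi : |z i| = 1) (hj : |z j| = 1) :
    ∃ (q : Fin R.length) (t : ℝ), 0 < t ∧ ∑ m, |z m - t * rays R q m| < 1 := by
  rcases eq_or_eq_neg_of_abs_eq hi with hi | hi <;> rcases eq_or_eq_neg_of_abs_eq hj with hj | hj
  · exact sq_sound R D hD i j k l hs 1 1 (by norm_num) (by norm_num) T1 h1 z hz
      (by rw [hi]; norm_num) (by rw [hj]; norm_num)
  · exact sq_sound R D hD i j k l hs 1 (-1) (by norm_num) (by norm_num) T2 h2 z hz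
      (by rw [hi]; norm_num) (by rw [hj]; norm_num)
  · exact sq_sound R D hD i j k l hs (-1) 1 (by norm_num) (by norm_num) T3 h3 z hz
      (by rw [hi]; norm_num) (by rw [hj]; norm_num)
  · exact sq_sound R D hD i j k l hs (-1) (-1) (by norm_num) (by norm_num) T4 h4 z hz
      (by rw [hi]; norm_num) (by rw [hj]; norm_num)

/-- decision trees in the cube -/
inductive ATree where
  | leaf (k : ℕ) : ATree
  | n1 (c : ℤ) (s t : ATree) : ATree
  | n2 (c : ℤ) (s t : ATree) : ATree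
  | n3 (c : ℤ) (s t : ATree) : ATree

/-- upper bound of `w κ + E max 0 (-w)` over `κ ∈ [lo, hi]` -/
def cst (E w lo hi : ℤ) : ℤ := if 0 ≤ w then w * hi else w * lo - E * w

/-- the check of a tree on a box -/
def ATree.check (N : ℕ) (P : ℕ → ℤ × ℤ × ℤ × ℤ) (E : ℤ) :
    ATree → ℤ → ℤ → ℤ → ℤ → ℤ → ℤ → Bool
  | .leaf k, a1, b1, a2, b2, a3, b3 =>
    decide (k < N) && decide (cst E (P k).2.1 a1 b1 + cst E (P k).2.2.1 a2 b2 +
      cst E (P k).2.2.2 a3 b3 < E * (P k).1)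
  | .n1 x s t, a1, b1, a2, b2, a3, b3 =>
    s.check N P E a1 x a2 b2 a3 b3 && t.check N P E x b1 a2 b2 a3 b3
  | .n2 x s t, a1, b1, a2, b2, a3, b3 =>
    s.check N P E a1 b1 a2 x a3 b3 && t.check N P E a1 b1 x b2 a3 b3
  | .n3 x s t, a1, b1, a2, b2, a3, b3 =>
    s.check N P E a1 b1 a2 b2 a3 x && t.check N P E a1 b1 a2 b2 x b3

theorem cst_bound (E w lo hi : ℤ) (κ : ℝ) (h1 : (lo : ℝ) ≤ E * κ) (h2 : E * κ ≤ hi) :
    (E : ℝ) * (w * κ + max 0 (-(w : ℝ))) ≤ (cst E w lo hi : ℝ) := by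
  unfold cst
  split_ifs with h
  · have h' : (0 : ℝ) ≤ w := by exact_mod_cast h
    rw [max_eq_left (by linarith)]
    push_cast
    nlinarith [mul_le_mul_of_nonneg_left h2 h']
  · have h' : (w : ℝ) ≤ 0 := by
      push Not at h
      exact_mod_cast h.le
    rw [max_eq_right (by linarith)]
    push_cast
    nlinarith [mul_le_mul_of_nonpos_left h1 h']

theorem ATree.sound (N : ℕ) (P : ℕ → ℤ × ℤ × ℤ × ℤ) (E : ℤ) (T : ATree) :
    ∀ a1 b1 a2 b2 a3 b3 : ℤ, T.check N P E a1 b1 a2 b2 a3 b3 = true → ∀ x y z : ℝ,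
      (a1 : ℝ) ≤ E * x → E * x ≤ b1 → (a2 : ℝ) ≤ E * y → E * y ≤ b2 → (a3 : ℝ) ≤ E * z →
      E * z ≤ b3 →
      ∃ k : ℕ, k < N ∧ (E : ℝ) * (((P k).2.1 : ℝ) * x + max 0 (-((P k).2.1 : ℝ))) +
        (E : ℝ) * (((P k).2.2.1 : ℝ) * y + max 0 (-((P k).2.2.1 : ℝ))) +
        (E : ℝ) * (((P k).2.2.2 : ℝ) * z + max 0 (-((P k).2.2.2 : ℝ))) < E * ((P k).1 : ℝ) := by
  induction T with
  | leaf k =>
    intro a1 b1 a2 b2 a3 b3 h x y z h1 h2 h3 h4 h5 h6
    simp only [ATree.check, Bool.and_eq_true, decide_eq_true_eq] at h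
    refine ⟨k, h.1, ?_⟩
    have e1 := cst_bound E (P k).2.1 a1 b1 x h1 h2
    have e2 := cst_bound E (P k).2.2.1 a2 b2 y h3 h4
    have e3 := cst_bound E (P k).2.2.2 a3 b3 z h5 h6
    have e4 : ((cst E (P k).2.1 a1 b1 : ℤ) : ℝ) + (cst E (P k).2.2.1 a2 b2 : ℤ) +
      (cst E (P k).2.2.2 a3 b3 : ℤ) < (E : ℝ) * ((P k).1 : ℝ) := by exact_mod_cast h.2
    linarith
  | n1 c s t ihs iht =>
    intro a1 b1 a2 b2 a3 b3 h x y z h1 h2 h3 h4 h5 h6
    simp only [ATree.check, Bool.and_eq_true] at h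
    rcases le_total (E * x) (c : ℝ) with h7 | h7
    · exact ihs _ _ _ _ _ _ h.1 x y z h1 h7 h3 h4 h5 h6
    · exact iht _ _ _ _ _ _ h.2 x y z h7 h2 h3 h4 h5 h6
  | n2 c s t ihs iht =>
    intro a1 b1 a2 b2 a3 b3 h x y z h1 h2 h3 h4 h5 h6
    simp only [ATree.check, Bool.and_eq_true] at h
    rcases le_total (E * y) (c : ℝ) with h7 | h7
    · exact ihs _ _ _ _ _ _ h.1 x y z h1 h2 h3 h7 h5 h6
    · exact iht _ _ _ _ _ _ h.2 x y z h1 h2 h7 h4 h5 h6
  | n3 c s t ihs iht =>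
    intro a1 b1 a2 b2 a3 b3 h x y z h1 h2 h3 h4 h5 h6
    simp only [ATree.check, Bool.and_eq_true] at h
    rcases le_total (E * z) (c : ℝ) with h7 | h7
    · exact ihs _ _ _ _ _ _ h.1 x y z h1 h2 h3 h4 h5 h7
    · exact iht _ _ _ _ _ _ h.2 x y z h1 h2 h3 h4 h7 h6

/-- check of one point `s e_i` -/
def axcheck (R : List (ℤ × ℤ × ℤ × ℤ)) (E : ℤ) (i j k l : ℕ) (s : ℤ) (T : ATree) : Bool :=
  T.check R.length (fun n => (s * rc R n i, rc R n j, rc R n k, rc R n l)) E 0 E 0 E 0 E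

theorem ax_sound (R : List (ℤ × ℤ × ℤ × ℤ)) (E : ℤ) (hE : 0 < E) (i j k l : Fin 4)
    (hs : ∀ f : Fin 4 → ℝ, ∑ m, f m = f i + f j + f k + f l) (hj : j ≠ i) (hk : k ≠ i)
    (hl : l ≠ i) (s : ℤ) (T : ATree) (h : axcheck R E i j k l s T = true)
    (κ : Fin 4 → ℝ) (hκ : ∀ j, 0 ≤ κ j ∧ κ j ≤ 1) :
    ∃ q : Fin R.length, ∑ j, (if j = i then 0 else rays R q j * κ j + max 0 (-rays R q j)) <
      s * rays R q i := by
  have hEr : (0 : ℝ) < E := by exact_mod_cast hE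
  have hb : ∀ m, ((0 : ℤ) : ℝ) ≤ E * κ m ∧ (E : ℝ) * κ m ≤ E := by
    intro m
    obtain ⟨h1, h2⟩ := hκ m
    constructor
    · push_cast; positivity
    · nlinarith
  obtain ⟨q, hq, h1⟩ := ATree.sound _ _ E T _ _ _ _ _ _ h (κ j) (κ k) (κ l) (hb j).1 (hb j).2
    (hb k).1 (hb k).2 (hb l).1 (hb l).2
  refine ⟨⟨q, hq⟩, ?_⟩
  rw [hs, if_pos rfl, if_neg hj, if_neg hk, if_neg hl, zero_add]
  have hr : ∀ m, rays R ⟨q, hq⟩ m = ((rc R q m : ℤ) : ℝ) := fun m => rfl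
  rw [hr, hr, hr, hr]
  simp only at h1
  push_cast at h1
  rw [← mul_add, ← mul_add] at h1
  exact lt_of_mul_lt_mul_left h1 hEr.le

/-- both points `± e_i` -/
theorem axes_sound (R : List (ℤ × ℤ × ℤ × ℤ)) (E : ℤ) (hE : 0 < E) (i j k l : Fin 4)
    (hs : ∀ f : Fin 4 → ℝ, ∑ m, f m = f i + f j + f k + f l) (hj : j ≠ i) (hk : k ≠ i)
    (hl : l ≠ i) (T1 T2 : ATree) (h1 : axcheck R E i j k l 1 T1 = true)
    (h2 : axcheck R E i j k l (-1) T2 = true) (s : ℝ) (hs1 : |s| = 1)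
    (κ : Fin 4 → ℝ) (hκ : ∀ j, 0 ≤ κ j ∧ κ j ≤ 1) :
    ∃ q : Fin R.length, ∑ j, (if j = i then 0 else rays R q j * κ j + max 0 (-rays R q j)) <
      s * rays R q i := by
  rcases eq_or_eq_neg_of_abs_eq hs1 with hs1 | hs1
  · have := ax_sound R E hE i j k l hs hj hk hl 1 T1 h1 κ hκ
    rw [hs1]
    simpa using this
  · have := ax_sound R E hE i j k l hs hj hk hl (-1) T2 h2 κ hκ
    rw [hs1]
    simpa using this

end Pool.Agent.Hadwiger.MinVol
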