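import Mathlib
import Pool.Agent.Hadwiger.Sym4Check

set_option autoImplicit false

/-!
A family of 50 rays in `ℝ^4` with the properties `SquareCov` and `AxisCov` (checked by evaluation of
decision trees with integer data).
-/

namespace Pool.Agent.Hadwiger.MinVol.D50

/-- the rays -/
def R : List (ℤ × ℤ × ℤ × ℤ) := [
  (-10029, 33115, 100000, 99998),
  (-83176, 95818, 100000, 37782),
  (-32917, -61614, -100000, 99771),
  (-100000, 25554, 99996, 45710),
  (-98692, -20365, -100000, -90861),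
  (-97093, -100000, -84338, 9100),
  (100000, 98870, -90741, 9596),
  (-100000, 71422, -15810, -90462),
  (-74434, 98200, 8803, 100000),
  (-99999, 100000, -34732, -6036),
  (100000, -59344, 93247, -97017),
  (100000, -17444, -59609, -99750),
  (-7328, -99998, -26552, 100000),
  (99770, 99326, -648, 100000),
  (-3982, 99997, 100000, -76584),
  (99127, 41627, 78157, -100000),
  (100000, 1328, -98799, 99354),
  (-54111, 99989, -100000, -17935),
  (100000, -57784, 100000, -24129),
  (19793, 100000, 99875, 89631),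
  (-43567, 95643, -100000, -84805),
  (64563, 93638, -100000, -90136),
  (7583, 95030, -99981, 100000),
  (89369, 100000, -12435, -96748),
  (100000, -94587, -88439, 72413),
  (10029, -33115, -100000, -99998),
  (83176, -95818, -100000, -37782),
  (32917, 61614, 100000, -99771),
  (100000, -25554, -99996, -45710),
  (98692, 20365, 100000, 90861),
  (97093, 100000, 84338, -9100),
  (-100000, -98870, 90741, -9596),
  (100000, -71422, 15810, 90462),
  (74434, -98200, -8803, -100000),
  (99999, -100000, 34732, 6036),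
  (-100000, 59344, -93247, 97017),
  (-100000, 17444, 59609, 99750),
  (7328, 99998, 26552, -100000),
  (-99770, -99326, 648, -100000),
  (3982, -99997, -100000, 76584),
  (-99127, -41627, -78157, 100000),
  (-100000, -1328, 98799, -99354),
  (54111, -99989, 100000, 17935),
  (-100000, 57784, -100000, 24129),
  (-19793, -100000, -99875, -89631),
  (43567, -95643, 100000, 84805),
  (-64563, -93638, 100000, 90136),
  (-7583, -95030, 99981, -100000),
  (-89369, -100000, 12435, 96748),
  (-100000, 94587, 88439, -72413)]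

def T0100 : CTree :=
    (.nu 0 (.nv 0 (.nu (-1000000000) (.nv (-1000000000) (.nu (-1809271709) .out (.leaf 6
    10114)) (.nv (-36603231) (.nu (-1809271709) (.nv (-794826519) .out (.leaf 21 10680)) (.leaf
    6 10114)) (.leaf 23 10147))) (.nv (-22787361) (.leaf 6 10080) (.nu (-198140001) (.leaf 23
    10000) (.leaf 30 10000)))) (.nu (-1000000000) (.nv 1776018823 (.leaf 23 10532) .out) (.nv
    1000000000 (.nu (-198140001) (.leaf 23 10000) (.leaf 30 10000)) (.nu (-500000000) (.nv
    1824427897 (.leaf 23 11189) .out) (.nv 1351887425 (.nu (-198140001) (.leaf 23 10000) (.leaf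
    30 10000)) (.leaf 15 9408)))))) (.nv 0 (.nu 1000000000 (.nv (-1000000000) (.nu 265889
    (.leaf 6 10114) (.leaf 13 10023)) (.nv (-36549999) (.nu 265889 (.leaf 6 10000) (.leaf 13
    10023)) (.leaf 30 10000))) (.nv (-1000000000) (.nu 1995777407 (.leaf 13 10068) .out) (.nu
    1500000000 (.nv (-13255697) (.leaf 13 10023) (.leaf 30 10000)) (.nv (-500000000) (.nu
    1995777407 (.leaf 13 10068) .out) (.nu 1750000000 (.nv (-13255697) (.leaf 13 10023) (.nu
    1740741770 (.leaf 30 10241) (.leaf 19 9785))) (.nv (-113707021) (.nu 1995777407 (.leaf 13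
    10068) .out) (.leaf 29 10133))))))) (.nu 1000000000 (.nv 1932378768 (.leaf 30 10299) (.nu
    199574167 (.leaf 15 10088) .out)) (.nv 1000000000 (.nu 1744936968 (.leaf 30 10299) (.nv
    300369999 (.leaf 19 10000) .out)) (.nu 1500000000 (.nv 1932378768 (.leaf 30 10299) .out)
    .out)))))

def T0101 : CTree :=
    (.nu 0 (.nv 0 (.nu (-1000000000) (.nv (-1596002671) .out (.leaf 26 12022)) (.nv
    (-662650001) (.leaf 24 10000) (.nu (-592309999) (.leaf 26 10436) (.leaf 34 10000)))) (.nu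
    (-1000000000) (.nv 218686179 (.leaf 26 10437) (.nv 1109343089 (.nu (-1901392199) .out
    (.leaf 33 10600)) .out)) (.nv 1000000000 (.nu (-592309999) (.nv 170727030 (.leaf 26 10436)
    (.leaf 33 10183)) (.leaf 34 10000)) (.nu (-500000000) (.nv 1762914333 (.leaf 33 11314)
    .out) (.nv 1284371241 (.leaf 34 10000) (.leaf 10 9197)))))) (.nv 0 (.nu 1000000000 (.nv
    (-713029999) (.nu 785609999 (.leaf 24 10000) (.nv (-1610065833) .out (.leaf 32 13241)))
    (.leaf 34 10000)) (.nv (-1000000000) (.nv (-1645082073) .out (.leaf 32 14001)) (.nv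
    (-328776561) (.leaf 32 12872) (.nu 1407669999 (.leaf 34 10000) (.nu 1703834999 (.nv
    (-32300001) (.leaf 32 10000) (.leaf 45 8490)) (.nv (-296614423) .out (.leaf 45 10456)))))))
    (.nu 1000000000 (.nv 1286949999 (.leaf 34 10000) (.nu 441724184 (.leaf 10 9270) (.leaf 18
    12209))) (.nv 1000000000 (.nu 1407669999 (.leaf 34 10000) (.nv 775592955 (.nv 387796477
    (.nu 1422164106 (.nv 380535104 (.leaf 45 8941) (.leaf 42 10001)) (.leaf 45 9259)) (.nu
    1781530221 (.leaf 42 10846) .out)) .out)) (.nu 1500000000 (.nv 1471387666 (.nv 1441807082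
    (.leaf 42 12209) .out) .out) .out)))))

def T0110 : CTree :=
    (.nu 0 (.nv 0 (.nu (-1000000000) (.nv (-1000000000) (.nu (-1500000000) .out (.nv
    (-1471387666) .out (.nv (-1441807082) .out (.leaf 17 12209)))) (.nu (-1407669999) (.nv
    (-775592955) .out (.nv (-387796478) (.nu (-1781530221) .out (.leaf 17 10846)) (.nu
    (-1422164106) (.leaf 20 9259) (.nv (-380535104) (.leaf 17 10001) (.leaf 20 8941))))) (.leaf
    9 10000))) (.nv (-1286949999) (.nu (-441724184) (.leaf 43 12209) (.leaf 35 9270)) (.leaf 9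
    10000))) (.nu (-1000000000) (.nv 1000000000 (.nv 328776561 (.nu (-1407669999) (.nu
    (-1703835000) (.nv 296614423 (.leaf 20 10456) .out) (.nv 32300001 (.leaf 20 8490) (.leaf 7
    10000))) (.leaf 9 10000)) (.leaf 7 12872)) (.nv 1645082073 (.leaf 7 14001) .out)) (.nv
    713029999 (.leaf 9 10000) (.nu (-785609999) (.nv 1610065833 (.leaf 7 13241) .out) (.leaf 49
    10000))))) (.nv 0 (.nu 1000000000 (.nv (-1000000000) (.nu 500000000 (.nv (-1284371241)
    (.leaf 35 9197) (.leaf 9 10000)) (.nv (-1762914333) .out (.leaf 8 11314))) (.nu 592309999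
    (.leaf 9 10000) (.nv (-170727030) (.leaf 8 10183) (.leaf 1 10436)))) (.nv (-218686179) (.nv
    (-1109343090) .out (.nu 1901392199 (.leaf 8 10600) .out)) (.leaf 1 10437))) (.nu 1000000000
    (.nv 662650001 (.nu 592309999 (.leaf 9 10000) (.leaf 1 10436)) (.leaf 49 10000)) (.nv
    1596002671 (.leaf 1 12022) .out))))

def T0111 : CTree :=
    (.nu 0 (.nv 0 (.nu (-1000000000) (.nv (-1000000000) (.nu (-1500000000) .out (.nv
    (-1932378768) .out (.leaf 5 10299))) (.nu (-1744936968) (.nv (-300369999) .out (.leaf 44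
    10000)) (.leaf 5 10299))) (.nv (-1932378768) (.nu (-199574167) .out (.leaf 40 10088))
    (.leaf 5 10299))) (.nu (-1000000000) (.nv 1000000000 (.nu (-1500000000) (.nv 500000000 (.nu
    (-1750000000) (.nv 113707021 (.leaf 4 10133) (.nu (-1995777407) .out (.leaf 38 10068)))
    (.nv 13255697 (.nu (-1740741770) (.leaf 44 9785) (.leaf 5 10241)) (.leaf 38 10023))) (.nu
    (-1995777407) .out (.leaf 38 10068))) (.nv 13255697 (.leaf 5 10000) (.leaf 38 10023))) (.nu
    (-1995777407) .out (.leaf 38 10068))) (.nv 1000000000 (.nv 36549999 (.leaf 5 10000) (.nu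
    (-265889) (.leaf 38 10023) (.leaf 31 10000))) (.nu (-265889) (.leaf 38 10023) (.leaf 31
    10114))))) (.nv 0 (.nu 1000000000 (.nv (-1000000000) (.nu 500000000 (.nv (-1351887425)
    (.leaf 40 9408) (.nu 198140001 (.leaf 5 10000) (.leaf 48 10000))) (.nv (-1824427897) .out
    (.leaf 48 11189))) (.nu 198140001 (.leaf 5 10000) (.leaf 48 10000))) (.nv (-1776018823)
    .out (.leaf 48 10532))) (.nu 1000000000 (.nv 22787361 (.nu 198140001 (.leaf 5 10000) (.leaf
    48 10000)) (.leaf 31 10080)) (.nv 1000000000 (.nv 36603231 (.leaf 48 10147) (.nu 1809271709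
    (.leaf 31 10114) (.nv 794826519 (.leaf 46 10680) .out))) (.nu 1809271709 (.leaf 31 10114)
    .out)))))

def T0200 : CTree :=
    (.nu 0 (.nv 0 (.nu (-1000000000) (.nv (-555739999) (.nv (-1277870000) .out (.nu
    (-1819129999) .out (.leaf 18 10000))) (.leaf 10 10000)) (.nv (-1336549999) (.nu
    (-776232670) .out (.nu (-388116335) (.nv (-1781507714) .out (.leaf 42 10849)) (.nv
    (-1341481180) (.leaf 45 9259) (.leaf 45 9016)))) (.leaf 18 10000))) (.nu (-1000000000) (.nv
    1331586079 (.leaf 10 10724) .out) (.nv 640292185 (.leaf 18 10000) (.leaf 15 10088)))) (.nv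
    0 (.nu 1000000000 (.nv (-1000000000) (.nu 500000000 (.nv (-1500000000) (.nu 327289999
    (.leaf 45 10000) (.nv (-1701012815) .out (.leaf 29 10132))) (.nu 125340001 (.nv
    (-1336549999) (.leaf 45 8619) (.leaf 18 10000)) (.leaf 29 10000))) (.nv (-1701012815) .out
    (.leaf 29 10132))) (.nu 125340001 (.leaf 18 10000) (.leaf 29 10000))) (.nv (-1701012815)
    .out (.leaf 29 10132))) (.nu 1000000000 (.nv 1000000000 (.nu 500000000 (.nv 500000000 (.nu
    180869999 (.leaf 18 10000) (.nv 281959999 (.leaf 29 10000) (.leaf 30 10299))) (.nu 67621232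
    (.nv 640292185 (.leaf 18 10000) (.leaf 15 10088)) (.leaf 30 10299))) (.nv 255063032 (.leaf
    29 10000) (.leaf 30 10299))) (.nu 75938901 (.leaf 15 10088) (.leaf 30 10380))) (.nv
    281959999 (.leaf 29 10000) (.nu 1822085399 (.leaf 30 10520) .out)))))

def T0201 : CTree :=
    (.nu 0 (.nv 0 (.nu (-1000000000) (.nv (-1495450663) .out (.leaf 26 12022)) (.nv
    (-785610001) (.leaf 24 10000) (.leaf 28 10000))) (.nu (-1000000000) (.nv 251399999 (.leaf
    26 10000) (.nv 1125699999 (.nu (-1783313796) .out (.leaf 11 10199)) .out)) (.nv 1201519999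
    (.leaf 28 10000) (.nu (-610609999) (.nv 1428371299 (.leaf 11 10220) .out) (.leaf 21
    10000))))) (.nv 0 (.nu 1000000000 (.nv (-1000000000) (.nu 662649999 (.leaf 24 10000) (.nv
    (-1979975693) .out (.leaf 16 10122))) (.nu 18830001 (.nv (-798399999) (.leaf 24 10000)
    (.leaf 28 10000)) (.leaf 16 10000))) (.nv (-1975705524) .out (.leaf 16 10077))) (.nu
    1000000000 (.nv 1000000000 (.nu 177250001 (.leaf 28 10000) (.leaf 6 10000)) (.nu 500000000
    (.nv 1171477387 (.nu 177250001 (.leaf 28 10000) (.leaf 6 10000)) (.leaf 21 8926)) (.nv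
    1881765299 (.leaf 6 11020) .out))) (.nv 1811992219 (.leaf 6 10148) .out))))

def T0210 : CTree :=
    (.nu 0 (.nv 0 (.nu (-1000000000) (.nv (-1811992219) .out (.leaf 31 10148)) (.nv
    (-1000000000) (.nu (-500000000) (.nv (-1881765299) .out (.leaf 31 11020)) (.nv
    (-1171477387) (.leaf 46 8926) (.nu (-177250001) (.leaf 31 10000) (.leaf 3 10000)))) (.nu
    (-177250001) (.leaf 31 10000) (.leaf 3 10000)))) (.nu (-1000000000) (.nv 1975705524 (.leaf
    41 10077) .out) (.nv 1000000000 (.nu (-18830001) (.leaf 41 10000) (.nv 798399999 (.leaf 3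
    10000) (.leaf 49 10000))) (.nu (-662649999) (.nv 1979975693 (.leaf 41 10122) .out) (.leaf
    49 10000))))) (.nv 0 (.nu 1000000000 (.nv (-1201519999) (.nu 610609999 (.leaf 46 10000)
    (.nv (-1428371299) .out (.leaf 36 10220))) (.leaf 3 10000)) (.nv (-251399999) (.nv
    (-1125700000) .out (.nu 1783313796 (.leaf 36 10199) .out)) (.leaf 1 10000))) (.nu
    1000000000 (.nv 785610001 (.leaf 3 10000) (.leaf 49 10000)) (.nv 1495450663 (.leaf 1 12022)
    .out))))

def T0211 : CTree :=
    (.nu 0 (.nv 0 (.nu (-1000000000) (.nv (-281959999) (.nu (-1822085399) .out (.leaf 5 10520))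
    (.leaf 4 10000)) (.nv (-1000000000) (.nu (-75938901) (.leaf 5 10380) (.leaf 40 10088)) (.nu
    (-500000000) (.nv (-255063032) (.leaf 5 10299) (.leaf 4 10000)) (.nv (-500000000) (.nu
    (-67621232) (.leaf 5 10299) (.nv (-640292185) (.leaf 40 10088) (.leaf 43 10000))) (.nu
    (-180869999) (.nv (-281959999) (.leaf 5 10299) (.leaf 4 10000)) (.leaf 43 10000)))))) (.nu
    (-1000000000) (.nv 1701012815 (.leaf 4 10132) .out) (.nv 1000000000 (.nu (-125340001)
    (.leaf 4 10000) (.leaf 43 10000)) (.nu (-500000000) (.nv 1701012815 (.leaf 4 10132) .out)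
    (.nv 1500000000 (.nu (-125340001) (.leaf 4 10000) (.nv 1336549999 (.leaf 43 10000) (.leaf
    20 8619))) (.nu (-327289999) (.nv 1701012815 (.leaf 4 10132) .out) (.leaf 20 10000)))))))
    (.nv 0 (.nu 1000000000 (.nv (-640292185) (.leaf 40 10088) (.leaf 43 10000)) (.nv
    (-1331586079) .out (.leaf 35 10724))) (.nu 1000000000 (.nv 1336549999 (.leaf 43 10000) (.nu
    776232670 (.nu 388116335 (.nv 1341481180 (.leaf 20 9016) (.leaf 20 9259)) (.nv 1781507714
    (.leaf 17 10849) .out)) .out)) (.nv 555739999 (.leaf 35 10000) (.nv 1277869999 (.nu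
    1819129999 (.leaf 43 10000) .out) .out)))))

def T0300 : CTree :=
    (.nu 0 (.nv 0 (.nu (-1000000000) (.nv (-1000000000) (.nu (-1500000000) .out (.nv
    (-1858829475) .out (.leaf 32 11054))) (.nu (-1476082641) (.nv (-785609999) .out (.leaf 24
    10000)) (.leaf 32 10333))) (.nv (-1802812101) (.nu (-462343759) .out (.leaf 45 11792))
    (.leaf 32 10333))) (.nu (-1000000000) (.nv 1000000000 (.nu (-1500000000) (.nv 662649999
    (.leaf 24 10000) .out) (.nv 7730001 (.nu (-1472396721) (.leaf 24 8369) (.leaf 32 10253))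
    (.leaf 16 10000))) (.nu (-1974543624) .out (.leaf 16 10065))) (.nv 13070970 (.leaf 32
    10000) (.leaf 16 10053)))) (.nv 0 (.nu 1000000000 (.nv (-1000000000) (.nu 500000000 (.nv
    (-1760296843) (.leaf 45 11302) (.nu 348499999 (.leaf 32 10000) (.nv (-1755306275) .out
    (.leaf 29 10519)))) (.nv (-1790242491) .out (.leaf 29 11006))) (.nu 298987185 (.leaf 32
    10000) (.leaf 29 10132))) (.nv (-1790242491) .out (.leaf 29 11006))) (.nu 1000000000 (.nv
    1000000000 (.nv 2040001 (.nu 298987185 (.leaf 32 10000) (.leaf 29 10132)) (.leaf 13 10000))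
    (.nv 1999734111 (.leaf 13 10023) (.nu 170667999 (.leaf 6 10080) .out))) (.nv 113707021
    (.leaf 29 10133) (.nv 1056853510 (.nu 1986744303 (.leaf 13 10023) .out) .out)))))

def T0301 : CTree :=
    (.nu 0 (.nv 0 (.nu (-1000000000) (.nv (-1000000000) (.nv (-1857527904) .out (.leaf 33
    13435)) (.nv (-411745641) (.leaf 33 12280) (.nu (-1769950074) (.nv (-201041159) (.nu
    (-1850772338) .out (.leaf 33 10447)) (.leaf 26 10285)) (.leaf 11 10025)))) (.nv
    (-575849999) (.nu (-631139999) (.nv (-1785376623) .out (.leaf 33 12304)) (.leaf 10 10000))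
    (.leaf 11 10000))) (.nu (-1000000000) (.nv 1000000000 (.nu (-1769950074) (.nv 287064899
    (.leaf 26 10285) .out) (.leaf 11 10025)) (.nu (-1500000000) .out (.nv 1420197874 (.leaf 11
    10025) .out))) (.nv 1420197874 (.leaf 11 10025) (.nu (-738009250) .out (.leaf 21 10791)))))
    (.nv 0 (.nu 1000000000 (.nv (-555740001) (.leaf 10 10000) (.nu 206570001 (.leaf 11 10000)
    (.leaf 15 10000))) (.nv (-1359707815) .out (.leaf 15 10088))) (.nu 1000000000 (.nv
    238422849 (.nu 206570001 (.leaf 11 10000) (.leaf 15 10000)) (.leaf 23 10336)) (.nv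
    625969999 (.leaf 15 10000) (.nu 1897203119 (.leaf 23 11190) .out)))))

def T0310 : CTree :=
    (.nu 0 (.nv 0 (.nu (-1000000000) (.nv (-625969999) (.nu (-1897203119) .out (.leaf 48
    11190)) (.leaf 40 10000)) (.nv (-238422849) (.leaf 48 10336) (.nu (-206570001) (.leaf 40
    10000) (.leaf 36 10000)))) (.nu (-1000000000) (.nv 1359707815 (.leaf 40 10088) .out) (.nv
    555740001 (.nu (-206570001) (.leaf 40 10000) (.leaf 36 10000)) (.leaf 35 10000)))) (.nv 0
    (.nu 1000000000 (.nv (-1420197874) (.nu 738009250 (.leaf 46 10791) .out) (.leaf 36 10025))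
    (.nv (-1000000000) (.nu 1500000000 (.nv (-1420197874) .out (.leaf 36 10025)) .out) (.nu
    1769950074 (.leaf 36 10025) (.nv (-287064899) .out (.leaf 1 10285))))) (.nu 1000000000 (.nv
    575849999 (.leaf 36 10000) (.nu 631139999 (.leaf 35 10000) (.nv 1785376623 (.leaf 8 12304)
    .out))) (.nv 1000000000 (.nv 411745641 (.nu 1769950074 (.leaf 36 10025) (.nv 201041159
    (.leaf 1 10285) (.nu 1850772338 (.leaf 8 10447) .out))) (.leaf 8 12280)) (.nv 1857527904
    (.leaf 8 13435) .out)))))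

def T0311 : CTree :=
    (.nu 0 (.nv 0 (.nu (-1000000000) (.nv (-113707021) (.nv (-1056853511) .out (.nu
    (-1986744303) .out (.leaf 38 10023))) (.leaf 4 10133)) (.nv (-1000000000) (.nv
    (-1999734111) (.nu (-170667999) .out (.leaf 31 10080)) (.leaf 38 10023)) (.nv (-2040001)
    (.leaf 38 10000) (.nu (-298987185) (.leaf 4 10132) (.leaf 7 10000))))) (.nu (-1000000000)
    (.nv 1790242491 (.leaf 4 11006) .out) (.nv 1000000000 (.nu (-298987185) (.leaf 4 10132)
    (.leaf 7 10000)) (.nu (-500000000) (.nv 1790242491 (.leaf 4 11006) .out) (.nv 1760296843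
    (.nu (-348499999) (.nv 1755306275 (.leaf 4 10519) .out) (.leaf 7 10000)) (.leaf 20
    11302)))))) (.nv 0 (.nu 1000000000 (.nv (-13070970) (.leaf 41 10053) (.leaf 7 10000)) (.nv
    (-1000000000) (.nu 1974543624 (.leaf 41 10065) .out) (.nu 1500000000 (.nv (-7730001) (.leaf
    41 10000) (.nu 1472396721 (.leaf 7 10253) (.leaf 49 8369))) (.nv (-662649999) .out (.leaf
    49 10000))))) (.nu 1000000000 (.nv 1802812101 (.leaf 7 10333) (.nu 462343759 (.leaf 20
    11792) .out)) (.nv 1000000000 (.nu 1476082641 (.leaf 7 10333) (.nv 785609999 (.leaf 49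
    10000) .out)) (.nu 1500000000 (.nv 1858829475 (.leaf 7 11054) .out) .out)))))

def T1200 : CTree :=
    (.nu 0 (.nv 0 (.nu (-1000000000) (.nv (-1240116799) .out (.leaf 49 11200)) (.nv
    (-251400001) (.leaf 1 10000) (.leaf 14 10000))) (.nu (-1000000000) (.nv 643319844 (.leaf 49
    10573) (.nv 1321659922 (.nu (-1805629999) .out (.leaf 14 10000)) .out)) (.nv 1725989999
    (.leaf 14 10000) (.nu (-116070201) (.leaf 27 10605) (.nv 1746458945 (.nu (-104011549)
    (.leaf 27 10000) (.leaf 15 9150)) (.leaf 15 9408)))))) (.nv 0 (.nu 1000000000 (.nv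
    (-1000000000) (.nu 504239999 (.leaf 1 10000) (.nv (-1697966555) .out (.leaf 19 10012)))
    (.nu 95490001 (.nv (-251400001) (.leaf 1 10000) (.leaf 14 10000)) (.leaf 19 10000))) (.nv
    (-1697966555) .out (.leaf 19 10012))) (.nu 1000000000 (.nv 1000000000 (.nu 194309999 (.leaf
    14 10000) (.nv 218550001 (.leaf 19 10000) (.leaf 30 10000))) (.nu 144973131 (.nv 1725989999
    (.leaf 14 10000) (.nv 1763993748 (.nu 36550001 (.leaf 15 8890) (.leaf 30 10000)) (.leaf 15
    9629))) (.leaf 30 11046))) (.nv 300369999 (.leaf 19 10000) (.nv 1150184999 (.nu 1771844100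
    (.leaf 30 10671) .out) .out)))))

def T1201 : CTree :=
    (.nu 0 (.nv 0 (.nu (-1000000000) (.nv (-544049999) (.nv (-1272025000) .out (.nu
    (-1720422034) .out (.leaf 17 10001))) (.leaf 20 10000)) (.nv (-1361686164) (.nu
    (-441724184) (.leaf 43 12209) (.nv (-1411740169) (.leaf 35 9268) (.nu (-266527933) (.leaf
    43 10000) (.leaf 35 8141)))) (.leaf 17 10001))) (.nu (-1000000000) (.nv 1385590854 (.leaf
    20 10455) .out) (.nv 610610001 (.leaf 17 10000) (.leaf 21 10000)))) (.nv 0 (.nu 1000000000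
    (.nv (-1000000000) (.nu 500000000 (.nv (-1445459503) (.leaf 35 10027) (.nu 125565069 (.nv
    (-1361686164) (.leaf 35 7665) (.leaf 17 10001)) (.leaf 22 10002))) (.nv (-1920403337) .out
    (.leaf 22 10523))) (.nu 125565069 (.leaf 17 10000) (.leaf 22 10002))) (.nv (-1898275819)
    .out (.leaf 22 10270))) (.nu 1000000000 (.nv 1000000000 (.nu 190728291 (.nv 638129999
    (.leaf 17 10000) (.leaf 21 10000)) (.leaf 6 10114)) (.nu 680649999 (.leaf 21 10000) (.nv
    1906670499 (.leaf 6 11020) .out))) (.nv 1834926699 (.leaf 6 10148) .out))))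

def T1210 : CTree :=
    (.nu 0 (.nv 0 (.nu (-1000000000) (.nv (-1834926699) .out (.leaf 31 10148)) (.nv
    (-1000000000) (.nu (-680649999) (.nv (-1906670499) .out (.leaf 31 11020)) (.leaf 46 10000))
    (.nu (-190728291) (.leaf 31 10114) (.nv (-638129999) (.leaf 46 10000) (.leaf 42 10000)))))
    (.nu (-1000000000) (.nv 1898275819 (.leaf 47 10270) .out) (.nv 1000000000 (.nu (-125565069)
    (.leaf 47 10002) (.leaf 42 10000)) (.nu (-500000000) (.nv 1920403337 (.leaf 47 10523) .out)
    (.nv 1445459503 (.nu (-125565069) (.leaf 47 10002) (.nv 1361686164 (.leaf 42 10001) (.leaf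
    10 7665))) (.leaf 10 10027)))))) (.nv 0 (.nu 1000000000 (.nv (-610610001) (.leaf 46 10000)
    (.leaf 42 10000)) (.nv (-1385590854) .out (.leaf 45 10455))) (.nu 1000000000 (.nv
    1361686164 (.leaf 42 10001) (.nu 441724184 (.nv 1411740169 (.nu 266527933 (.leaf 10 8141)
    (.leaf 18 10000)) (.leaf 10 9268)) (.leaf 18 12209))) (.nv 544049999 (.leaf 45 10000) (.nv
    1272024999 (.nu 1720422034 (.leaf 42 10001) .out) .out)))))

def T1211 : CTree :=
    (.nu 0 (.nv 0 (.nu (-1000000000) (.nv (-300369999) (.nv (-1150185000) .out (.nu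
    (-1771844100) .out (.leaf 5 10671))) (.leaf 44 10000)) (.nv (-1000000000) (.nu (-144973131)
    (.leaf 5 11046) (.nv (-1725989999) (.nv (-1763993748) (.leaf 40 9629) (.nu (-36550001)
    (.leaf 5 10000) (.leaf 40 8890))) (.leaf 39 10000))) (.nu (-194309999) (.nv (-218550001)
    (.leaf 5 10000) (.leaf 44 10000)) (.leaf 39 10000)))) (.nu (-1000000000) (.nv 1697966555
    (.leaf 44 10012) .out) (.nv 1000000000 (.nu (-95490001) (.leaf 44 10000) (.nv 251400001
    (.leaf 39 10000) (.leaf 26 10000))) (.nu (-504239999) (.nv 1697966555 (.leaf 44 10012)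
    .out) (.leaf 26 10000))))) (.nv 0 (.nu 1000000000 (.nv (-1725989999) (.nu 116070201 (.nv
    (-1746458945) (.leaf 40 9408) (.nu 104011549 (.leaf 40 9150) (.leaf 2 10000))) (.leaf 2
    10605)) (.leaf 39 10000)) (.nv (-643319844) (.nv (-1321659922) .out (.nu 1805629999 (.leaf
    39 10000) .out)) (.leaf 24 10573))) (.nu 1000000000 (.nv 251400001 (.leaf 39 10000) (.leaf
    26 10000)) (.nv 1240116799 (.leaf 24 11200) .out))))

def T1300 : CTree :=
    (.nu 0 (.nv 0 (.nu (-1000000000) (.nv (-1000000000) (.nu (-1500000000) .out (.nv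
    (-1829272970) .out (.leaf 8 10183))) (.nu (-1649991072) (.nv (-681276639) .out (.leaf 35
    10308)) (.leaf 8 10183))) (.nv (-1829272970) (.nu (-218686179) .out (.leaf 1 10437)) (.leaf
    8 10183))) (.nu (-1000000000) (.nv 1000000000 (.nu (-1500000000) (.nv 542056791 (.leaf 35
    10308) .out) (.nv 125340001 (.leaf 8 10000) (.leaf 22 10000))) (.nu (-1920003463) .out
    (.leaf 22 10523))) (.nv 125340001 (.leaf 8 10000) (.leaf 22 10000)))) (.nv 0 (.nu
    1000000000 (.nv (-1000000000) (.nu 500000000 (.nv (-1494371873) (.leaf 1 9972) (.nu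
    325689999 (.leaf 8 10000) (.leaf 19 10000))) (.nv (-1777761806) .out (.leaf 19 11157)))
    (.nu 300370001 (.leaf 8 10000) (.leaf 19 10000))) (.nv (-1770677214) .out (.leaf 19
    11055))) (.nu 1000000000 (.nv 1000000000 (.nv 10920001 (.nu 300370001 (.leaf 8 10000)
    (.leaf 19 10000)) (.leaf 13 10000)) (.nu 554697 (.leaf 22 10000) (.leaf 13 10026))) (.nv
    95489999 (.leaf 19 10000) (.nu 1991146127 (.leaf 13 10068) .out)))))

def T1301 : CTree :=
    (.nu 0 (.nv 0 (.nu (-1000000000) (.nv (-296614423) (.nv (-1818283999) .out (.leaf 7 12560))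
    (.leaf 20 10456)) (.nv (-1000000000) (.nu (-500000000) (.nv (-1724663449) .out (.leaf 7
    11123)) (.nv (-1180966600) (.leaf 49 8441) (.leaf 37 10000))) (.nu (-661179999) (.nv
    (-141170525) (.leaf 7 11054) (.leaf 20 10455)) (.leaf 37 10000)))) (.nu (-1000000000) (.nv
    1537615119 (.leaf 20 11792) .out) (.nv 794845732 (.nu (-661179999) (.leaf 20 10455) (.leaf
    37 10000)) (.leaf 21 10679)))) (.nv 0 (.nu 1000000000 (.nv (-1192219999) (.nu 482377573
    (.nv (-1204463744) (.leaf 49 9537) (.nu 393510634 (.leaf 49 8965) (.leaf 14 10000))) (.leaf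
    14 12412)) (.leaf 37 10000)) (.nv (-1000000000) (.nu 1948008345 (.leaf 14 13058) .out) (.nv
    (-110597721) (.leaf 27 10553) (.nu 1335461057 (.leaf 37 10000) (.leaf 15 9408))))) (.nu
    1000000000 (.nv 66003233 (.leaf 37 10000) (.leaf 23 10147)) (.nv 1000000000 (.nu 1500000000
    (.nv 50560001 (.nu 1338779999 (.leaf 37 10000) (.leaf 15 8565)) (.leaf 23 10000)) (.nv
    625969999 (.leaf 15 10000) .out)) (.nu 1761577151 (.leaf 23 10336) .out)))))

def T1310 : CTree :=
    (.nu 0 (.nv 0 (.nu (-1000000000) (.nv (-1000000000) (.nu (-1761577151) .out (.leaf 48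
    10336)) (.nu (-1500000000) (.nv (-625969999) .out (.leaf 40 10000)) (.nv (-50560001) (.leaf
    48 10000) (.nu (-1338779999) (.leaf 40 8565) (.leaf 12 10000))))) (.nv (-66003233) (.leaf
    48 10147) (.leaf 12 10000))) (.nu (-1000000000) (.nv 1000000000 (.nv 110597721 (.nu
    (-1335461057) (.leaf 40 9408) (.leaf 12 10000)) (.leaf 2 10553)) (.nu (-1948008345) .out
    (.leaf 39 13058))) (.nv 1192219999 (.leaf 12 10000) (.nu (-482377573) (.leaf 39 12412) (.nv
    1204463744 (.nu (-393510634) (.leaf 39 10000) (.leaf 24 8965)) (.leaf 24 9537)))))) (.nv 0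
    (.nu 1000000000 (.nv (-794845732) (.leaf 46 10679) (.nu 661179999 (.leaf 12 10000) (.leaf
    45 10455))) (.nv (-1537615119) .out (.leaf 45 11792))) (.nu 1000000000 (.nv 1000000000 (.nu
    661179999 (.leaf 12 10000) (.nv 141170525 (.leaf 45 10455) (.leaf 32 11054))) (.nu
    500000000 (.nv 1180966600 (.leaf 12 10000) (.leaf 24 8441)) (.nv 1724663449 (.leaf 32
    11123) .out))) (.nv 296614423 (.leaf 45 10456) (.nv 1818283999 (.leaf 32 12560) .out)))))

def T1311 : CTree :=
    (.nu 0 (.nv 0 (.nu (-1000000000) (.nv (-95489999) (.nu (-1991146127) .out (.leaf 38 10068))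
    (.leaf 44 10000)) (.nv (-1000000000) (.nu (-554697) (.leaf 38 10026) (.leaf 47 10000)) (.nv
    (-10920001) (.leaf 38 10000) (.nu (-300370001) (.leaf 44 10000) (.leaf 33 10000))))) (.nu
    (-1000000000) (.nv 1770677214 (.leaf 44 11055) .out) (.nv 1000000000 (.nu (-300370001)
    (.leaf 44 10000) (.leaf 33 10000)) (.nu (-500000000) (.nv 1777761806 (.leaf 44 11157) .out)
    (.nv 1494371873 (.nu (-325689999) (.leaf 44 10000) (.leaf 33 10000)) (.leaf 26 9972))))))
    (.nv 0 (.nu 1000000000 (.nv (-125340001) (.leaf 47 10000) (.leaf 33 10000)) (.nv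
    (-1000000000) (.nu 1920003463 (.leaf 47 10523) .out) (.nu 1500000000 (.nv (-125340001)
    (.leaf 47 10000) (.leaf 33 10000)) (.nv (-542056791) .out (.leaf 10 10308))))) (.nu
    1000000000 (.nv 1829272970 (.leaf 33 10183) (.nu 218686179 (.leaf 26 10437) .out)) (.nv
    1000000000 (.nu 1649991072 (.leaf 33 10183) (.nv 681276639 (.leaf 10 10308) .out)) (.nu
    1500000000 (.nv 1829272970 (.leaf 33 10183) .out) .out)))))

def T2300 : CTree :=
    (.nu 0 (.nv 0 (.nu (-1000000000) (.nv (-610609999) (.nv (-1305305000) .out (.nu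
    (-1433481299) .out (.leaf 36 10220))) (.leaf 46 10000)) (.nv (-1000000000) (.nu
    (-500000000) (.nv (-1945029174) .out (.leaf 36 12225)) (.nv (-1431419999) (.nu (-251399999)
    (.nv (-1788413296) .out (.leaf 36 10199)) (.leaf 1 10000)) (.leaf 0 10000))) (.nu
    (-769119999) (.nv (-610609999) (.leaf 36 10025) (.leaf 46 10000)) (.leaf 0 10000)))) (.nu
    (-1000000000) (.nv 1213126833 (.leaf 46 11094) .out) (.nv 544050001 (.nu (-769119999)
    (.leaf 46 10000) (.leaf 0 10000)) (.leaf 45 10000)))) (.nv 0 (.nu 1000000000 (.nv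
    (-1431419999) (.nu 504239999 (.leaf 1 10000) (.nv (-1780551056) .out (.leaf 19 11157)))
    (.leaf 0 10000)) (.nv (-1773440964) .out (.leaf 19 11055))) (.nu 1000000000 (.nv 568539999
    (.leaf 0 10000) (.nu 327289999 (.leaf 45 10000) (.nv 1716303363 (.leaf 29 10353) .out)))
    (.nv 1761450795 (.leaf 29 11006) .out))))

def T2301 : CTree :=
    (.nu 0 (.nv 0 (.nu (-1000000000) (.nv (-1988725008) .out (.leaf 41 10077)) (.nv
    (-1000000000) (.nu (-500000000) (.nv (-1993053317) .out (.leaf 41 10122)) (.nv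
    (-1304357171) (.leaf 49 9022) (.nu (-25456376) (.leaf 41 10065) (.nv (-1285325297) (.leaf
    49 6795) (.leaf 27 10023))))) (.nu (-25456376) (.leaf 41 10065) (.leaf 27 10000)))) (.nu
    (-1000000000) (.nv 1874434931 (.leaf 47 10002) .out) (.nv 1000000000 (.nu (-26320001)
    (.leaf 47 10000) (.nv 710739999 (.leaf 27 10000) (.leaf 10 10307))) (.nu (-542056791) (.nv
    1874434931 (.leaf 47 10002) .out) (.leaf 10 10308))))) (.nv 0 (.nu 1000000000 (.nv
    (-1285325297) (.nu 482497004 (.nv (-1321764431) (.leaf 49 9538) (.nu 314547622 (.leaf 49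
    8457) (.leaf 14 10000))) (.leaf 14 12413)) (.leaf 27 10023)) (.nv (-206569999) (.nv
    (-1103285000) .out (.nu 1945179479 (.leaf 27 10023) .out)) (.leaf 15 10000))) (.nu
    1000000000 (.nv 681307561 (.leaf 27 10000) (.leaf 10 10307)) (.nv 1438581099 (.leaf 15
    12300) .out))))

def T2310 : CTree :=
    (.nu 0 (.nv 0 (.nu (-1000000000) (.nv (-1438581099) .out (.leaf 40 12300)) (.nv
    (-681307561) (.leaf 35 10307) (.leaf 2 10000))) (.nu (-1000000000) (.nv 206569999 (.leaf 40
    10000) (.nv 1103284999 (.nu (-1945179479) .out (.leaf 2 10023)) .out)) (.nv 1285325297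
    (.leaf 2 10023) (.nu (-482497004) (.leaf 39 12413) (.nv 1321764431 (.nu (-314547622) (.leaf
    39 10000) (.leaf 24 8457)) (.leaf 24 9538)))))) (.nv 0 (.nu 1000000000 (.nv (-1000000000)
    (.nu 542056791 (.leaf 35 10308) (.nv (-1874434931) .out (.leaf 22 10002))) (.nu 26320001
    (.nv (-710739999) (.leaf 35 10307) (.leaf 2 10000)) (.leaf 22 10000))) (.nv (-1874434931)
    .out (.leaf 22 10002))) (.nu 1000000000 (.nv 1000000000 (.nu 25456376 (.leaf 2 10000)
    (.leaf 16 10065)) (.nu 500000000 (.nv 1304357171 (.nu 25456376 (.nv 1285325297 (.leaf 2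
    10023) (.leaf 24 6795)) (.leaf 16 10065)) (.leaf 24 9022)) (.nv 1993053317 (.leaf 16 10122)
    .out))) (.nv 1988725008 (.leaf 16 10077) .out))))

def T2311 : CTree :=
    (.nu 0 (.nv 0 (.nu (-1000000000) (.nv (-1761450795) .out (.leaf 4 11006)) (.nv (-568539999)
    (.nu (-327289999) (.nv (-1716303363) .out (.leaf 4 10353)) (.leaf 20 10000)) (.leaf 25
    10000))) (.nu (-1000000000) (.nv 1773440964 (.leaf 44 11055) .out) (.nv 1431419999 (.leaf
    25 10000) (.nu (-504239999) (.nv 1780551056 (.leaf 44 11157) .out) (.leaf 26 10000)))))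
    (.nv 0 (.nu 1000000000 (.nv (-544050001) (.leaf 20 10000) (.nu 769119999 (.leaf 25 10000)
    (.leaf 21 10000))) (.nv (-1213126833) .out (.leaf 21 11094))) (.nu 1000000000 (.nv
    1000000000 (.nu 769119999 (.leaf 25 10000) (.nv 610609999 (.leaf 21 10000) (.leaf 11
    10025))) (.nu 500000000 (.nv 1431419999 (.leaf 25 10000) (.nu 251399999 (.leaf 26 10000)
    (.nv 1788413296 (.leaf 11 10199) .out))) (.nv 1945029174 (.leaf 11 12225) .out))) (.nv
    610609999 (.leaf 21 10000) (.nv 1305304999 (.nu 1433481299 (.leaf 11 10220) .out) .out)))))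

def A00 : ATree :=
    (.n1 500 (.n2 500 (.n3 500 (.n1 250 (.leaf 13) (.leaf 34)) (.leaf 30)) (.n3 500 (.leaf 6)
    (.leaf 11))) (.leaf 34))

def A01 : ATree :=
    (.n1 500 (.leaf 9) (.n2 500 (.n3 500 (.leaf 36) (.leaf 31)) (.n3 500 (.leaf 5) (.n1 750
    (.leaf 9) (.leaf 38)))))

def A10 : ATree :=
    (.n1 500 (.n2 500 (.leaf 30) (.n3 500 (.n1 250 (.leaf 13) (.leaf 9)) (.leaf 37))) (.leaf
    9))

def A11 : ATree :=
    (.n1 500 (.leaf 34) (.n2 500 (.n3 500 (.leaf 12) (.n1 750 (.leaf 34) (.leaf 38))) (.leaf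
    5)))

def A20 : ATree :=
    (.n1 500 (.n2 500 (.n3 500 (.leaf 0) (.leaf 14)) (.leaf 42)) (.n2 500 (.n3 500 (.leaf 0)
    (.leaf 14)) (.n3 500 (.leaf 0) (.n1 750 (.n2 750 (.n3 750 (.n1 625 (.leaf 42) (.leaf 41))
    (.leaf 47)) (.leaf 47)) (.leaf 41)))))

def A21 : ATree :=
    (.n1 500 (.n2 500 (.n3 500 (.n1 250 (.leaf 16) (.n2 250 (.leaf 22) (.n3 250 (.leaf 22) (.n1
    375 (.leaf 16) (.leaf 17))))) (.leaf 25)) (.n3 500 (.leaf 39) (.leaf 25))) (.n2 500 (.leaf
    17) (.n3 500 (.leaf 39) (.leaf 25))))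

def A30 : ATree :=
    (.n1 500 (.n2 500 (.n3 500 (.leaf 0) (.leaf 13)) (.leaf 12)) (.n2 500 (.leaf 8) (.leaf
    12)))

def A31 : ATree :=
    (.n1 500 (.n2 500 (.leaf 37) (.leaf 33)) (.n2 500 (.leaf 37) (.n3 500 (.leaf 38) (.leaf
    25))))

theorem hT0100 : sqcheck R 1000000000 0 1 2 3 1 1 T0100 = true := by decide +kernel

theorem hT0101 : sqcheck R 1000000000 0 1 2 3 1 (-1) T0101 = true := by decide +kernel

theorem hT0110 : sqcheck R 1000000000 0 1 2 3 (-1) 1 T0110 = true := by decide +kernel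

theorem hT0111 : sqcheck R 1000000000 0 1 2 3 (-1) (-1) T0111 = true := by decide +kernel

theorem hT0200 : sqcheck R 1000000000 0 2 1 3 1 1 T0200 = true := by decide +kernel

theorem hT0201 : sqcheck R 1000000000 0 2 1 3 1 (-1) T0201 = true := by decide +kernel

theorem hT0210 : sqcheck R 1000000000 0 2 1 3 (-1) 1 T0210 = true := by decide +kernel

theorem hT0211 : sqcheck R 1000000000 0 2 1 3 (-1) (-1) T0211 = true := by decide +kernel

theorem hT0300 : sqcheck R 1000000000 0 3 1 2 1 1 T0300 = true := by decide +kernel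

theorem hT0301 : sqcheck R 1000000000 0 3 1 2 1 (-1) T0301 = true := by decide +kernel

theorem hT0310 : sqcheck R 1000000000 0 3 1 2 (-1) 1 T0310 = true := by decide +kernel

theorem hT0311 : sqcheck R 1000000000 0 3 1 2 (-1) (-1) T0311 = true := by decide +kernel

theorem hT1200 : sqcheck R 1000000000 1 2 0 3 1 1 T1200 = true := by decide +kernel

theorem hT1201 : sqcheck R 1000000000 1 2 0 3 1 (-1) T1201 = true := by decide +kernel

theorem hT1210 : sqcheck R 1000000000 1 2 0 3 (-1) 1 T1210 = true := by decide +kernel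

theorem hT1211 : sqcheck R 1000000000 1 2 0 3 (-1) (-1) T1211 = true := by decide +kernel

theorem hT1300 : sqcheck R 1000000000 1 3 0 2 1 1 T1300 = true := by decide +kernel

theorem hT1301 : sqcheck R 1000000000 1 3 0 2 1 (-1) T1301 = true := by decide +kernel

theorem hT1310 : sqcheck R 1000000000 1 3 0 2 (-1) 1 T1310 = true := by decide +kernel

theorem hT1311 : sqcheck R 1000000000 1 3 0 2 (-1) (-1) T1311 = true := by decide +kernel

theorem hT2300 : sqcheck R 1000000000 2 3 0 1 1 1 T2300 = true := by decide +kernel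

theorem hT2301 : sqcheck R 1000000000 2 3 0 1 1 (-1) T2301 = true := by decide +kernel

theorem hT2310 : sqcheck R 1000000000 2 3 0 1 (-1) 1 T2310 = true := by decide +kernel

theorem hT2311 : sqcheck R 1000000000 2 3 0 1 (-1) (-1) T2311 = true := by decide +kernel

theorem hA00 : axcheck R 1000 0 1 2 3 1 A00 = true := by decide +kernel

theorem hA01 : axcheck R 1000 0 1 2 3 (-1) A01 = true := by decide +kernel

theorem hA10 : axcheck R 1000 1 0 2 3 1 A10 = true := by decide +kernel

theorem hA11 : axcheck R 1000 1 0 2 3 (-1) A11 = true := by decide +kernel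

theorem hA20 : axcheck R 1000 2 0 1 3 1 A20 = true := by decide +kernel

theorem hA21 : axcheck R 1000 2 0 1 3 (-1) A21 = true := by decide +kernel

theorem hA30 : axcheck R 1000 3 0 1 2 1 A30 = true := by decide +kernel

theorem hA31 : axcheck R 1000 3 0 1 2 (-1) A31 = true := by decide +kernel

theorem face01 (z : Fin 4 → ℝ) (hz : ∀ m, |z m| ≤ 1) (hi : |z 0| = 1) (hj : |z 1| = 1) :
    ∃ (q : Fin R.length) (t : ℝ), 0 < t ∧ ∑ m, |z m - t * rays R q m| < 1 :=
  face_sound R 1000000000 (by norm_num) 0 1 2 3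
    (fun f => by rw [Fin.sum_univ_four] <;> ring) T0100 T0101 T0110 T0111
    hT0100 hT0101 hT0110 hT0111 z hz hi hj

theorem face02 (z : Fin 4 → ℝ) (hz : ∀ m, |z m| ≤ 1) (hi : |z 0| = 1) (hj : |z 2| = 1) :
    ∃ (q : Fin R.length) (t : ℝ), 0 < t ∧ ∑ m, |z m - t * rays R q m| < 1 :=
  face_sound R 1000000000 (by norm_num) 0 2 1 3
    (fun f => by rw [Fin.sum_univ_four] <;> ring) T0200 T0201 T0210 T0211
    hT0200 hT0201 hT0210 hT0211 z hz hi hj

theorem face03 (z : Fin 4 → ℝ) (hz : ∀ m, |z m| ≤ 1) (hi : |z 0| = 1) (hj : |z 3| = 1) :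
    ∃ (q : Fin R.length) (t : ℝ), 0 < t ∧ ∑ m, |z m - t * rays R q m| < 1 :=
  face_sound R 1000000000 (by norm_num) 0 3 1 2
    (fun f => by rw [Fin.sum_univ_four] <;> ring) T0300 T0301 T0310 T0311
    hT0300 hT0301 hT0310 hT0311 z hz hi hj

theorem face12 (z : Fin 4 → ℝ) (hz : ∀ m, |z m| ≤ 1) (hi : |z 1| = 1) (hj : |z 2| = 1) :
    ∃ (q : Fin R.length) (t : ℝ), 0 < t ∧ ∑ m, |z m - t * rays R q m| < 1 :=
  face_sound R 1000000000 (by norm_num) 1 2 0 3
    (fun f => by rw [Fin.sum_univ_four] <;> ring) T1200 T1201 T1210 T1211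
    hT1200 hT1201 hT1210 hT1211 z hz hi hj

theorem face13 (z : Fin 4 → ℝ) (hz : ∀ m, |z m| ≤ 1) (hi : |z 1| = 1) (hj : |z 3| = 1) :
    ∃ (q : Fin R.length) (t : ℝ), 0 < t ∧ ∑ m, |z m - t * rays R q m| < 1 :=
  face_sound R 1000000000 (by norm_num) 1 3 0 2
    (fun f => by rw [Fin.sum_univ_four] <;> ring) T1300 T1301 T1310 T1311
    hT1300 hT1301 hT1310 hT1311 z hz hi hj

theorem face23 (z : Fin 4 → ℝ) (hz : ∀ m, |z m| ≤ 1) (hi : |z 2| = 1) (hj : |z 3| = 1) :
    ∃ (q : Fin R.length) (t : ℝ), 0 < t ∧ ∑ m, |z m - t * rays R q m| < 1 :=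
  face_sound R 1000000000 (by norm_num) 2 3 0 1
    (fun f => by rw [Fin.sum_univ_four] <;> ring) T2300 T2301 T2310 T2311
    hT2300 hT2301 hT2310 hT2311 z hz hi hj

theorem squareCov : SquareCov (rays R) := by
  intro z hz i j hij hi hj
  fin_cases i <;> fin_cases j
  · exact absurd rfl hij
  · exact face01 z hz hi hj
  · exact face02 z hz hi hj
  · exact face03 z hz hi hj
  · exact face01 z hz hj hi
  · exact absurd rfl hij
  · exact face12 z hz hi hj
  · exact face13 z hz hi hj
  · exact face02 z hz hj hi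
  · exact face12 z hz hj hi
  · exact absurd rfl hij
  · exact face23 z hz hi hj
  · exact face03 z hz hj hi
  · exact face13 z hz hj hi
  · exact face23 z hz hj hi
  · exact absurd rfl hij

theorem axisCov : AxisCov (rays R) := by
  intro i s hs κ hκ
  fin_cases i
  · exact axes_sound R 1000 (by norm_num) 0 1 2 3 (fun f => by rw [Fin.sum_univ_four] <;> ring)
      (by decide) (by decide) (by decide) A00 A01 hA00 hA01 s hs κ hκ
  · exact axes_sound R 1000 (by norm_num) 1 0 2 3 (fun f => by rw [Fin.sum_univ_four] <;> ring)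
      (by decide) (by decide) (by decide) A10 A11 hA10 hA11 s hs κ hκ
  · exact axes_sound R 1000 (by norm_num) 2 0 1 3 (fun f => by rw [Fin.sum_univ_four] <;> ring)
      (by decide) (by decide) (by decide) A20 A21 hA20 hA21 s hs κ hκ
  · exact axes_sound R 1000 (by norm_num) 3 0 1 2 (fun f => by rw [Fin.sum_univ_four] <;> ring)
      (by decide) (by decide) (by decide) A30 A31 hA30 hA31 s hs κ hκ

end Pool.Agent.Hadwiger.MinVol.D50
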